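import Pool.Agent.Work.MP_6f75b7_lc.Defs
import Mathlib

-- merged part: Pool.Agent.Work.MP_6f75b7_lc.Df
section
/-! Uniform first-order definability over ordered coloured graphs. -/

namespace Pool.Agent.Work.MP_6f75b7_lc

open FirstOrder FirstOrder.Language

variable {c : ℕ}

/-- The structure on an ordered graph. -/
@[reducible] def ostr (G : CGraph c) (o : LinearOrder G.V) :
    ((graphLang c).sum Language.order).Structure G.V :=
  @sumStructure (graphLang c) Language.order G.V G.str (@orderStructure G.V o.toLE)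

/-- The strict order of `o`. -/
def olt {V : Type} (o : LinearOrder V) (x y : V) : Prop := @LT.lt V o.toLT x y

/-- Uniform definability. -/
def Df {α : Type} (P : ∀ (G : CGraph c) (_ : LinearOrder G.V), (α → G.V) → Prop) : Prop :=
  ∃ φ : ((graphLang c).sum Language.order).Formula α,
    ∀ G o v, @Formula.Realize _ G.V (ostr G o) α φ v ↔ P G o v

namespace Df

variable {α : Type}

theorem and {P Q : ∀ (G : CGraph c) (_ : LinearOrder G.V), (α → G.V) → Prop}
    (hP : Df P) (hQ : Df Q) : Df (fun G o v => P G o v ∧ Q G o v) := by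
  obtain ⟨φ, hφ⟩ := hP
  obtain ⟨ψ, hψ⟩ := hQ
  refine ⟨φ ⊓ ψ, fun G o v => ?_⟩
  let _ := ostr G o
  rw [Formula.realize_inf, hφ, hψ]

theorem or {P Q : ∀ (G : CGraph c) (_ : LinearOrder G.V), (α → G.V) → Prop}
    (hP : Df P) (hQ : Df Q) : Df (fun G o v => P G o v ∨ Q G o v) := by
  obtain ⟨φ, hφ⟩ := hP
  obtain ⟨ψ, hψ⟩ := hQ
  refine ⟨φ ⊔ ψ, fun G o v => ?_⟩
  let _ := ostr G o
  rw [Formula.realize_sup, hφ, hψ]

theorem imp {P Q : ∀ (G : CGraph c) (_ : LinearOrder G.V), (α → G.V) → Prop}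
    (hP : Df P) (hQ : Df Q) : Df (fun G o v => P G o v → Q G o v) := by
  obtain ⟨φ, hφ⟩ := hP
  obtain ⟨ψ, hψ⟩ := hQ
  refine ⟨φ.imp ψ, fun G o v => ?_⟩
  let _ := ostr G o
  rw [Formula.realize_imp, hφ, hψ]

theorem iff {P Q : ∀ (G : CGraph c) (_ : LinearOrder G.V), (α → G.V) → Prop}
    (hP : Df P) (hQ : Df Q) : Df (fun G o v => P G o v ↔ Q G o v) := by
  obtain ⟨φ, hφ⟩ := hP
  obtain ⟨ψ, hψ⟩ := hQ
  refine ⟨φ.iff ψ, fun G o v => ?_⟩
  let _ := ostr G o
  rw [Formula.realize_iff, hφ, hψ]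

theorem not {P : ∀ (G : CGraph c) (_ : LinearOrder G.V), (α → G.V) → Prop}
    (hP : Df P) : Df (fun G o v => ¬ P G o v) := by
  obtain ⟨φ, hφ⟩ := hP
  refine ⟨φ.not, fun G o v => ?_⟩
  let _ := ostr G o
  rw [Formula.realize_not, hφ]

/-- Relabelling `Option α` into `α ⊕ Unit`. -/
def opt (α : Type) : Option α → α ⊕ Unit
  | none => Sum.inr ()
  | some a => Sum.inl a

theorem ex {Q : ∀ (G : CGraph c) (_ : LinearOrder G.V), G.V → (α → G.V) → Prop}
    (h : Df (fun G o (w : Option α → G.V) => Q G o (w none) (fun a => w (some a)))) :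
    Df (fun G o v => ∃ x, Q G o x v) := by
  obtain ⟨φ, hφ⟩ := h
  refine ⟨(φ.relabel (opt α)).iExs Unit, fun G o v => ?_⟩
  let _ := ostr G o
  rw [Formula.realize_iExs]
  simp only [Formula.realize_relabel, hφ]
  constructor
  · rintro ⟨i, hi⟩
    exact ⟨i (), hi⟩
  · rintro ⟨x, hx⟩
    exact ⟨fun _ => x, hx⟩

theorem all {Q : ∀ (G : CGraph c) (_ : LinearOrder G.V), G.V → (α → G.V) → Prop}
    (h : Df (fun G o (w : Option α → G.V) => Q G o (w none) (fun a => w (some a)))) :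
    Df (fun G o v => ∀ x, Q G o x v) := by
  obtain ⟨φ, hφ⟩ := h
  refine ⟨(φ.relabel (opt α)).iAlls Unit, fun G o v => ?_⟩
  let _ := ostr G o
  rw [Formula.realize_iAlls]
  simp only [Formula.realize_relabel, hφ]
  constructor
  · intro hi x
    exact hi (fun _ => x)
  · intro hx i
    exact hx (i ())

theorem eq (i j : α) : Df (fun (G : CGraph c) _ (v : α → G.V) => v i = v j) := by
  refine ⟨Term.equal (Term.var i) (Term.var j), fun G o v => ?_⟩
  let _ := ostr G o
  simp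

theorem edge (i j : α) : Df (fun (G : CGraph c) _ (v : α → G.V) => G.E (v i) (v j)) := by
  refine ⟨Relations.formula₂ (L := (graphLang c).sum Language.order)
    (Sum.inl GRel.edge) (Term.var i) (Term.var j), fun G o v => ?_⟩
  let _ := ostr G o
  rw [Formula.realize_rel₂]
  rfl

theorem col (a : Fin c) (i : α) : Df (fun (G : CGraph c) _ (v : α → G.V) => G.C a (v i)) := by
  refine ⟨Relations.formula₁ (L := (graphLang c).sum Language.order)
    (Sum.inl (GRel.col a)) (Term.var i), fun G o v => ?_⟩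
  let _ := ostr G o
  rw [Formula.realize_rel₁]
  rfl

theorem le (i j : α) :
    Df (fun (G : CGraph c) o (v : α → G.V) => @LE.le _ o.toLE (v i) (v j)) := by
  refine ⟨Relations.formula₂ (L := (graphLang c).sum Language.order)
    (Sum.inr orderRel.le) (Term.var i) (Term.var j), fun G o v => ?_⟩
  let _ := ostr G o
  rw [Formula.realize_rel₂]
  rfl

theorem lt (i j : α) : Df (fun (G : CGraph c) o (v : α → G.V) => olt o (v i) (v j)) := by
  obtain ⟨φ, hφ⟩ := (le (c := c) j i).not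
  refine ⟨φ, fun G o v => ?_⟩
  rw [hφ]
  let _ := o
  exact not_le

theorem sentence {P : ∀ (G : CGraph c) (_ : LinearOrder G.V), Prop}
    (h : Df (fun G o (_ : Empty → G.V) => P G o)) :
    ∃ φ : ((graphLang c).sum Language.order).Sentence, ∀ G o, Holds φ G o ↔ P G o := by
  obtain ⟨φ, hφ⟩ := h
  exact ⟨φ, fun G o => hφ G o _⟩

end Df

end Pool.Agent.Work.MP_6f75b7_lc
end

-- merged part: Pool.Agent.Work.MP_6f75b7_lc.Pred
section
/-! The predicates on coloured graphs out of which the sentence is built. -/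

namespace Pool.Agent.Work.MP_6f75b7_lc

section
variable (G : CGraph 8)

def Pt (x : G.V) : Prop := G.C 0 x
def Co (x : G.V) : Prop := G.C 1 x
def Vc (x : G.V) : Prop := G.C 2 x
def Pr (x : G.V) : Prop := G.C 3 x
def Ar (x : G.V) : Prop := G.C 4 x
def Sg (x : G.V) : Prop := G.C 5 x
def Ta (x : G.V) : Prop := G.C 6 x
def Bt (x : G.V) : Prop := G.C 7 x

def CoAt (y i : G.V) : Prop := Co G i ∧ G.E i y
def VcAt (y u : G.V) : Prop := Vc G u ∧ G.E u y
def Le (y i j : G.V) : Prop := ∀ s, VcAt G y s → Sg G s → G.E j s → G.E i s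
def In (u v f : G.V) : Prop :=
  ∃ p, Pr G p ∧ G.E p f ∧ G.E p u ∧ ∀ i, Co G i → (G.E p i ↔ G.E i v)
def Tgt (s x : G.V) : Prop := ∃ a, Ar G a ∧ G.E a s ∧ G.E a x
def Gen (s : G.V) : Prop := ∃ x, Pt G x ∧ Tgt G s x
def Single (y u i : G.V) : Prop := ∀ j, CoAt G y j → (G.E j u ↔ j = i)
def Sm (y u v w : G.V) : Prop := ∀ j, CoAt G y j → (G.E j w ↔ ¬ (G.E j u ↔ G.E j v))
def PT (y u v : G.V) : Prop := ∀ j, CoAt G y j → (G.E j v ↔ ¬ (G.E j u ↔ Ta G j))
def Mn (y i : G.V) : Prop := ∀ j, CoAt G y j → Le G y i j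
def Nm (y w : G.V) : Prop := ∀ i, CoAt G y i → Mn G y i → ¬ G.E i w
def Tr (i j : G.V) : Prop := i = j ∨ G.E i j
def Iso (y z : G.V) (ρ : G.V → G.V → Prop) : Prop :=
  (∀ i, CoAt G y i → ∃ j, CoAt G z j ∧ ρ i j) ∧
  (∀ j, CoAt G z j → ∃ i, CoAt G y i ∧ ρ i j) ∧
  ∀ i, CoAt G y i → ∀ i', CoAt G y i' → ∀ j, CoAt G z j → ∀ j', CoAt G z j' →
    ρ i j → ρ i' j' → (Le G y i i' ↔ Le G z j j')
def Big (y : G.V) (W : G.V → Prop) : Prop :=
  ∃ f, (∀ w, VcAt G y w → Nm G y w → ¬ W w →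
      ∃ w', VcAt G y w' ∧ Nm G y w' ∧ W w' ∧ In G w w' f) ∧
    ∀ w₁, VcAt G y w₁ → ∀ w₂, VcAt G y w₂ → ∀ w', VcAt G y w' →
      In G w₁ w' f → In G w₂ w' f → w₁ = w₂
/-- `w` or `w + τ` lies in the set coded by `f`. -/
def InOr (y f w : G.V) : Prop := In G w w f ∨ ∃ v, VcAt G y v ∧ PT G y w v ∧ In G v v f
/-- `w` and `w + τ` lie in the set coded by `f`. -/
def InAnd (y f w : G.V) : Prop := In G w w f ∧ ∃ v, VcAt G y v ∧ PT G y w v ∧ In G v v f
/-- `s` is a generator attached to the coordinate `i` by `g`. -/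
def Fn (y g i s : G.V) : Prop := ∃ a, VcAt G y a ∧ Single G y a i ∧ In G a s g

/-- The basic axioms at a point. -/
def K0at (y : G.V) : Prop :=
  (∀ i, CoAt G y i → ∀ j, CoAt G y j → Le G y i j ∨ Le G y j i) ∧
  (∀ i, CoAt G y i → ∀ j, CoAt G y j → Le G y i j → Le G y j i → i = j) ∧
  (∀ u, VcAt G y u → ∀ v, VcAt G y v → (∀ j, CoAt G y j → (G.E j u ↔ G.E j v)) → u = v) ∧
  (∃ u, VcAt G y u ∧ ∀ j, CoAt G y j → ¬ G.E j u) ∧
  (∀ u, VcAt G y u → ∀ i, CoAt G y i →
    ∃ v, VcAt G y v ∧ ∀ j, CoAt G y j → (G.E j v ↔ G.E j u ∨ j = i)) ∧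
  (∃ f, ∀ u, VcAt G y u → ∀ v, VcAt G y v → ¬ In G u v f) ∧
  (∀ f u, VcAt G y u → ∀ v, VcAt G y v → ∃ f', ∀ u', VcAt G y u' → ∀ v', VcAt G y v' →
    (In G u' v' f' ↔ In G u' v' f ∨ (u' = u ∧ v' = v)))

def T1 (y : G.V) : Prop :=
  ∀ s, VcAt G y s → ∀ x, Pt G x → ∀ x', Pt G x' → Tgt G s x → Tgt G s x' → x = x'
def T2 (y : G.V) : Prop := ∀ s, VcAt G y s → (∀ j, CoAt G y j → ¬ G.E j s) → Tgt G s y
def T3 (y : G.V) : Prop := ∀ i, CoAt G y i → ∀ j, CoAt G y j → ∀ s, VcAt G y s →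
  (∀ l, CoAt G y l → (G.E l s ↔ l = i ∨ l = j)) → Gen G s
def T4 (y : G.V) : Prop := ∀ s, VcAt G y s → Gen G s → (∃ i, CoAt G y i ∧ G.E i s) →
  ∃ i, CoAt G y i ∧ G.E i s ∧ ∃ s', VcAt G y s' ∧
    (∀ j, CoAt G y j → (G.E j s' ↔ G.E j s ∧ ¬ j = i)) ∧ Gen G s'
def T5 (y : G.V) : Prop := ∀ s, VcAt G y s → ∀ x, Pt G x → Tgt G s x →
  Iso G y x (fun i j => Tr G i j) ∧
  (∀ i, CoAt G y i → ∀ j, CoAt G x j → Tr G i j → (Ta G i ↔ Ta G j)) ∧
  ∀ u, VcAt G y u → ∀ u', VcAt G x u' →
    (∀ i, CoAt G y i → ∀ j, CoAt G x j → Tr G i j → (G.E i u ↔ G.E j u')) →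
    (Gen G u ↔ Gen G u')
def T6 (y : G.V) : Prop := ∀ s, VcAt G y s → ∀ i, CoAt G y i → ∀ s', VcAt G y s' →
  (∀ j, CoAt G y j → (G.E j s' ↔ ¬ (G.E j s ↔ j = i))) →
  ∀ x, Pt G x → Tgt G s x → ∀ x'', Pt G x'' → Tgt G s' x'' →
  ∀ j, CoAt G x j → Tr G i j → ∀ a, VcAt G x a → Single G x a j →
  ∀ x', Pt G x' → Tgt G a x' → x' = x''
def N1 (y : G.V) : Prop := ∃ i, CoAt G y i ∧ Mn G y i ∧ Ta G i ∧ ¬ Bt G i
def N2 (y : G.V) : Prop := ∀ i, CoAt G y i → ∀ a, VcAt G y a → Single G y a i →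
  ∀ x, Pt G x → Tgt G a x → ∀ j, CoAt G y j → ∀ j', CoAt G x j' → Tr G j j' →
    (Bt G j' ↔ ¬ (Bt G j ↔ ¬ (j = i ↔ (Mn G y i ∧ Ta G j))))
def LtR (y r u v g h i j : G.V) : Prop :=
  ∃ s, VcAt G y s ∧ ∃ s', VcAt G y s' ∧ Gen G s ∧ Gen G s' ∧ Fn G y g i s ∧ Fn G y h j s' ∧
    ∃ a, VcAt G y a ∧ ∃ b, VcAt G y b ∧ Sm G y u s a ∧ Sm G y v s' b ∧ In G a b r
def M1 (y : G.V) : Prop := ∀ r,
  (∀ u, VcAt G y u → ¬ In G u u r) →
  (∀ u, VcAt G y u → ∀ v, VcAt G y v → ∀ w, VcAt G y w → In G u v r → In G v w r → In G u w r) →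
  (∀ u, VcAt G y u → ∀ v, VcAt G y v → ¬ u = v → ¬ PT G y u v → In G u v r ∨ In G v u r) →
  ∃ f, ¬ Big G y (fun w => ¬ InAnd G y f w) ∧
    ∀ u, VcAt G y u → ∀ v, VcAt G y v → In G u u f → In G v v f →
      ∃ g h, ∀ i, CoAt G y i → ∀ j, CoAt G y j → (LtR G y r u v g h i j ↔ Le G y i j)
def M2 (y : G.V) : Prop := ∀ f f', Big G y (fun w => InOr G y f w) →
  Big G y (fun w => InOr G y f' w) →
  ∃ u, VcAt G y u ∧ ∃ s, VcAt G y s ∧ ∃ v, VcAt G y v ∧
    In G u u f ∧ Gen G s ∧ Sm G y u s v ∧ In G v v f'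

def K0 : Prop := ∀ y, Pt G y → K0at G y
def K1 : Prop := ∀ y, Pt G y → T1 G y ∧ T2 G y ∧ T3 G y ∧ T4 G y ∧ T5 G y ∧ T6 G y ∧
  N1 G y ∧ N2 G y ∧ M1 G y ∧ M2 G y

variable (o : LinearOrder G.V)

def Lt (t g z h i j : G.V) : Prop :=
  ∃ s, VcAt G t s ∧ ∃ s', VcAt G z s' ∧ Fn G t g i s ∧ Fn G z h j s' ∧
    ∃ x, Pt G x ∧ ∃ x', Pt G x' ∧ Tgt G s x ∧ Tgt G s' x' ∧ olt o x x'
def Mt (t g z h i j : G.V) : Prop := ∀ i', CoAt G t i' → (Lt G o t g z h i' j ↔ Le G t i' i)
def Comm (t z : G.V) : Prop := ∃ g h, Iso G t z (fun i j => Mt G o t g z h i j)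
def Lk (t i z j : G.V) : Prop :=
  ∃ g h, Iso G t z (fun i j => Mt G o t g z h i j) ∧ Mt G o t g z h i j
def Nm1 (t w z : G.V) : Prop := Comm G o t z ∧
  ∀ i, CoAt G t i → ∀ j, CoAt G z j → Lk G o t i z j → (G.E i w ↔ Bt G j)
def InA (t z : G.V) : Prop := ∃ r, Pt G r ∧ Comm G o t r ∧ Comm G o z r
def Nm2 (t w z : G.V) : Prop := InA G o t z ∧
  ∀ r, Pt G r → ∀ i, CoAt G t i → ∀ l, CoAt G r l → ∀ j, CoAt G z j →
    Lk G o t i r l → Lk G o z j r l → (G.E i w ↔ Bt G j)
def Center (t : G.V) : Prop := Big G t (fun w => ∃ z, Pt G z ∧ Nm1 G o t w z)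
def First (t z : G.V) : Prop :=
  ∀ w, VcAt G t w → ∀ z', Pt G z' → Nm2 G o t w z → Nm2 G o t w z' → ¬ olt o z' z
def InB (t f₁ f₂ z : G.V) : Prop := ∃ w, VcAt G t w ∧ Nm2 G o t w z ∧
  ((First G o t z ∧ In G w w f₁) ∨ (¬ First G o t z ∧ In G w w f₂))
def CertA (t : G.V) : Prop := ∀ t', Pt G t' → Center G o t' → InA G o t t'
def CertB (t : G.V) : Prop := ∀ w, VcAt G t w → ∀ z₁, Pt G z₁ → ∀ z₂, Pt G z₂ → ∀ z₃, Pt G z₃ →
  Nm2 G o t w z₁ → Nm2 G o t w z₂ → Nm2 G o t w z₃ → z₁ = z₂ ∨ z₁ = z₃ ∨ z₂ = z₃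
def CertC (t : G.V) : Prop := ∀ f₁ f₂,
  (∀ z, Pt G z → ∀ s, VcAt G z s → ∀ z', Pt G z' → InB G o t f₁ f₂ z → Tgt G s z' →
    InA G o t z' → InB G o t f₁ f₂ z') →
  ¬ (Big G t (fun w => ∃ z, Pt G z ∧ InB G o t f₁ f₂ z ∧ Nm2 G o t w z) ∧
     Big G t (fun w => ∃ z, Pt G z ∧ ¬ InB G o t f₁ f₂ z ∧ Nm2 G o t w z))
def CertD (t : G.V) : Prop := ∃ w, VcAt G t w ∧ ∃ z, Pt G z ∧ ∃ z', Pt G z' ∧
  Nm2 G o t w z ∧ Nm2 G o t w z' ∧ ¬ z = z'
def Cert : Prop := ∃ t, Pt G t ∧ CertA G o t ∧ CertB G o t ∧ CertC G o t ∧ CertD G o t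

end

end Pool.Agent.Work.MP_6f75b7_lc
end

-- merged part: Pool.Agent.Work.MP_6f75b7_lc.DfPred
section
/-! All the predicates are first-order definable. -/

set_option linter.unreachableTactic false
set_option linter.unusedTactic false

namespace Pool.Agent.Work.MP_6f75b7_lc

variable {α : Type}

theorem dPt (i : α) : Df (fun (G : CGraph 8) _ (v : α → G.V) => Pt G (v i)) := Df.col 0 i
theorem dCo (i : α) : Df (fun (G : CGraph 8) _ (v : α → G.V) => Co G (v i)) := Df.col 1 i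
theorem dVc (i : α) : Df (fun (G : CGraph 8) _ (v : α → G.V) => Vc G (v i)) := Df.col 2 i
theorem dPr (i : α) : Df (fun (G : CGraph 8) _ (v : α → G.V) => Pr G (v i)) := Df.col 3 i
theorem dAr (i : α) : Df (fun (G : CGraph 8) _ (v : α → G.V) => Ar G (v i)) := Df.col 4 i
theorem dSg (i : α) : Df (fun (G : CGraph 8) _ (v : α → G.V) => Sg G (v i)) := Df.col 5 i
theorem dTa (i : α) : Df (fun (G : CGraph 8) _ (v : α → G.V) => Ta G (v i)) := Df.col 6 i
theorem dBt (i : α) : Df (fun (G : CGraph 8) _ (v : α → G.V) => Bt G (v i)) := Df.col 7 i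

theorem dCoAt (i j : α) : Df (fun (G : CGraph 8) _ (v : α → G.V) => CoAt G (v i) (v j)) :=
  (dCo j).and (Df.edge j i)
theorem dVcAt (i j : α) : Df (fun (G : CGraph 8) _ (v : α → G.V) => VcAt G (v i) (v j)) :=
  (dVc j).and (Df.edge j i)

theorem dLe (i0 i1 i2 : α) :
    Df (fun (G : CGraph 8) _ (v : α → G.V) => Le G (v i0) (v i1) (v i2)) := by
  unfold Le
  repeat' with_reducible first
    | apply Df.edge | apply Df.eq | apply dSg | apply dVcAt
    | apply Df.and | apply Df.or | apply Df.iff | apply Df.not | apply Df.imp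
    | apply Df.ex | apply Df.all

theorem dIn (i0 i1 i2 : α) :
    Df (fun (G : CGraph 8) _ (v : α → G.V) => In G (v i0) (v i1) (v i2)) := by
  unfold In
  repeat' with_reducible first
    | apply Df.edge | apply Df.eq | apply dCo | apply dPr
    | apply Df.and | apply Df.or | apply Df.iff | apply Df.not | apply Df.imp
    | apply Df.ex | apply Df.all

theorem dTgt (i0 i1 : α) :
    Df (fun (G : CGraph 8) _ (v : α → G.V) => Tgt G (v i0) (v i1)) := by
  unfold Tgt
  repeat' with_reducible first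
    | apply Df.edge | apply Df.eq | apply dAr
    | apply Df.and | apply Df.or | apply Df.iff | apply Df.not | apply Df.imp
    | apply Df.ex | apply Df.all

theorem dGen (i0 : α) :
    Df (fun (G : CGraph 8) _ (v : α → G.V) => Gen G (v i0)) := by
  unfold Gen
  repeat' with_reducible first
    | apply Df.edge | apply Df.eq | apply dPt | apply dTgt
    | apply Df.and | apply Df.or | apply Df.iff | apply Df.not | apply Df.imp
    | apply Df.ex | apply Df.all

theorem dSingle (i0 i1 i2 : α) :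
    Df (fun (G : CGraph 8) _ (v : α → G.V) => Single G (v i0) (v i1) (v i2)) := by
  unfold Single
  repeat' with_reducible first
    | apply Df.edge | apply Df.eq | apply dCoAt
    | apply Df.and | apply Df.or | apply Df.iff | apply Df.not | apply Df.imp
    | apply Df.ex | apply Df.all

theorem dSm (i0 i1 i2 i3 : α) :
    Df (fun (G : CGraph 8) _ (v : α → G.V) => Sm G (v i0) (v i1) (v i2) (v i3)) := by
  unfold Sm
  repeat' with_reducible first
    | apply Df.edge | apply Df.eq | apply dCoAt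
    | apply Df.and | apply Df.or | apply Df.iff | apply Df.not | apply Df.imp
    | apply Df.ex | apply Df.all

theorem dPT (i0 i1 i2 : α) :
    Df (fun (G : CGraph 8) _ (v : α → G.V) => PT G (v i0) (v i1) (v i2)) := by
  unfold PT
  repeat' with_reducible first
    | apply Df.edge | apply Df.eq | apply dTa | apply dCoAt
    | apply Df.and | apply Df.or | apply Df.iff | apply Df.not | apply Df.imp
    | apply Df.ex | apply Df.all

theorem dMn (i0 i1 : α) :
    Df (fun (G : CGraph 8) _ (v : α → G.V) => Mn G (v i0) (v i1)) := by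
  unfold Mn
  repeat' with_reducible first
    | apply Df.edge | apply Df.eq | apply dCoAt | apply dLe
    | apply Df.and | apply Df.or | apply Df.iff | apply Df.not | apply Df.imp
    | apply Df.ex | apply Df.all

theorem dNm (i0 i1 : α) :
    Df (fun (G : CGraph 8) _ (v : α → G.V) => Nm G (v i0) (v i1)) := by
  unfold Nm
  repeat' with_reducible first
    | apply Df.edge | apply Df.eq | apply dCoAt | apply dMn
    | apply Df.and | apply Df.or | apply Df.iff | apply Df.not | apply Df.imp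
    | apply Df.ex | apply Df.all

theorem dTr (i0 i1 : α) :
    Df (fun (G : CGraph 8) _ (v : α → G.V) => Tr G (v i0) (v i1)) := by
  unfold Tr
  repeat' with_reducible first
    | apply Df.edge | apply Df.eq
    | apply Df.and | apply Df.or | apply Df.iff | apply Df.not | apply Df.imp
    | apply Df.ex | apply Df.all

theorem dInOr (i0 i1 i2 : α) :
    Df (fun (G : CGraph 8) _ (v : α → G.V) => InOr G (v i0) (v i1) (v i2)) := by
  unfold InOr
  repeat' with_reducible first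
    | apply Df.edge | apply Df.eq | apply dVcAt | apply dIn | apply dPT
    | apply Df.and | apply Df.or | apply Df.iff | apply Df.not | apply Df.imp
    | apply Df.ex | apply Df.all

theorem dInAnd (i0 i1 i2 : α) :
    Df (fun (G : CGraph 8) _ (v : α → G.V) => InAnd G (v i0) (v i1) (v i2)) := by
  unfold InAnd
  repeat' with_reducible first
    | apply Df.edge | apply Df.eq | apply dVcAt | apply dIn | apply dPT
    | apply Df.and | apply Df.or | apply Df.iff | apply Df.not | apply Df.imp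
    | apply Df.ex | apply Df.all

theorem dFn (i0 i1 i2 i3 : α) :
    Df (fun (G : CGraph 8) _ (v : α → G.V) => Fn G (v i0) (v i1) (v i2) (v i3)) := by
  unfold Fn
  repeat' with_reducible first
    | apply Df.edge | apply Df.eq | apply dVcAt | apply dIn | apply dSingle
    | apply Df.and | apply Df.or | apply Df.iff | apply Df.not | apply Df.imp
    | apply Df.ex | apply Df.all

theorem dK0at (i0 : α) :
    Df (fun (G : CGraph 8) _ (v : α → G.V) => K0at G (v i0)) := by
  unfold K0at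
  repeat' with_reducible first
    | apply Df.edge | apply Df.eq | apply dCoAt | apply dVcAt | apply dLe
    | apply dIn
    | apply Df.and | apply Df.or | apply Df.iff | apply Df.not | apply Df.imp
    | apply Df.ex | apply Df.all

theorem dT1 (i0 : α) :
    Df (fun (G : CGraph 8) _ (v : α → G.V) => T1 G (v i0)) := by
  unfold T1
  repeat' with_reducible first
    | apply Df.edge | apply Df.eq | apply dPt | apply dVcAt | apply dTgt
    | apply Df.and | apply Df.or | apply Df.iff | apply Df.not | apply Df.imp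
    | apply Df.ex | apply Df.all

theorem dT2 (i0 : α) :
    Df (fun (G : CGraph 8) _ (v : α → G.V) => T2 G (v i0)) := by
  unfold T2
  repeat' with_reducible first
    | apply Df.edge | apply Df.eq | apply dCoAt | apply dVcAt | apply dTgt
    | apply Df.and | apply Df.or | apply Df.iff | apply Df.not | apply Df.imp
    | apply Df.ex | apply Df.all

theorem dT3 (i0 : α) :
    Df (fun (G : CGraph 8) _ (v : α → G.V) => T3 G (v i0)) := by
  unfold T3
  repeat' with_reducible first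
    | apply Df.edge | apply Df.eq | apply dCoAt | apply dVcAt | apply dGen
    | apply Df.and | apply Df.or | apply Df.iff | apply Df.not | apply Df.imp
    | apply Df.ex | apply Df.all

theorem dT4 (i0 : α) :
    Df (fun (G : CGraph 8) _ (v : α → G.V) => T4 G (v i0)) := by
  unfold T4
  repeat' with_reducible first
    | apply Df.edge | apply Df.eq | apply dCoAt | apply dVcAt | apply dGen
    | apply Df.and | apply Df.or | apply Df.iff | apply Df.not | apply Df.imp
    | apply Df.ex | apply Df.all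

theorem dT5 (i0 : α) :
    Df (fun (G : CGraph 8) _ (v : α → G.V) => T5 G (v i0)) := by
  unfold T5 Iso
  repeat' with_reducible first
    | apply Df.edge | apply Df.eq | apply dPt | apply dTa | apply dCoAt
    | apply dVcAt | apply dLe | apply dTgt | apply dGen | apply dTr
    | apply Df.and | apply Df.or | apply Df.iff | apply Df.not | apply Df.imp
    | apply Df.ex | apply Df.all

theorem dT6 (i0 : α) :
    Df (fun (G : CGraph 8) _ (v : α → G.V) => T6 G (v i0)) := by
  unfold T6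
  repeat' with_reducible first
    | apply Df.edge | apply Df.eq | apply dPt | apply dCoAt | apply dVcAt
    | apply dTgt | apply dSingle | apply dTr
    | apply Df.and | apply Df.or | apply Df.iff | apply Df.not | apply Df.imp
    | apply Df.ex | apply Df.all

theorem dN1 (i0 : α) :
    Df (fun (G : CGraph 8) _ (v : α → G.V) => N1 G (v i0)) := by
  unfold N1
  repeat' with_reducible first
    | apply Df.edge | apply Df.eq | apply dTa | apply dBt | apply dCoAt
    | apply dMn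
    | apply Df.and | apply Df.or | apply Df.iff | apply Df.not | apply Df.imp
    | apply Df.ex | apply Df.all

theorem dN2 (i0 : α) :
    Df (fun (G : CGraph 8) _ (v : α → G.V) => N2 G (v i0)) := by
  unfold N2
  repeat' with_reducible first
    | apply Df.edge | apply Df.eq | apply dPt | apply dTa | apply dBt
    | apply dCoAt | apply dVcAt | apply dTgt | apply dSingle | apply dMn
    | apply dTr
    | apply Df.and | apply Df.or | apply Df.iff | apply Df.not | apply Df.imp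
    | apply Df.ex | apply Df.all

theorem dLtR (i0 i1 i2 i3 i4 i5 i6 i7 : α) :
    Df (fun (G : CGraph 8) _ (v : α → G.V) => LtR G (v i0) (v i1) (v i2) (v i3) (v i4) (v i5) (v i6) (v i7)) := by
  unfold LtR
  repeat' with_reducible first
    | apply Df.edge | apply Df.eq | apply dVcAt | apply dIn | apply dGen
    | apply dSm | apply dFn
    | apply Df.and | apply Df.or | apply Df.iff | apply Df.not | apply Df.imp
    | apply Df.ex | apply Df.all

theorem dM1 (i0 : α) :
    Df (fun (G : CGraph 8) _ (v : α → G.V) => M1 G (v i0)) := by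
  unfold M1 Big
  repeat' with_reducible first
    | apply Df.edge | apply Df.eq | apply dCoAt | apply dVcAt | apply dLe
    | apply dIn | apply dPT | apply dNm | apply dInAnd | apply dLtR
    | apply Df.and | apply Df.or | apply Df.iff | apply Df.not | apply Df.imp
    | apply Df.ex | apply Df.all

theorem dM2 (i0 : α) :
    Df (fun (G : CGraph 8) _ (v : α → G.V) => M2 G (v i0)) := by
  unfold M2 Big
  repeat' with_reducible first
    | apply Df.edge | apply Df.eq | apply dVcAt | apply dIn | apply dGen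
    | apply dSm | apply dNm | apply dInOr
    | apply Df.and | apply Df.or | apply Df.iff | apply Df.not | apply Df.imp
    | apply Df.ex | apply Df.all

theorem dK0 :
    Df (fun (G : CGraph 8) _ (_ : α → G.V) => K0 G ) := by
  unfold K0
  repeat' with_reducible first
    | apply Df.edge | apply Df.eq | apply dPt | apply dK0at
    | apply Df.and | apply Df.or | apply Df.iff | apply Df.not | apply Df.imp
    | apply Df.ex | apply Df.all

theorem dK1 :
    Df (fun (G : CGraph 8) _ (_ : α → G.V) => K1 G ) := by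
  unfold K1
  repeat' with_reducible first
    | apply Df.edge | apply Df.eq | apply dPt | apply dT1 | apply dT2
    | apply dT3 | apply dT4 | apply dT5 | apply dT6 | apply dN1
    | apply dN2 | apply dM1 | apply dM2
    | apply Df.and | apply Df.or | apply Df.iff | apply Df.not | apply Df.imp
    | apply Df.ex | apply Df.all

theorem dLt (i0 i1 i2 i3 i4 i5 : α) :
    Df (fun (G : CGraph 8) o (v : α → G.V) => Lt G o (v i0) (v i1) (v i2) (v i3) (v i4) (v i5)) := by
  unfold Lt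
  repeat' with_reducible first
    | apply Df.edge | apply Df.eq | apply Df.lt | apply dPt | apply dVcAt
    | apply dTgt | apply dFn
    | apply Df.and | apply Df.or | apply Df.iff | apply Df.not | apply Df.imp
    | apply Df.ex | apply Df.all

theorem dMt (i0 i1 i2 i3 i4 i5 : α) :
    Df (fun (G : CGraph 8) o (v : α → G.V) => Mt G o (v i0) (v i1) (v i2) (v i3) (v i4) (v i5)) := by
  unfold Mt
  repeat' with_reducible first
    | apply Df.edge | apply Df.eq | apply dCoAt | apply dLe | apply dLt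
    | apply Df.and | apply Df.or | apply Df.iff | apply Df.not | apply Df.imp
    | apply Df.ex | apply Df.all

theorem dComm (i0 i1 : α) :
    Df (fun (G : CGraph 8) o (v : α → G.V) => Comm G o (v i0) (v i1)) := by
  unfold Comm Iso
  repeat' with_reducible first
    | apply Df.edge | apply Df.eq | apply dCoAt | apply dLe | apply dMt
    | apply Df.and | apply Df.or | apply Df.iff | apply Df.not | apply Df.imp
    | apply Df.ex | apply Df.all

theorem dLk (i0 i1 i2 i3 : α) :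
    Df (fun (G : CGraph 8) o (v : α → G.V) => Lk G o (v i0) (v i1) (v i2) (v i3)) := by
  unfold Lk Iso
  repeat' with_reducible first
    | apply Df.edge | apply Df.eq | apply dCoAt | apply dLe | apply dMt
    | apply Df.and | apply Df.or | apply Df.iff | apply Df.not | apply Df.imp
    | apply Df.ex | apply Df.all

theorem dNm1 (i0 i1 i2 : α) :
    Df (fun (G : CGraph 8) o (v : α → G.V) => Nm1 G o (v i0) (v i1) (v i2)) := by
  unfold Nm1
  repeat' with_reducible first
    | apply Df.edge | apply Df.eq | apply dBt | apply dCoAt | apply dComm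
    | apply dLk
    | apply Df.and | apply Df.or | apply Df.iff | apply Df.not | apply Df.imp
    | apply Df.ex | apply Df.all

theorem dInA (i0 i1 : α) :
    Df (fun (G : CGraph 8) o (v : α → G.V) => InA G o (v i0) (v i1)) := by
  unfold InA
  repeat' with_reducible first
    | apply Df.edge | apply Df.eq | apply dPt | apply dComm
    | apply Df.and | apply Df.or | apply Df.iff | apply Df.not | apply Df.imp
    | apply Df.ex | apply Df.all

theorem dNm2 (i0 i1 i2 : α) :
    Df (fun (G : CGraph 8) o (v : α → G.V) => Nm2 G o (v i0) (v i1) (v i2)) := by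
  unfold Nm2
  repeat' with_reducible first
    | apply Df.edge | apply Df.eq | apply dPt | apply dBt | apply dCoAt
    | apply dLk | apply dInA
    | apply Df.and | apply Df.or | apply Df.iff | apply Df.not | apply Df.imp
    | apply Df.ex | apply Df.all

theorem dCenter (i0 : α) :
    Df (fun (G : CGraph 8) o (v : α → G.V) => Center G o (v i0)) := by
  unfold Center Big
  repeat' with_reducible first
    | apply Df.edge | apply Df.eq | apply dPt | apply dVcAt | apply dIn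
    | apply dNm | apply dNm1
    | apply Df.and | apply Df.or | apply Df.iff | apply Df.not | apply Df.imp
    | apply Df.ex | apply Df.all

theorem dFirst (i0 i1 : α) :
    Df (fun (G : CGraph 8) o (v : α → G.V) => First G o (v i0) (v i1)) := by
  unfold First
  repeat' with_reducible first
    | apply Df.edge | apply Df.eq | apply Df.lt | apply dPt | apply dVcAt
    | apply dNm2
    | apply Df.and | apply Df.or | apply Df.iff | apply Df.not | apply Df.imp
    | apply Df.ex | apply Df.all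

theorem dInB (i0 i1 i2 i3 : α) :
    Df (fun (G : CGraph 8) o (v : α → G.V) => InB G o (v i0) (v i1) (v i2) (v i3)) := by
  unfold InB
  repeat' with_reducible first
    | apply Df.edge | apply Df.eq | apply dVcAt | apply dIn | apply dNm2
    | apply dFirst
    | apply Df.and | apply Df.or | apply Df.iff | apply Df.not | apply Df.imp
    | apply Df.ex | apply Df.all

theorem dCertA (i0 : α) :
    Df (fun (G : CGraph 8) o (v : α → G.V) => CertA G o (v i0)) := by
  unfold CertA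
  repeat' with_reducible first
    | apply Df.edge | apply Df.eq | apply dPt | apply dInA | apply dCenter
    | apply Df.and | apply Df.or | apply Df.iff | apply Df.not | apply Df.imp
    | apply Df.ex | apply Df.all

theorem dCertB (i0 : α) :
    Df (fun (G : CGraph 8) o (v : α → G.V) => CertB G o (v i0)) := by
  unfold CertB
  repeat' with_reducible first
    | apply Df.edge | apply Df.eq | apply dPt | apply dVcAt | apply dNm2
    | apply Df.and | apply Df.or | apply Df.iff | apply Df.not | apply Df.imp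
    | apply Df.ex | apply Df.all

theorem dCertC (i0 : α) :
    Df (fun (G : CGraph 8) o (v : α → G.V) => CertC G o (v i0)) := by
  unfold CertC Big
  repeat' with_reducible first
    | apply Df.edge | apply Df.eq | apply dPt | apply dVcAt | apply dIn
    | apply dTgt | apply dNm | apply dInA | apply dNm2 | apply dInB
    | apply Df.and | apply Df.or | apply Df.iff | apply Df.not | apply Df.imp
    | apply Df.ex | apply Df.all

theorem dCertD (i0 : α) :
    Df (fun (G : CGraph 8) o (v : α → G.V) => CertD G o (v i0)) := by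
  unfold CertD
  repeat' with_reducible first
    | apply Df.edge | apply Df.eq | apply dPt | apply dVcAt | apply dNm2
    | apply Df.and | apply Df.or | apply Df.iff | apply Df.not | apply Df.imp
    | apply Df.ex | apply Df.all

theorem dCert :
    Df (fun (G : CGraph 8) o (_ : α → G.V) => Cert G o ) := by
  unfold Cert
  repeat' with_reducible first
    | apply Df.edge | apply Df.eq | apply dPt | apply dCertA | apply dCertB
    | apply dCertC | apply dCertD
    | apply Df.and | apply Df.or | apply Df.iff | apply Df.not | apply Df.imp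
    | apply Df.ex | apply Df.all

theorem exists_sentence : ∃ φ : ((graphLang 8).sum FirstOrder.Language.order).Sentence,
    ∀ G o, Holds φ G o ↔ (K0 G ∧ K1 G ∧ Cert G o) :=
  Df.sentence (dK0.and (dK1.and dCert))

end Pool.Agent.Work.MP_6f75b7_lc
end

-- merged part: Pool.Agent.Work.MP_6f75b7_lc.Abs
section
/-! The abstract combinatorial layer: definitions and basic facts. -/

namespace Pool.Agent.Work.MP_6f75b7_lc

open Finset
open scoped symmDiff

/-- Abstract data read off a graph: points with dimension, targets, `τ`, names, transport. -/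
structure AD (Y : Type) where
  N : Y → ℕ
  tgt : Y → Finset ℕ → Y → Prop
  tau : Y → Finset ℕ
  nm : Y → Finset ℕ
  tr : Y → ℕ → Y → ℕ → Prop

def AD.gen {Y : Type} (D : AD Y) (y : Y) (s : Finset ℕ) : Prop := ∃ x, D.tgt y s x

def Sup (n : ℕ) (R : Finset ℕ → Finset ℕ → Prop) : Prop :=
  ∀ u v, R u v → u ⊆ range n ∧ v ⊆ range n

def AIso (n m : ℕ) (ρ : ℕ → ℕ → Prop) : Prop :=
  (∀ i < n, ∃ j < m, ρ i j) ∧ (∀ j < m, ∃ i < n, ρ i j) ∧
  ∀ i < n, ∀ i' < n, ∀ j < m, ∀ j' < m, ρ i j → ρ i' j' → (i ≤ i' ↔ j ≤ j')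

def ABig (n : ℕ) (W : Finset ℕ → Prop) : Prop :=
  ∃ R, Sup n R ∧
    (∀ w ⊆ range n, 0 ∉ w → ¬ W w → ∃ w' ⊆ range n, 0 ∉ w' ∧ W w' ∧ R w w') ∧
    ∀ w₁ ⊆ range n, ∀ w₂ ⊆ range n, ∀ w' ⊆ range n, R w₁ w' → R w₂ w' → w₁ = w₂

def names (n : ℕ) : Finset (Finset ℕ) := (range n).powerset.filter (fun w => 0 ∉ w)

theorem mem_names {n : ℕ} {w : Finset ℕ} : w ∈ names n ↔ w ⊆ range n ∧ 0 ∉ w := by
  simp [names]

def proj (τ u : Finset ℕ) : Finset ℕ := if 0 ∈ u then u ∆ τ else u

def AM1 (n : ℕ) (gen : Finset ℕ → Prop) (τ : Finset ℕ) : Prop :=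
  ∀ R, Sup n R → (∀ u ⊆ range n, ¬ R u u) →
    (∀ u ⊆ range n, ∀ v ⊆ range n, ∀ w ⊆ range n, R u v → R v w → R u w) →
    (∀ u ⊆ range n, ∀ v ⊆ range n, ¬ u = v → ¬ v = u ∆ τ → R u v ∨ R v u) →
    ∃ F, Sup n F ∧ ¬ ABig n (fun w => ¬ (F w w ∧ F (w ∆ τ) (w ∆ τ))) ∧
      ∀ u ⊆ range n, ∀ v ⊆ range n, F u u → F v v →
        ∃ g, Sup n g ∧ ∃ h, Sup n h ∧ ∀ i < n, ∀ j < n,
          ((∃ s ⊆ range n, ∃ s' ⊆ range n, gen s ∧ gen s' ∧ g {i} s ∧ h {j} s' ∧
            R (u ∆ s) (v ∆ s')) ↔ i ≤ j)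

def AM2 (n : ℕ) (gen : Finset ℕ → Prop) (τ : Finset ℕ) : Prop :=
  ∀ F, Sup n F → ∀ F', Sup n F' → ABig n (fun w => F w w ∨ F (w ∆ τ) (w ∆ τ)) →
    ABig n (fun w => F' w w ∨ F' (w ∆ τ) (w ∆ τ)) →
    ∃ u ⊆ range n, ∃ s ⊆ range n, F u u ∧ gen s ∧ F' (u ∆ s) (u ∆ s)

/-- The axioms in abstract form. -/
structure AK {Y : Type} (D : AD Y) : Prop where
  tau_sub : ∀ y, D.tau y ⊆ range (D.N y)
  nm_sub : ∀ y, D.nm y ⊆ range (D.N y)
  t1 : ∀ y, ∀ s ⊆ range (D.N y), ∀ x x', D.tgt y s x → D.tgt y s x' → x = x'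
  t2 : ∀ y, D.tgt y ∅ y
  t3 : ∀ y, ∀ i < D.N y, ∀ j < D.N y, D.gen y {i, j}
  t4 : ∀ y, ∀ s ⊆ range (D.N y), D.gen y s → s.Nonempty → ∃ i ∈ s, D.gen y (s.erase i)
  t5 : ∀ y, ∀ s ⊆ range (D.N y), ∀ x, D.tgt y s x → D.N x = D.N y ∧ D.tau x = D.tau y ∧
    ∀ u ⊆ range (D.N y), (D.gen y u ↔ D.gen x u)
  t6 : ∀ y, ∀ s ⊆ range (D.N y), ∀ i < D.N y, ∀ x, D.tgt y s x → ∀ x'', D.tgt y (s ∆ {i}) x'' →
    ∀ x', D.tgt x {i} x' → x' = x''
  n1 : ∀ y, 0 < D.N y ∧ 0 ∈ D.tau y ∧ 0 ∉ D.nm y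
  n2 : ∀ y, ∀ i < D.N y, ∀ x, D.tgt y {i} x → D.nm x = D.nm y ∆ proj (D.tau y) {i}
  m1 : ∀ y, AM1 (D.N y) (D.gen y) (D.tau y)
  m2 : ∀ y, AM2 (D.N y) (D.gen y) (D.tau y)

section cert
variable {Y : Type} [LinearOrder Y] (D : AD Y)

def ALt (t : Y) (g : Finset ℕ → Finset ℕ → Prop) (z : Y) (h : Finset ℕ → Finset ℕ → Prop)
    (i j : ℕ) : Prop :=
  ∃ s ⊆ range (D.N t), ∃ s' ⊆ range (D.N z), g {i} s ∧ h {j} s' ∧
    ∃ x x', D.tgt t s x ∧ D.tgt z s' x' ∧ x < x'
def AMt (t : Y) (g : Finset ℕ → Finset ℕ → Prop) (z : Y) (h : Finset ℕ → Finset ℕ → Prop)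
    (i j : ℕ) : Prop := ∀ i' < D.N t, (ALt D t g z h i' j ↔ i' ≤ i)
def AComm (t z : Y) : Prop :=
  ∃ g, Sup (D.N t) g ∧ ∃ h, Sup (D.N z) h ∧ AIso (D.N t) (D.N z) (AMt D t g z h)
def AInA (t z : Y) : Prop := ∃ r, AComm D t r ∧ AComm D z r
def ACenter (t : Y) : Prop := ABig (D.N t) (fun w => ∃ z, AComm D t z ∧ D.nm z = w)
def AFirst (t z : Y) : Prop := ∀ z', AInA D t z' → D.nm z' = D.nm z → ¬ z' < z
def AInB (t : Y) (F₁ F₂ : Finset ℕ → Finset ℕ → Prop) (z : Y) : Prop :=
  AInA D t z ∧ ((AFirst D t z ∧ F₁ (D.nm z) (D.nm z)) ∨ (¬ AFirst D t z ∧ F₂ (D.nm z) (D.nm z)))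
def ACertA (t : Y) : Prop := ∀ t', ACenter D t' → AInA D t t'
def ACertB (t : Y) : Prop := ∀ z₁ z₂ z₃, AInA D t z₁ → AInA D t z₂ → AInA D t z₃ →
  D.nm z₂ = D.nm z₁ → D.nm z₃ = D.nm z₁ → z₁ = z₂ ∨ z₁ = z₃ ∨ z₂ = z₃
def ACertC (t : Y) : Prop := ∀ F₁, Sup (D.N t) F₁ → ∀ F₂, Sup (D.N t) F₂ →
  (∀ z, ∀ s ⊆ range (D.N z), ∀ z', AInB D t F₁ F₂ z → D.tgt z s z' → AInA D t z' →
    AInB D t F₁ F₂ z') →
  ¬ (ABig (D.N t) (fun w => ∃ z, AInB D t F₁ F₂ z ∧ AInA D t z ∧ D.nm z = w) ∧
     ABig (D.N t) (fun w => ∃ z, ¬ AInB D t F₁ F₂ z ∧ AInA D t z ∧ D.nm z = w))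
def ACertD (t : Y) : Prop := ∃ z z', AInA D t z ∧ AInA D t z' ∧ D.nm z' = D.nm z ∧ ¬ z = z'
def ACert : Prop := ∃ t, ACertA D t ∧ ACertB D t ∧ ACertC D t ∧ ACertD D t

end cert

/-- The order-free property: connected, with two points of the same name. -/
def AP {Y : Type} (D : AD Y) : Prop :=
  (∀ y z, Relation.ReflTransGen (fun a b => ∃ s ⊆ range (D.N a), D.tgt a s b) y z) ∧
  ∃ y z, ¬ y = z ∧ D.nm y = D.nm z

theorem AIso.le {n m : ℕ} {ρ : ℕ → ℕ → Prop} (h : AIso n m ρ) :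
    ∀ i < n, ∀ j < m, ρ i j → i ≤ j := by
  intro i
  induction i with
  | zero => intro _ j _ _; exact Nat.zero_le j
  | succ i ih =>
    intro hi j hj hρ
    obtain ⟨j', hj', hρ'⟩ := h.1 i (by omega)
    have h1 := ih (by omega) j' hj' hρ'
    have h2 := h.2.2 (i + 1) hi i (by omega) j hj j' hj' hρ hρ'
    have : ¬ j ≤ j' := fun hh => by have := h2.2 hh; omega
    omega

theorem AIso.symm {n m : ℕ} {ρ : ℕ → ℕ → Prop} (h : AIso n m ρ) :
    AIso m n (fun j i => ρ i j) :=
  ⟨h.2.1, h.1, fun j hj j' hj' i hi i' hi' h1 h2 => (h.2.2 i hi i' hi' j hj j' hj' h1 h2).symm⟩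

theorem AIso.eq {n m : ℕ} {ρ : ℕ → ℕ → Prop} (h : AIso n m ρ) :
    ∀ i < n, ∀ j < m, ρ i j → i = j := fun i hi j hj hρ =>
  le_antisymm (h.le i hi j hj hρ) (h.symm.le j hj i hi hρ)

theorem AIso.n_eq {n m : ℕ} {ρ : ℕ → ℕ → Prop} (h : AIso n m ρ) : n = m := by
  apply le_antisymm
  · by_contra hh
    obtain ⟨j, hj, hρ⟩ := h.1 m (by omega)
    have := h.eq m (by omega) j hj hρ
    omega
  · by_contra hh
    obtain ⟨j, hj, hρ⟩ := h.2.1 n (by omega)
    have := h.eq j hj n (by omega) hρ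
    omega

theorem AIso.iff {n m : ℕ} {ρ : ℕ → ℕ → Prop} (h : AIso n m ρ) :
    ∀ i < n, ∀ j < m, (ρ i j ↔ i = j) := by
  intro i hi j hj
  refine ⟨h.eq i hi j hj, ?_⟩
  rintro rfl
  obtain ⟨j', hj', hρ⟩ := h.1 i hi
  have := h.eq i hi j' hj' hρ
  subst this
  exact hρ

theorem AIso.of_iff {n : ℕ} {ρ : ℕ → ℕ → Prop} (h : ∀ i < n, ∀ j < n, (ρ i j ↔ i = j)) :
    AIso n n ρ := by
  refine ⟨fun i hi => ⟨i, hi, (h i hi i hi).2 rfl⟩, fun i hi => ⟨i, hi, (h i hi i hi).2 rfl⟩, ?_⟩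
  intro i hi i' hi' j hj j' hj' h1 h2
  rw [(h i hi j hj).1 h1, (h i' hi' j' hj').1 h2]

theorem ABig_iff {n : ℕ} {W : Finset ℕ → Prop} [DecidablePred W] :
    ABig n W ↔ ((names n).filter (fun w => ¬ W w)).card ≤ ((names n).filter W).card := by
  constructor
  · rintro ⟨R, -, h1, h2⟩
    have : ∀ w ∈ (names n).filter (fun w => ¬ W w), ∃ w' ∈ (names n).filter W, R w w' := by
      intro w hw
      simp only [mem_filter, mem_names] at hw ⊢
      obtain ⟨w', a, b, c, d⟩ := h1 w hw.1.1 hw.1.2 hw.2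
      exact ⟨w', ⟨⟨a, b⟩, c⟩, d⟩
    choose! f hf hR using this
    refine Finset.card_le_card_of_injOn f (fun w hw => hf w hw) ?_
    intro w₁ hw₁ w₂ hw₂ he
    have a1 := hf w₁ hw₁
    have b1 := hR w₁ hw₁
    have b2 := hR w₂ hw₂
    rw [← he] at b2
    simp only [coe_filter, mem_names, Set.mem_ofPred_eq, mem_filter] at hw₁ hw₂ a1
    exact h2 w₁ hw₁.1.1 w₂ hw₂.1.1 _ a1.1.1 b1 b2
  · intro h
    obtain ⟨f, hf, hinj⟩ := Set.Finite.exists_injOn_of_encard_le
      (s := (((names n).filter (fun w => ¬ W w) : Finset (Finset ℕ)) : Set (Finset ℕ)))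
      (t := (((names n).filter W : Finset (Finset ℕ)) : Set (Finset ℕ))) (Finset.finite_toSet _)
      (by rw [Set.encard_coe_eq_coe_finsetCard, Set.encard_coe_eq_coe_finsetCard]
          exact_mod_cast h)
    replace hf : ∀ {w}, w ∈ (names n).filter (fun w => ¬ W w) → f w ∈ (names n).filter W :=
      fun hw => hf hw
    refine ⟨fun w w' => w ∈ (names n).filter (fun w => ¬ W w) ∧ f w = w', ?_, ?_, ?_⟩
    · rintro u v ⟨hu, rfl⟩
      have := hf hu
      simp only [mem_names, mem_filter] at hu this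
      exact ⟨hu.1.1, this.1.1⟩
    · intro w hw h0 hW
      have hm : w ∈ (names n).filter (fun w => ¬ W w) := by
        simp only [mem_names, mem_filter]; exact ⟨⟨hw, h0⟩, hW⟩
      have := hf hm
      simp only [mem_names, mem_filter] at this
      exact ⟨f w, this.1.1, this.1.2, this.2, hm, rfl⟩
    · rintro w₁ - w₂ - w' - ⟨h1, rfl⟩ ⟨h2, he⟩
      exact hinj h1 h2 he.symm

/-- A set containing a majority set is big. -/
theorem ABig.of_not {n : ℕ} {W W' : Finset ℕ → Prop} (h : ¬ ABig n (fun w => ¬ W w))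
    (hW : ∀ w ⊆ range n, 0 ∉ w → W w → W' w) : ABig n W' := by
  classical
  rw [ABig_iff] at h ⊢
  replace h := not_le.1 h
  have h1 : ((names n).filter (fun w => ¬ W' w)).card ≤ ((names n).filter (fun w => ¬ W w)).card := by
    apply card_le_card
    intro w
    simp only [mem_filter, mem_names]
    exact fun ⟨a, b⟩ => ⟨a, fun c => b (hW w a.1 a.2 c)⟩
  have h2 : ((names n).filter (fun w => ¬ ¬ W w)).card ≤ ((names n).filter W').card := by
    apply card_le_card
    intro w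
    simp only [mem_filter, mem_names, not_not]
    exact fun ⟨a, b⟩ => ⟨a, hW w a.1 a.2 b⟩
  exact h1.trans (h.le.trans h2)

/-- A big set meets a majority set. -/
theorem ABig.meet {n : ℕ} {W W' : Finset ℕ → Prop} (h : ¬ ABig n (fun w => ¬ W w))
    (h' : ABig n W') : ∃ w ⊆ range n, 0 ∉ w ∧ W w ∧ W' w := by
  by_contra hc
  push Not at hc
  apply h
  obtain ⟨R, h0, h1, h2⟩ := h'
  refine ⟨R, h0, ?_, h2⟩
  intro w hw hw0 hW
  obtain ⟨w', a, b, c, d⟩ := h1 w hw hw0 (hc w hw hw0 (not_not.1 hW))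
  exact ⟨w', a, b, fun e => hc w' a b e c, d⟩

theorem ABig.mono {n : ℕ} {W W' : Finset ℕ → Prop} (h : ABig n W)
    (hW : ∀ w ⊆ range n, 0 ∉ w → W w → W' w) : ABig n W' := by
  obtain ⟨R, h0, h1, h2⟩ := h
  refine ⟨R, h0, ?_, h2⟩
  intro w hw hw0 hW'
  obtain ⟨w', a, b, c, d⟩ := h1 w hw hw0 (fun e => hW' (hW w hw hw0 e))
  exact ⟨w', a, b, hW w' a b c, d⟩

theorem ABig.top (n : ℕ) : ABig n (fun _ => True) :=
  ⟨fun _ _ => False, fun _ _ h => h.elim, fun _ _ _ h => (h trivial).elim,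
    fun _ _ _ _ _ _ h => h.elim⟩

theorem ABig.congr {n : ℕ} {W W' : Finset ℕ → Prop}
    (hW : ∀ w ⊆ range n, (W w ↔ W' w)) : ABig n W ↔ ABig n W' :=
  ⟨fun h => h.mono (fun w a _ b => (hW w a).1 b), fun h => h.mono (fun w a _ b => (hW w a).2 b)⟩

theorem symmDiff_sub {n : ℕ} {u v : Finset ℕ} (hu : u ⊆ range n) (hv : v ⊆ range n) :
    u ∆ v ⊆ range n := by
  intro i hi
  rw [mem_symmDiff] at hi
  rcases hi with h | h
  · exact hu h.1
  · exact hv h.1

theorem single_sub {n i : ℕ} (hi : i < n) : ({i} : Finset ℕ) ⊆ range n := by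
  simpa using hi

theorem proj_symmDiff (τ u v : Finset ℕ) : proj τ (u ∆ v) = proj τ u ∆ proj τ v := by
  unfold proj
  by_cases hu : 0 ∈ u <;> by_cases hv : 0 ∈ v <;>
    simp only [mem_symmDiff, hu, hv, not_true, not_false_iff, and_true, and_false, or_false,
      false_or, or_self, if_true, if_false] <;>
    ext i <;> simp only [mem_symmDiff] <;> tauto

theorem proj_of_notMem {τ w : Finset ℕ} (h : 0 ∉ w) : proj τ w = w := by simp [proj, h]

theorem proj_tau {τ : Finset ℕ} (h : 0 ∈ τ) : proj τ τ = ∅ := by simp [proj, h]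

theorem proj_add_tau {τ : Finset ℕ} (h : 0 ∈ τ) (u : Finset ℕ) :
    proj τ (u ∆ τ) = proj τ u := by
  rw [proj_symmDiff, proj_tau h]
  exact symmDiff_bot _

theorem zero_notMem_proj {τ : Finset ℕ} (h : 0 ∈ τ) (u : Finset ℕ) : 0 ∉ proj τ u := by
  unfold proj
  split_ifs with hu
  · simp [mem_symmDiff, hu, h]
  · exact hu

theorem proj_sub {n : ℕ} {τ u : Finset ℕ} (hτ : τ ⊆ range n) (hu : u ⊆ range n) :
    proj τ u ⊆ range n := by
  unfold proj
  split_ifs
  · exact symmDiff_sub hu hτ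
  · exact hu

theorem proj_eq {τ u v : Finset ℕ} (h : proj τ u = proj τ v) : u = v ∨ v = u ∆ τ := by
  unfold proj at h
  split_ifs at h with hu hv hv
  · left; exact symmDiff_left_injective _ h
  · right; exact h.symm
  · right; rw [h, symmDiff_symmDiff_cancel_right]
  · left; exact h

end Pool.Agent.Work.MP_6f75b7_lc
end

-- merged part: Pool.Agent.Work.MP_6f75b7_lc.Coord
section
/-! Coordinates on the local gadgets. -/

namespace Pool.Agent.Work.MP_6f75b7_lc

open Finset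
open scoped symmDiff

abbrev PtT (G : CGraph 8) : Type := {y : G.V // Pt G y}

/-- Coordinates for the gadgets of all points. -/
structure Coord (G : CGraph 8) where
  N : PtT G → ℕ
  co : PtT G → ℕ → G.V
  vc : PtT G → Finset ℕ → G.V
  coAt : ∀ y x, CoAt G y.1 x ↔ ∃ i < N y, co y i = x
  co_inj : ∀ y, ∀ i < N y, ∀ j < N y, co y i = co y j → i = j
  vcAt : ∀ y x, VcAt G y.1 x ↔ ∃ u ⊆ range (N y), vc y u = x
  vc_inj : ∀ y, ∀ u ⊆ range (N y), ∀ v ⊆ range (N y), vc y u = vc y v → u = v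
  mem : ∀ y, ∀ i < N y, ∀ u ⊆ range (N y), (G.E (co y i) (vc y u) ↔ i ∈ u)
  le : ∀ y, ∀ i < N y, ∀ j < N y, (Le G y.1 (co y i) (co y j) ↔ i ≤ j)
  full : ∀ y R, Sup (N y) R → ∃ f, ∀ u ⊆ range (N y), ∀ v ⊆ range (N y),
    (In G (vc y u) (vc y v) f ↔ R u v)

variable {G : CGraph 8}

/-- Local coordinates at one point. -/
theorem exists_local {y : G.V} (h : K0at G y) :
    ∃ (N : ℕ) (co : ℕ → G.V) (vc : Finset ℕ → G.V),
      (∀ x, CoAt G y x ↔ ∃ i < N, co i = x) ∧ (∀ i < N, ∀ j < N, co i = co j → i = j) ∧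
      (∀ x, VcAt G y x ↔ ∃ u ⊆ range N, vc u = x) ∧
      (∀ u ⊆ range N, ∀ v ⊆ range N, vc u = vc v → u = v) ∧
      (∀ i < N, ∀ u ⊆ range N, (G.E (co i) (vc u) ↔ i ∈ u)) ∧
      (∀ i < N, ∀ j < N, (Le G y (co i) (co j) ↔ i ≤ j)) ∧
      (∀ R, Sup N R → ∃ f, ∀ u ⊆ range N, ∀ v ⊆ range N, (In G (vc u) (vc v) f ↔ R u v)) := by
  classical
  obtain ⟨h1, h2, h3, h4, h5, h6, h7⟩ := h
  have := G.fin
  let S := {x : G.V // CoAt G y x}
  let _ : Fintype S := Fintype.ofFinite S
  let _ : LinearOrder S :=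
    { le := fun a b => Le G y a.1 b.1
      le_refl := fun a s _ _ h => h
      le_trans := fun a b c hab hbc s h1 h2 h3 => hab s h1 h2 (hbc s h1 h2 h3)
      le_antisymm := fun a b hab hba => Subtype.ext (h2 a.1 a.2 b.1 b.2 hab hba)
      le_total := fun a b => h1 a.1 a.2 b.1 b.2
      toDecidableLE := Classical.decRel _ }
  let N := Fintype.card S
  let e : Fin N ≃o S := monoEquivOfFin S rfl
  let co : ℕ → G.V := fun i => if h : i < N then (e ⟨i, h⟩).1 else y
  have hco : ∀ i (h : i < N), co i = (e ⟨i, h⟩).1 := fun i h => dif_pos h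
  have c1 : ∀ x, CoAt G y x ↔ ∃ i < N, co i = x := by
    intro x
    constructor
    · intro hx
      refine ⟨(e.symm ⟨x, hx⟩).1, (e.symm ⟨x, hx⟩).2, ?_⟩
      rw [hco _ (e.symm ⟨x, hx⟩).2]
      simp
    · rintro ⟨i, hi, rfl⟩
      rw [hco i hi]
      exact (e ⟨i, hi⟩).2
  have c2 : ∀ i < N, ∀ j < N, co i = co j → i = j := by
    intro i hi j hj hij
    rw [hco i hi, hco j hj] at hij
    have := e.injective (Subtype.ext hij)
    simpa using this
  have c3 : ∀ i < N, ∀ j < N, (Le G y (co i) (co j) ↔ i ≤ j) := by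
    intro i hi j hj
    rw [hco i hi, hco j hj]
    exact e.le_iff_le (x := ⟨i, hi⟩) (y := ⟨j, hj⟩)
  have v0 : ∀ u : Finset ℕ, u ⊆ range N → ∃ x, VcAt G y x ∧ ∀ i < N, (G.E (co i) x ↔ i ∈ u) := by
    intro u
    induction u using Finset.induction_on with
    | empty =>
      intro _
      obtain ⟨x, hx, hx'⟩ := h4
      exact ⟨x, hx, fun i hi => by simpa using hx' _ ((c1 _).2 ⟨i, hi, rfl⟩)⟩
    | insert a u _ ih =>
      intro hu
      obtain ⟨x, hx, hx'⟩ := ih ((subset_insert a u).trans hu)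
      have ha : a < N := mem_range.1 (hu (mem_insert_self a u))
      obtain ⟨v, hv, hv'⟩ := h5 x hx (co a) ((c1 _).2 ⟨a, ha, rfl⟩)
      refine ⟨v, hv, fun i hi => ?_⟩
      rw [hv' _ ((c1 _).2 ⟨i, hi, rfl⟩), hx' i hi, mem_insert, or_comm]
      exact or_congr ⟨c2 i hi a ha, fun h => h ▸ rfl⟩ Iff.rfl
  have : Nonempty G.V := ⟨y⟩
  choose! vc hvc hmem using v0
  have v1 : ∀ x, VcAt G y x ↔ ∃ u ⊆ range N, vc u = x := by
    intro x
    constructor
    · intro hx
      refine ⟨(range N).filter (fun i => G.E (co i) x), filter_subset _ _, ?_⟩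
      apply h3 _ (hvc _ (filter_subset _ _)) _ hx
      intro j hj
      obtain ⟨i, hi, rfl⟩ := (c1 j).1 hj
      rw [hmem _ (filter_subset _ _) i hi]
      simp [hi]
    · rintro ⟨u, hu, rfl⟩
      exact hvc u hu
  have v2 : ∀ u ⊆ range N, ∀ v ⊆ range N, vc u = vc v → u = v := by
    intro u hu v hv huv
    ext i
    by_cases hi : i < N
    · rw [← hmem u hu i hi, ← hmem v hv i hi, huv]
    · constructor
      · intro h; exact absurd (mem_range.1 (hu h)) hi
      · intro h; exact absurd (mem_range.1 (hv h)) hi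
  have r0 : ∀ T : Finset (Finset ℕ × Finset ℕ), T ⊆ (range N).powerset ×ˢ (range N).powerset →
      ∃ f, ∀ u ⊆ range N, ∀ v ⊆ range N, (In G (vc u) (vc v) f ↔ (u, v) ∈ T) := by
    intro T
    induction T using Finset.induction_on with
    | empty =>
      intro _
      obtain ⟨f, hf⟩ := h6
      exact ⟨f, fun u hu v hv => by simpa using hf _ (hvc u hu) _ (hvc v hv)⟩
    | insert a T _ ih =>
      intro hT
      obtain ⟨f, hf⟩ := ih ((subset_insert a T).trans hT)
      have ha := hT (mem_insert_self a T)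
      rw [mem_product, mem_powerset, mem_powerset] at ha
      obtain ⟨f', hf'⟩ := h7 f _ (hvc _ ha.1) _ (hvc _ ha.2)
      refine ⟨f', fun u hu v hv => ?_⟩
      rw [hf' _ (hvc u hu) _ (hvc v hv), hf u hu v hv, mem_insert, or_comm]
      refine or_congr ?_ Iff.rfl
      constructor
      · rintro ⟨e1, e2⟩
        exact Prod.ext (v2 _ hu _ ha.1 e1) (v2 _ hv _ ha.2 e2)
      · rintro rfl
        exact ⟨rfl, rfl⟩
  refine ⟨N, co, vc, c1, c2, v1, v2, fun i hi u hu => hmem u hu i hi, c3, ?_⟩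
  intro R _
  obtain ⟨f, hf⟩ := r0 (((range N).powerset ×ˢ (range N).powerset).filter (fun a => R a.1 a.2))
    (filter_subset _ _)
  refine ⟨f, fun u hu v hv => ?_⟩
  rw [hf u hu v hv]
  simp [hu, hv]

theorem exists_coord (h : K0 G) : Nonempty (Coord G) := by
  choose N co vc h1 h2 h3 h4 h5 h6 h7 using fun y : PtT G => exists_local (h y.1 y.2)
  exact ⟨⟨N, co, vc, h1, h2, h3, h4, h5, h6, h7⟩⟩

namespace Coord

variable (cd : Coord G)

theorem forall_co (y : PtT G) (P : G.V → Prop) :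
    (∀ x, CoAt G y.1 x → P x) ↔ ∀ i < cd.N y, P (cd.co y i) := by
  simp only [cd.coAt]
  constructor
  · intro h i hi; exact h _ ⟨i, hi, rfl⟩
  · rintro h x ⟨i, hi, rfl⟩; exact h i hi

theorem exists_co (y : PtT G) (P : G.V → Prop) :
    (∃ x, CoAt G y.1 x ∧ P x) ↔ ∃ i < cd.N y, P (cd.co y i) := by
  simp only [cd.coAt]
  constructor
  · rintro ⟨x, ⟨i, hi, rfl⟩, h⟩; exact ⟨i, hi, h⟩
  · rintro ⟨i, hi, h⟩; exact ⟨_, ⟨i, hi, rfl⟩, h⟩

theorem forall_vc (y : PtT G) (P : G.V → Prop) :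
    (∀ x, VcAt G y.1 x → P x) ↔ ∀ u ⊆ range (cd.N y), P (cd.vc y u) := by
  simp only [cd.vcAt]
  constructor
  · intro h i hi; exact h _ ⟨i, hi, rfl⟩
  · rintro h x ⟨i, hi, rfl⟩; exact h i hi

theorem exists_vc (y : PtT G) (P : G.V → Prop) :
    (∃ x, VcAt G y.1 x ∧ P x) ↔ ∃ u ⊆ range (cd.N y), P (cd.vc y u) := by
  simp only [cd.vcAt]
  constructor
  · rintro ⟨x, ⟨i, hi, rfl⟩, h⟩; exact ⟨i, hi, h⟩
  · rintro ⟨i, hi, h⟩; exact ⟨_, ⟨i, hi, rfl⟩, h⟩

omit cd in
theorem forall_pt (P : G.V → Prop) : (∀ x, Pt G x → P x) ↔ ∀ x : PtT G, P x.1 :=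
  ⟨fun h x => h x.1 x.2, fun h x hx => h ⟨x, hx⟩⟩

omit cd in
theorem exists_pt (P : G.V → Prop) : (∃ x, Pt G x ∧ P x) ↔ ∃ x : PtT G, P x.1 :=
  ⟨fun ⟨x, hx, h⟩ => ⟨⟨x, hx⟩, h⟩, fun ⟨x, h⟩ => ⟨x.1, x.2, h⟩⟩

theorem co_eq (y : PtT G) {i j : ℕ} (hi : i < cd.N y) (hj : j < cd.N y) :
    cd.co y i = cd.co y j ↔ i = j := ⟨cd.co_inj y i hi j hj, fun h => h ▸ rfl⟩

theorem vc_eq (y : PtT G) {u v : Finset ℕ} (hu : u ⊆ range (cd.N y)) (hv : v ⊆ range (cd.N y)) :
    cd.vc y u = cd.vc y v ↔ u = v := ⟨cd.vc_inj y u hu v hv, fun h => h ▸ rfl⟩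

theorem mem' (y : PtT G) {i : ℕ} {u : Finset ℕ} (hi : i < cd.N y) (hu : u ⊆ range (cd.N y)) :
    G.E (cd.co y i) (cd.vc y u) ↔ i ∈ u := cd.mem y i hi u hu

theorem le' (y : PtT G) {i j : ℕ} (hi : i < cd.N y) (hj : j < cd.N y) :
    Le G y.1 (cd.co y i) (cd.co y j) ↔ i ≤ j := cd.le y i hi j hj

/-- The relation coded by a vertex. -/
def rel (y : PtT G) (f : G.V) : Finset ℕ → Finset ℕ → Prop := fun u v =>
  u ⊆ range (cd.N y) ∧ v ⊆ range (cd.N y) ∧ In G (cd.vc y u) (cd.vc y v) f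

theorem rel_sup (y : PtT G) (f : G.V) : Sup (cd.N y) (cd.rel y f) :=
  fun _ _ h => ⟨h.1, h.2.1⟩

theorem In_iff (y : PtT G) {u v : Finset ℕ} (f : G.V) (hu : u ⊆ range (cd.N y))
    (hv : v ⊆ range (cd.N y)) : In G (cd.vc y u) (cd.vc y v) f ↔ cd.rel y f u v :=
  ⟨fun h => ⟨hu, hv, h⟩, fun h => h.2.2⟩

theorem full' (y : PtT G) {R : Finset ℕ → Finset ℕ → Prop} (h : Sup (cd.N y) R) :
    ∃ f, cd.rel y f = R := by
  obtain ⟨f, hf⟩ := cd.full y R h
  refine ⟨f, ?_⟩
  funext u v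
  apply propext
  constructor
  · rintro ⟨hu, hv, h'⟩
    exact (hf u hu v hv).1 h'
  · intro h'
    exact ⟨(h u v h').1, (h u v h').2, (hf u (h u v h').1 v (h u v h').2).2 h'⟩

theorem ex_rel (y : PtT G) (Ψ : (Finset ℕ → Finset ℕ → Prop) → Prop) :
    (∃ f, Ψ (cd.rel y f)) ↔ ∃ R, Sup (cd.N y) R ∧ Ψ R := by
  constructor
  · rintro ⟨f, hf⟩
    exact ⟨_, cd.rel_sup y f, hf⟩
  · rintro ⟨R, hR, h⟩
    obtain ⟨f, rfl⟩ := cd.full' y hR
    exact ⟨f, h⟩

theorem all_rel (y : PtT G) (Ψ : (Finset ℕ → Finset ℕ → Prop) → Prop) :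
    (∀ f, Ψ (cd.rel y f)) ↔ ∀ R, Sup (cd.N y) R → Ψ R := by
  constructor
  · intro h R hR
    obtain ⟨f, rfl⟩ := cd.full' y hR
    exact h f
  · intro h f
    exact h _ (cd.rel_sup y f)

include cd in
theorem k0 : K0 G := by
  classical
  unfold K0
  rw [forall_pt]
  intro y
  unfold K0at
  refine ⟨?_, ?_, ?_, ?_, ?_, ?_, ?_⟩
  · simp only [cd.forall_co]
    intro i hi j hj
    rw [cd.le' y hi hj, cd.le' y hj hi]
    omega
  · simp only [cd.forall_co]
    intro i hi j hj
    rw [cd.le' y hi hj, cd.le' y hj hi, cd.co_eq y hi hj]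
    omega
  · simp only [cd.forall_co, cd.forall_vc]
    intro u hu v hv h
    rw [cd.vc_eq y hu hv]
    ext i
    by_cases hi : i < cd.N y
    · rw [← cd.mem' y hi hu, ← cd.mem' y hi hv, h i hi]
    · constructor
      · intro h; exact absurd (mem_range.1 (hu h)) hi
      · intro h; exact absurd (mem_range.1 (hv h)) hi
  · simp only [cd.forall_co, cd.exists_vc]
    refine ⟨∅, empty_subset _, fun i hi => ?_⟩
    rw [cd.mem' y hi (empty_subset _)]
    simp
  · simp only [cd.forall_co, cd.exists_vc, cd.forall_vc]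
    intro u hu i hi
    have : insert i u ⊆ range (cd.N y) := insert_subset (mem_range.2 hi) hu
    refine ⟨insert i u, this, fun j hj => ?_⟩
    rw [cd.mem' y hj this, cd.mem' y hj hu, cd.co_eq y hj hi, mem_insert, or_comm]
  · simp only [cd.forall_vc]
    obtain ⟨f, hf⟩ := cd.full y (fun _ _ => False) (fun _ _ h => h.elim)
    exact ⟨f, fun u hu v hv => by rw [hf u hu v hv]; exact id⟩
  · simp only [cd.forall_vc]
    intro f u hu v hv
    obtain ⟨f', hf⟩ := cd.full y (fun a b => cd.rel y f a b ∨ (a = u ∧ b = v))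
      (by
        rintro a b (h | ⟨rfl, rfl⟩)
        · exact cd.rel_sup y f a b h
        · exact ⟨hu, hv⟩)
    refine ⟨f', fun a ha b hb => ?_⟩
    rw [hf a ha b hb, cd.In_iff y f ha hb, cd.vc_eq y ha hu, cd.vc_eq y hb hv]

end Coord

end Pool.Agent.Work.MP_6f75b7_lc
end

-- merged part: Pool.Agent.Work.MP_6f75b7_lc.AbsAct
section
/-! The group action defined by the axioms. -/

namespace Pool.Agent.Work.MP_6f75b7_lc

open Finset
open scoped symmDiff

variable {Y : Type} {D : AD Y}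

namespace AK

variable (hK : AK D)
include hK

theorem gen_single (y : Y) {i : ℕ} (hi : i < D.N y) : D.gen y {i} := by
  simpa using hK.t3 y i hi i hi

open Classical in
/-- The elementary involutions. -/
noncomputable def e (i : ℕ) (y : Y) : Y :=
  if h : i < D.N y then Classical.choose (hK.gen_single y h) else y

theorem e_spec (y : Y) {i : ℕ} (hi : i < D.N y) : D.tgt y {i} (hK.e i y) := by
  unfold e
  rw [dif_pos hi]
  exact Classical.choose_spec (hK.gen_single y hi)

theorem e_of_le (y : Y) {i : ℕ} (hi : ¬ i < D.N y) : hK.e i y = y := by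
  unfold e
  rw [dif_neg hi]

omit hK in
/-- Two points carry the same local data. -/
def Same (D : AD Y) (y x : Y) : Prop :=
  D.N x = D.N y ∧ D.tau x = D.tau y ∧ ∀ u ⊆ range (D.N y), (D.gen y u ↔ D.gen x u)

omit hK in
theorem Same.refl (y : Y) : Same D y y := ⟨rfl, rfl, fun _ _ => Iff.rfl⟩

omit hK in
theorem Same.trans {x y z : Y} (h : Same D x y) (h' : Same D y z) : Same D x z :=
  ⟨h'.1.trans h.1, h'.2.1.trans h.2.1, fun u hu =>
    (h.2.2 u hu).trans (h'.2.2 u (by rw [h.1]; exact hu))⟩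

theorem same_e (i : ℕ) (y : Y) : Same D y (hK.e i y) := by
  by_cases hi : i < D.N y
  · exact hK.t5 y _ (single_sub hi) _ (hK.e_spec y hi)
  · rw [hK.e_of_le y hi]; exact Same.refl y

theorem step (y : Y) {s : Finset ℕ} (hs : s ⊆ range (D.N y)) {i : ℕ} (hi : i < D.N y) {x : Y}
    (hx : D.tgt y s x) (hg : D.gen y (s ∆ {i})) : D.tgt y (s ∆ {i}) (hK.e i x) := by
  obtain ⟨x'', hx''⟩ := hg
  have hN := (hK.t5 y s hs x hx).1
  rw [hK.t6 y s hs i hi x hx x'' hx'' _ (hK.e_spec x (by rw [hN]; exact hi))]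
  exact hx''

theorem e_e (i : ℕ) (y : Y) : hK.e i (hK.e i y) = y := by
  by_cases hi : i < D.N y
  · have h0 : ({i} : Finset ℕ) ∆ {i} = ∅ := symmDiff_self _
    have := hK.step y (single_sub hi) hi (hK.e_spec y hi) (by rw [h0]; exact ⟨y, hK.t2 y⟩)
    rw [h0] at this
    exact hK.t1 y ∅ (empty_subset _) _ _ this (hK.t2 y)
  · rw [hK.e_of_le y hi, hK.e_of_le y hi]

theorem e_comm (i j : ℕ) (y : Y) : hK.e i (hK.e j y) = hK.e j (hK.e i y) := by
  by_cases hij : i = j
  · rw [hij]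
  by_cases hi : i < D.N y
  · by_cases hj : j < D.N y
    · have h0 : ({i} : Finset ℕ) ∆ {j} = {i, j} := by
        ext l
        simp only [mem_symmDiff, mem_singleton, mem_insert]
        omega
      have h1 : ({j} : Finset ℕ) ∆ {i} = {i, j} := by rw [symmDiff_comm, h0]
      have a := hK.step y (single_sub hi) hj (hK.e_spec y hi)
        (by rw [h0]; exact hK.t3 y i hi j hj)
      have b := hK.step y (single_sub hj) hi (hK.e_spec y hj)
        (by rw [h1]; exact hK.t3 y i hi j hj)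
      rw [h0] at a
      rw [h1] at b
      refine hK.t1 y {i, j} ?_ _ _ b a
      intro l hl
      simp only [mem_insert, mem_singleton] at hl
      rcases hl with rfl | rfl <;> simpa
    · rw [hK.e_of_le y hj, hK.e_of_le (hK.e i y) (by rw [(hK.same_e i y).1]; exact hj)]
  · rw [hK.e_of_le y hi, hK.e_of_le (hK.e j y) (by rw [(hK.same_e j y).1]; exact hi)]

/-- The elementary involutions as permutations. -/
noncomputable def ep (i : ℕ) : Equiv.Perm Y :=
  Function.Involutive.toPerm (hK.e i) (hK.e_e i)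

theorem ep_apply (i : ℕ) (y : Y) : hK.ep i y = hK.e i y := rfl

theorem ep_comm (i j : ℕ) : Commute (hK.ep i) (hK.ep j) :=
  Equiv.ext (fun y => hK.e_comm i j y)

theorem ep_mul_self (i : ℕ) : hK.ep i * hK.ep i = 1 := Equiv.ext (fun y => hK.e_e i y)

/-- The action of a finite set of coordinates. -/
noncomputable def act (u : Finset ℕ) : Equiv.Perm Y :=
  u.noncommProd hK.ep (fun i _ j _ _ => hK.ep_comm i j)

theorem act_empty : hK.act ∅ = 1 := noncommProd_empty _ _

theorem act_insert {i : ℕ} {u : Finset ℕ} (h : i ∉ u) :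
    hK.act (insert i u) = hK.ep i * hK.act u := noncommProd_insert_of_notMem _ _ _ _ h

omit hK in
theorem insert_eq_symmDiff {i : ℕ} {u : Finset ℕ} (h : i ∉ u) : insert i u = u ∆ {i} := by
  ext l
  simp only [mem_symmDiff, mem_singleton, mem_insert]
  constructor
  · rintro (rfl | hl)
    · exact Or.inr ⟨rfl, h⟩
    · exact Or.inl ⟨hl, fun e => h (e ▸ hl)⟩
  · tauto

theorem act_single (u : Finset ℕ) (i : ℕ) : hK.act (u ∆ {i}) = hK.ep i * hK.act u := by
  by_cases h : i ∈ u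
  · have h1 : u = insert i (u.erase i) := (insert_erase h).symm
    have h2 : u ∆ {i} = u.erase i := by
      conv_lhs => rw [h1, insert_eq_symmDiff (notMem_erase i u), symmDiff_symmDiff_cancel_right]
    rw [h2]
    conv_rhs => rw [h1, hK.act_insert (notMem_erase i u), ← mul_assoc, hK.ep_mul_self, one_mul]
  · rw [← insert_eq_symmDiff h, hK.act_insert h]

theorem act_symmDiff (u v : Finset ℕ) : hK.act (u ∆ v) = hK.act u * hK.act v := by
  induction u using Finset.induction_on with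
  | empty =>
    have : (∅ : Finset ℕ) ∆ v = v := bot_symmDiff v
    rw [this, hK.act_empty, one_mul]
  | insert i u hi ih =>
    rw [insert_eq_symmDiff hi, symmDiff_right_comm, hK.act_single, hK.act_single, ih, mul_assoc]

theorem same_act (u : Finset ℕ) (y : Y) : Same D y (hK.act u y) := by
  induction u using Finset.induction_on with
  | empty => rw [hK.act_empty]; exact Same.refl y
  | insert i u hi ih =>
    rw [hK.act_insert hi]
    exact ih.trans (hK.same_e i _)

theorem tgt_act (y : Y) : ∀ (k : ℕ) (s : Finset ℕ), s.card = k → s ⊆ range (D.N y) →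
    D.gen y s → D.tgt y s (hK.act s y) := by
  intro k
  induction k with
  | zero =>
    intro s hs _ _
    rw [card_eq_zero] at hs
    subst hs
    rw [hK.act_empty]
    exact hK.t2 y
  | succ k ih =>
    intro s hs hsub hg
    obtain ⟨i, hi, hg'⟩ := hK.t4 y s hsub hg (card_pos.1 (by omega))
    have hsub' : s.erase i ⊆ range (D.N y) := (erase_subset i s).trans hsub
    have h1 := ih (s.erase i) (by rw [card_erase_of_mem hi]; omega) hsub' hg'
    have h2 : s.erase i ∆ {i} = s := by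
      rw [← insert_eq_symmDiff (notMem_erase i s), insert_erase hi]
    have h3 := hK.step y hsub' (mem_range.1 (hsub hi)) h1 (by rw [h2]; exact hg)
    have h4 := hK.act_single (s.erase i) i
    rw [h2] at h3 h4
    rw [h4]
    exact h3

theorem tgt_iff (y : Y) {s : Finset ℕ} (hs : s ⊆ range (D.N y)) (x : Y) :
    D.tgt y s x ↔ D.gen y s ∧ x = hK.act s y := by
  constructor
  · intro h
    exact ⟨⟨x, h⟩, hK.t1 y s hs _ _ h (hK.tgt_act y _ s rfl hs ⟨x, h⟩)⟩
  · rintro ⟨h, rfl⟩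
    exact hK.tgt_act y _ s rfl hs h

theorem nm_act (y : Y) (u : Finset ℕ) (hu : u ⊆ range (D.N y)) :
    D.nm (hK.act u y) = D.nm y ∆ proj (D.tau y) u := by
  induction u using Finset.induction_on with
  | empty =>
    rw [hK.act_empty, proj_of_notMem (notMem_empty 0)]
    exact (symmDiff_bot _).symm
  | insert i u hi ih =>
    have hS := hK.same_act u y
    have hi' : i < D.N (hK.act u y) := by
      rw [hS.1]; exact mem_range.1 (hu (mem_insert_self i u))
    rw [hK.act_insert hi, Equiv.Perm.mul_apply, hK.ep_apply,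
      hK.n2 _ i hi' _ (hK.e_spec _ hi'), ih ((subset_insert i u).trans hu), hS.2.1,
      insert_eq_symmDiff hi, proj_symmDiff, symmDiff_assoc]

/-- The canonical parametrisation of the orbit of `y`. -/
noncomputable def p (y : Y) (u : Finset ℕ) : Y := hK.act (u ∆ D.nm y) y

theorem same_p (y : Y) (u : Finset ℕ) : Same D y (hK.p y u) := hK.same_act _ y

theorem N_p (y : Y) (u : Finset ℕ) : D.N (hK.p y u) = D.N y := (hK.same_p y u).1

theorem act_p (y : Y) (u s : Finset ℕ) : hK.act s (hK.p y u) = hK.p y (u ∆ s) := by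
  unfold p
  rw [← Equiv.Perm.mul_apply, ← hK.act_symmDiff, ← symmDiff_assoc, symmDiff_comm s u]

theorem nm_p (y : Y) {u : Finset ℕ} (hu : u ⊆ range (D.N y)) :
    D.nm (hK.p y u) = proj (D.tau y) u := by
  unfold p
  rw [hK.nm_act y _ (symmDiff_sub hu (hK.nm_sub y)), proj_symmDiff,
    proj_of_notMem (hK.n1 y).2.2, symmDiff_comm, symmDiff_symmDiff_cancel_right]

theorem p_nm (y : Y) : hK.p y (D.nm y) = y := by
  unfold p
  have : D.nm y ∆ D.nm y = ∅ := symmDiff_self _
  rw [this, hK.act_empty]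
  rfl

theorem tgt_p (y : Y) {u s : Finset ℕ} (hs : s ⊆ range (D.N y)) (x : Y) :
    D.tgt (hK.p y u) s x ↔ D.gen y s ∧ x = hK.p y (u ∆ s) := by
  rw [hK.tgt_iff _ (by rw [hK.N_p]; exact hs), hK.act_p, (hK.same_p y u).2.2 s hs]

/-- The orbit relation. -/
def Orb (y z : Y) : Prop := ∃ u ⊆ range (D.N y), z = hK.p y u

theorem orb_refl (y : Y) : hK.Orb y y := ⟨D.nm y, hK.nm_sub y, (hK.p_nm y).symm⟩

theorem orb_step {y z x : Y} (h : hK.Orb y z) {s : Finset ℕ} (hs : s ⊆ range (D.N z))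
    (hx : D.tgt z s x) : hK.Orb y x := by
  obtain ⟨u, hu, rfl⟩ := h
  rw [hK.N_p] at hs
  exact ⟨u ∆ s, symmDiff_sub hu hs, ((hK.tgt_p y hs x).1 hx).2⟩

theorem orb_of_reach {y z : Y}
    (h : Relation.ReflTransGen (fun a b => ∃ s ⊆ range (D.N a), D.tgt a s b) y z) :
    hK.Orb y z := by
  induction h with
  | refl => exact hK.orb_refl y
  | tail _ h ih =>
    obtain ⟨s, hs, hx⟩ := h
    exact hK.orb_step ih hs hx

theorem reach_act (y : Y) (u : Finset ℕ) (hu : u ⊆ range (D.N y)) :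
    Relation.ReflTransGen (fun a b => ∃ s ⊆ range (D.N a), D.tgt a s b) y (hK.act u y) := by
  induction u using Finset.induction_on with
  | empty => rw [hK.act_empty]; exact Relation.ReflTransGen.refl
  | insert i u hi ih =>
    have hi' : i < D.N (hK.act u y) := by
      rw [(hK.same_act u y).1]; exact mem_range.1 (hu (mem_insert_self i u))
    rw [hK.act_insert hi]
    exact (ih ((subset_insert i u).trans hu)).tail ⟨{i}, single_sub hi', hK.e_spec _ hi'⟩

theorem reach_of_orb {t y z : Y} (hy : hK.Orb t y) (hz : hK.Orb t z) :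
    Relation.ReflTransGen (fun a b => ∃ s ⊆ range (D.N a), D.tgt a s b) y z := by
  obtain ⟨u, hu, rfl⟩ := hy
  obtain ⟨v, hv, rfl⟩ := hz
  have := hK.reach_act (hK.p t u) (u ∆ v) (by rw [hK.N_p]; exact symmDiff_sub hu hv)
  rwa [hK.act_p, symmDiff_symmDiff_cancel_left] at this

theorem orb_of_common {t y z : Y} (hy : hK.Orb t z) (hz : hK.Orb y z) : hK.Orb t y := by
  obtain ⟨v, hv, rfl⟩ := hz
  obtain ⟨u, hu, he⟩ := hy
  have hN : D.N y = D.N t := by rw [← hK.N_p y v, he, hK.N_p]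
  refine ⟨u ∆ (v ∆ D.nm y), symmDiff_sub hu (hN ▸ symmDiff_sub hv (hK.nm_sub y)), ?_⟩
  rw [← hK.act_p, ← he, hK.act_p, symmDiff_symmDiff_cancel_left, hK.p_nm]

end AK

end Pool.Agent.Work.MP_6f75b7_lc
end

-- merged part: Pool.Agent.Work.MP_6f75b7_lc.AbsMain
section
/-! The certificate holds for an order iff the order-free property holds. -/

namespace Pool.Agent.Work.MP_6f75b7_lc

open Finset
open scoped symmDiff

variable {Y : Type} {D : AD Y} [LinearOrder Y]

theorem AComm.N_eq {t z : Y} (h : AComm D t z) : D.N t = D.N z := by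
  obtain ⟨g, -, h', -, hi⟩ := h
  exact hi.n_eq

theorem AInA.N_eq {t z : Y} (h : AInA D t z) : D.N t = D.N z := by
  obtain ⟨r, h1, h2⟩ := h
  rw [h1.N_eq, h2.N_eq]

namespace AK

variable (hK : AK D)
include hK

/-- In every orbit most points communicate with each other. -/
theorem good (y : Y) : ∃ F : Finset ℕ → Prop,
    ¬ ABig (D.N y) (fun w => ¬ (F w ∧ F (w ∆ D.tau y))) ∧ (∀ u, F u → u ⊆ range (D.N y)) ∧
    ∀ u v, F u → F v → AComm D (hK.p y u) (hK.p y v) := by
  obtain ⟨F, hF, h1, h2⟩ := hK.m1 y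
    (fun u v => u ⊆ range (D.N y) ∧ v ⊆ range (D.N y) ∧ hK.p y u < hK.p y v)
    (fun u v h => ⟨h.1, h.2.1⟩) (fun u _ h => lt_irrefl _ h.2.2)
    (fun u _ v _ w _ h h' => ⟨h.1, h'.2.1, h.2.2.trans h'.2.2⟩)
    (by
      intro u hu v hv h1 h2
      have : hK.p y u ≠ hK.p y v := by
        intro he
        have := congrArg D.nm he
        rw [hK.nm_p y hu, hK.nm_p y hv] at this
        rcases proj_eq this with h | h
        · exact h1 h
        · exact h2 h
      rcases lt_or_gt_of_ne this with h | h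
      · exact Or.inl ⟨hu, hv, h⟩
      · exact Or.inr ⟨hv, hu, h⟩)
  refine ⟨fun u => F u u, h1, fun u h => (hF u u h).1, ?_⟩
  intro u v hu hv
  have hu' := (hF u u hu).1
  have hv' := (hF v v hv).1
  obtain ⟨g, hg, h, hh, H⟩ := h2 u hu' v hv' hu hv
  have key : ∀ i < D.N y, ∀ j < D.N y, (ALt D (hK.p y u) g (hK.p y v) h i j ↔ i ≤ j) := by
    intro i hi j hj
    rw [← H i hi j hj]
    unfold ALt
    rw [hK.N_p, hK.N_p]
    constructor
    · rintro ⟨s, hs, s', hs', a, b, x, x', c, d, e⟩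
      rw [hK.tgt_p y hs] at c
      rw [hK.tgt_p y hs'] at d
      refine ⟨s, hs, s', hs', c.1, d.1, a, b, symmDiff_sub hu' hs, symmDiff_sub hv' hs', ?_⟩
      rw [← c.2, ← d.2]
      exact e
    · rintro ⟨s, hs, s', hs', c, d, a, b, -, -, e⟩
      exact ⟨s, hs, s', hs', a, b, _, _, (hK.tgt_p y hs _).2 ⟨c, rfl⟩,
        (hK.tgt_p y hs' _).2 ⟨d, rfl⟩, e⟩
  refine ⟨g, by rw [hK.N_p]; exact hg, h, by rw [hK.N_p]; exact hh, ?_⟩
  rw [hK.N_p, hK.N_p]
  apply AIso.of_iff
  intro i hi j hj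
  unfold AMt
  rw [hK.N_p]
  constructor
  · intro H'
    have a := (H' i hi).2 le_rfl
    have b := (H' j hj).1 ((key j hj j hj).2 le_rfl)
    rw [key i hi j hj] at a
    omega
  · rintro rfl i' hi'
    exact key i' hi' i hi

theorem center_of_good {y : Y} {F : Finset ℕ → Prop}
    (h1 : ¬ ABig (D.N y) (fun w => ¬ (F w ∧ F (w ∆ D.tau y))))
    (h3 : ∀ u v, F u → F v → AComm D (hK.p y u) (hK.p y v)) {u : Finset ℕ} (hu : F u) :
    ACenter D (hK.p y u) := by
  unfold ACenter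
  rw [hK.N_p]
  refine ABig.of_not h1 ?_
  intro w hw h0 hF
  exact ⟨hK.p y w, h3 u w hu hF.1, by rw [hK.nm_p y hw, proj_of_notMem h0]⟩

theorem sound [Finite Y] (h : ACert D) : AP D := by
  classical
  obtain ⟨t, hA, hB, hC, z, z', -, -, hz, hne⟩ := h
  refine ⟨?_, z, z', hne, hz.symm⟩
  suffices H : ∀ y, hK.Orb t y from fun y z => hK.reach_of_orb (H y) (H z)
  by_contra hc
  push Not at hc
  obtain ⟨y, hy⟩ := hc
  obtain ⟨F, hF1, hF2, hF3⟩ := hK.good t
  obtain ⟨F', hF1', hF2', hF3'⟩ := hK.good y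
  have hAt : ∀ u, F u → AInA D t (hK.p t u) := fun u hu => hA _ (hK.center_of_good hF1 hF3 hu)
  have hAy : ∀ u, F' u → AInA D t (hK.p y u) := fun u hu => hA _ (hK.center_of_good hF1' hF3' hu)
  obtain ⟨w₀, -, -, hw₀, -⟩ := ABig.meet hF1' (ABig.top _)
  have hN : D.N t = D.N y := by rw [(hAy w₀ hw₀.1).N_eq, hK.N_p]
  have hsub : ∀ z, AInA D t z → D.nm z ⊆ range (D.N t) := fun z hz => by
    rw [hz.N_eq]; exact hK.nm_sub z
  let F₁ : Finset ℕ → Finset ℕ → Prop := fun a b =>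
    b = a ∧ ∃ z, AInA D t z ∧ hK.Orb t z ∧ AFirst D t z ∧ D.nm z = a
  let F₂ : Finset ℕ → Finset ℕ → Prop := fun a b =>
    b = a ∧ ∃ z, AInA D t z ∧ hK.Orb t z ∧ ¬ AFirst D t z ∧ D.nm z = a
  have hInB : ∀ z, AInB D t F₁ F₂ z ↔ AInA D t z ∧ hK.Orb t z := by
    intro z
    constructor
    · rintro ⟨hz, ⟨hf, -, x, hx, ho, hf', he⟩ | ⟨hf, -, x, hx, ho, hf', he⟩⟩
      · have h1 := hf x hx he
        have h2 := hf' z hz he.symm
        have : x = z := le_antisymm (not_lt.1 h2) (not_lt.1 h1)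
        exact ⟨hz, this ▸ ho⟩
      · refine ⟨hz, ?_⟩
        unfold AFirst at hf hf'
        push Not at hf hf'
        obtain ⟨a, ha, hae, hlt⟩ := hf
        obtain ⟨b, hb, hbe, hlt'⟩ := hf'
        by_cases hxz : x = z
        · exact hxz ▸ ho
        exfalso
        rcases hB z x a hz hx ha he hae with h | h | h
        · exact hxz h.symm
        · exact hlt.ne h.symm
        · rcases hB z x b hz hx hb he (hbe.trans he) with h' | h' | h'
          · exact hxz h'.symm
          · subst h h'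
            exact lt_asymm hlt hlt'
          · exact hlt'.ne h'.symm
    · rintro ⟨hz, ho⟩
      refine ⟨hz, ?_⟩
      by_cases hf : AFirst D t z
      · exact Or.inl ⟨hf, rfl, z, hz, ho, hf, rfl⟩
      · exact Or.inr ⟨hf, rfl, z, hz, ho, hf, rfl⟩
  refine hC F₁ ?_ F₂ ?_ ?_ ⟨?_, ?_⟩
  · rintro a b ⟨rfl, x, hx, -, -, rfl⟩
    exact ⟨hsub x hx, hsub x hx⟩
  · rintro a b ⟨rfl, x, hx, -, -, rfl⟩
    exact ⟨hsub x hx, hsub x hx⟩
  · intro z s hs z' hz ht hz'
    rw [hInB] at hz ⊢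
    exact ⟨hz', hK.orb_step hz.2 hs ht⟩
  · refine ABig.of_not hF1 ?_
    intro w hw h0 hF
    exact ⟨hK.p t w, (hInB _).2 ⟨hAt w hF.1, w, hw, rfl⟩, hAt w hF.1,
      by rw [hK.nm_p t hw, proj_of_notMem h0]⟩
  · rw [hN]
    refine ABig.of_not hF1' ?_
    intro w hw h0 hF
    refine ⟨hK.p y w, fun hb => hy ?_, hAy w hF.1, by rw [hK.nm_p y hw, proj_of_notMem h0]⟩
    exact hK.orb_of_common ((hInB _).1 hb).2 ⟨w, hw, rfl⟩

theorem complete (h : AP D) : ACert D := by
  obtain ⟨hconn, y, y', hne, hnm⟩ := h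
  have horb : ∀ z, ∃ u ⊆ range (D.N y), z = hK.p y u := fun z => hK.orb_of_reach (hconn y z)
  have hτ := (hK.n1 y).2.1
  have hτs := hK.tau_sub y
  have hfree : ∀ u, hK.p y u ≠ hK.p y (u ∆ D.tau y) := by
    obtain ⟨v, hv, rfl⟩ := horb y'
    rw [hK.nm_p y hv, ← proj_of_notMem (τ := D.tau y) (hK.n1 y).2.2] at hnm
    rcases proj_eq hnm with h | h
    · exact absurd (by rw [← h, hK.p_nm]) hne
    · intro u he
      apply hne
      have := congrArg (hK.act (u ∆ D.nm y)) he
      rw [hK.act_p, hK.act_p, symmDiff_symmDiff_cancel_left, hK.p_nm, symmDiff_right_comm,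
        symmDiff_symmDiff_cancel_left, ← h] at this
      exact this
  obtain ⟨F, hF1, hF2, hF3⟩ := hK.good y
  obtain ⟨w₀, hw₀s, hw₀0, hw₀, -⟩ := ABig.meet hF1 (ABig.top _)
  have hAg : ∀ u, F u → AInA D (hK.p y w₀) (hK.p y u) :=
    fun u hu => ⟨hK.p y u, hF3 _ _ hw₀.1 hu, hF3 _ _ hu hu⟩
  have hnm2 : ∀ w ⊆ range (D.N y), 0 ∉ w → ∀ z, D.nm z = w →
      z = hK.p y w ∨ z = hK.p y (w ∆ D.tau y) := by
    intro w hw h0 z hz
    obtain ⟨v, hv, rfl⟩ := horb z
    rw [hK.nm_p y hv, ← proj_of_notMem (τ := D.tau y) h0] at hz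
    rcases proj_eq hz.symm with h | h
    · left; rw [h]
    · right; rw [h]
  refine ⟨hK.p y w₀, ?_, ?_, ?_, ?_⟩
  · intro t' ht'
    obtain ⟨u, hu, rfl⟩ := horb t'
    unfold ACenter at ht'
    rw [hK.N_p] at ht'
    obtain ⟨w, hw, h0, hF, z, hz, hzw⟩ := ABig.meet hF1 ht'
    rcases hnm2 w hw h0 z hzw with rfl | rfl
    · exact ⟨_, hF3 _ _ hw₀.1 hF.1, hz⟩
    · exact ⟨_, hF3 _ _ hw₀.1 hF.2, hz⟩
  · intro z₁ z₂ z₃ _ _ _ h2 h3
    obtain ⟨u, hu, rfl⟩ := horb z₁
    have hw : D.nm (hK.p y u) ⊆ range (D.N y) := by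
      rw [← hK.N_p y u]; exact hK.nm_sub _
    have h0 := (hK.n1 (hK.p y u)).2.2
    rcases hnm2 _ hw h0 _ rfl with a | a <;> rcases hnm2 _ hw h0 _ h2 with b | b <;>
      rcases hnm2 _ hw h0 _ h3 with c | c <;>
      first
        | exact Or.inl (a.trans b.symm)
        | exact Or.inr (Or.inl (a.trans c.symm))
        | exact Or.inr (Or.inr (b.trans c.symm))
  · rintro F₁ - F₂ - hcl ⟨h1, h2⟩
    rw [hK.N_p] at h1 h2
    obtain ⟨u, hu, s, hs, ⟨-, -, a⟩, hg, -, -, b⟩ := hK.m2 y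
      (fun a b => b = a ∧ a ⊆ range (D.N y) ∧ AInB D (hK.p y w₀) F₁ F₂ (hK.p y a))
      (fun a b h => ⟨h.2.1, h.1 ▸ h.2.1⟩)
      (fun a b => b = a ∧ a ⊆ range (D.N y) ∧ ¬ AInB D (hK.p y w₀) F₁ F₂ (hK.p y a) ∧
        AInA D (hK.p y w₀) (hK.p y a))
      (fun a b h => ⟨h.2.1, h.1 ▸ h.2.1⟩)
      (h1.mono (by
        rintro w hw h0 ⟨z, hz, -, hzw⟩
        rcases hnm2 w hw h0 z hzw with rfl | rfl
        · exact Or.inl ⟨rfl, hw, hz⟩
        · exact Or.inr ⟨rfl, symmDiff_sub hw hτs, hz⟩))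
      (h2.mono (by
        rintro w hw h0 ⟨z, hz, hz', hzw⟩
        rcases hnm2 w hw h0 z hzw with rfl | rfl
        · exact Or.inl ⟨rfl, hw, hz, hz'⟩
        · exact Or.inr ⟨rfl, symmDiff_sub hw hτs, hz, hz'⟩))
    exact b.1 (hcl _ s (by rw [hK.N_p]; exact hs) _ a ((hK.tgt_p y hs _).2 ⟨hg, rfl⟩) b.2)
  · refine ⟨hK.p y w₀, hK.p y (w₀ ∆ D.tau y), hAg _ hw₀.1, hAg _ hw₀.2, ?_, hfree w₀⟩
    rw [hK.nm_p y hw₀s, hK.nm_p y (symmDiff_sub hw₀s hτs), proj_add_tau hτ]

theorem cert_iff [Finite Y] : ACert D ↔ AP D := ⟨hK.sound, hK.complete⟩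

end AK

end Pool.Agent.Work.MP_6f75b7_lc
end

-- merged part: Pool.Agent.Work.MP_6f75b7_lc.Mix
section
/-! The mixing axioms follow from an expander mixing inequality. -/

namespace Pool.Agent.Work.MP_6f75b7_lc

open Finset
open scoped symmDiff

/-- The mixing inequality for a set of generators. -/
def MixIneq (N : ℕ) (gen : Finset ℕ → Prop) (Q : ℕ) : Prop :=
  ∀ I J : Finset (Finset ℕ), I ⊆ (range N).powerset → J ⊆ (range N).powerset →
    (∀ u ∈ I, ∀ s ⊆ range N, gen s → u ∆ s ∉ J) → I.card * J.card * Q ≤ (2 ^ N) ^ 2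

theorem card_names {N : ℕ} (hN : 0 < N) : 2 * (names N).card = 2 ^ N := by
  have : names N = ((range N).erase 0).powerset := by
    ext w
    rw [mem_names, mem_powerset, subset_erase]
  rw [this, card_powerset, card_erase_of_mem (mem_range.2 hN), card_range]
  obtain ⟨n, rfl⟩ : ∃ n, N = n + 1 := ⟨N - 1, by omega⟩
  rw [Nat.add_sub_cancel, pow_succ, mul_comm]

theorem card_names_le {N : ℕ} {τ : Finset ℕ} (h0 : 0 ∈ τ) (I : Finset (Finset ℕ))
    (W : Finset ℕ → Prop) [DecidablePred W]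
    (h : ∀ w ∈ names N, W w → w ∈ I ∨ w ∆ τ ∈ I) : ((names N).filter W).card ≤ I.card := by
  refine card_le_card_of_injOn (fun w => if w ∈ I then w else w ∆ τ) ?_ ?_
  · intro w hw
    simp only [coe_filter, Set.mem_ofPred_eq] at hw
    simp only [mem_coe]
    split_ifs with e
    · exact e
    · exact (h w hw.1 hw.2).resolve_left e
  · have key : ∀ w ∈ names N, proj τ (if w ∈ I then w else w ∆ τ) = w := by
      intro w hw
      rw [mem_names] at hw
      split_ifs
      · exact proj_of_notMem hw.2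
      · rw [proj_add_tau h0, proj_of_notMem hw.2]
    intro a ha b hb e
    simp only [coe_filter, Set.mem_ofPred_eq] at ha hb
    rw [← key a ha.1, ← key b hb.1]
    exact congrArg (proj τ) e

theorem not_ABig {N : ℕ} {τ : Finset ℕ} (hN : 0 < N) (h0 : 0 ∈ τ) (I : Finset (Finset ℕ))
    (hI : 4 * I.card < 2 ^ N) {W : Finset ℕ → Prop}
    (h : ∀ w ∈ names N, W w → w ∈ I ∨ w ∆ τ ∈ I) : ¬ ABig N W := by
  classical
  rw [ABig_iff, not_le]
  have h1 := card_names_le (N := N) h0 I W h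
  have h2 := card_filter_add_card_filter_not (s := names N) W
  have h3 := card_names hN
  omega

theorem am2_of_mix {N Q : ℕ} {gen : Finset ℕ → Prop} {τ : Finset ℕ} (hN : 0 < N) (h0 : 0 ∈ τ)
    (hmix : MixIneq N gen Q) (hQ : 16 < Q) : AM2 N gen τ := by
  classical
  have key : ∀ F, Sup N F → ABig N (fun w => F w w ∨ F (w ∆ τ) (w ∆ τ)) →
      2 ^ N ≤ 4 * ((range N).powerset.filter (fun u => F u u)).card := by
    intro F hF h
    rw [ABig_iff] at h
    have h1 := card_names_le (N := N) h0 ((range N).powerset.filter (fun u => F u u))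
      (fun w => F w w ∨ F (w ∆ τ) (w ∆ τ)) (by
        intro w _ hw
        simp only [mem_filter, mem_powerset]
        rcases hw with hw | hw
        · exact Or.inl ⟨(hF _ _ hw).1, hw⟩
        · exact Or.inr ⟨(hF _ _ hw).1, hw⟩)
    have h2 := card_filter_add_card_filter_not (s := names N)
      (fun w => F w w ∨ F (w ∆ τ) (w ∆ τ))
    have h3 := card_names hN
    omega
  intro F hF F' hF' h h'
  have a := key F hF h
  have b := key F' hF' h'
  by_contra hc
  push Not at hc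
  have c := hmix _ _ (filter_subset (fun u => F u u) _) (filter_subset (fun u => F' u u) _) (by
    intro u hu s hs hg hm
    simp only [mem_filter, mem_powerset] at hu hm
    exact hc u hu.1 s hs hu.2 hg hm.2)
  set x := ((range N).powerset.filter (fun u => F u u)).card
  set y := ((range N).powerset.filter (fun u => F' u u)).card
  have hp : 0 < 2 ^ N := by positivity
  have d : (2 ^ N) ^ 2 ≤ 16 * (x * y) := by
    calc (2 ^ N) ^ 2 = 2 ^ N * 2 ^ N := sq _
      _ ≤ (4 * x) * (4 * y) := Nat.mul_le_mul a b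
      _ = _ := by ring
  have e : 0 < x * y := Nat.mul_pos (by omega) (by omega)
  nlinarith

section rank
variable {N : ℕ} {τ : Finset ℕ} {R : Finset ℕ → Finset ℕ → Prop}

open Classical in
/-- The number of predecessors. -/
noncomputable def rk (N : ℕ) (R : Finset ℕ → Finset ℕ → Prop) (u : Finset ℕ) : ℕ :=
  ((range N).powerset.filter (fun v => R v u)).card

variable (hi : ∀ u ⊆ range N, ¬ R u u)
  (ht : ∀ u ⊆ range N, ∀ v ⊆ range N, ∀ w ⊆ range N, R u v → R v w → R u w)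
  (hl : ∀ u ⊆ range N, ∀ v ⊆ range N, ¬ u = v → ¬ v = u ∆ τ → R u v ∨ R v u)

include hi ht in
theorem rk_lt {a b : Finset ℕ} (ha : a ⊆ range N) (hb : b ⊆ range N) (h : R a b) :
    rk N R a < rk N R b := by
  classical
  unfold rk
  apply card_lt_card
  rw [ssubset_iff_of_subset]
  · refine ⟨a, ?_, ?_⟩
    · simp [ha, h]
    · simp [hi a ha]
  · intro v
    simp only [mem_filter, mem_powerset]
    exact fun hv => ⟨hv.1, ht v hv.1 a ha b hb hv.2 h⟩

include hi ht hl in
theorem of_rk_lt {a b : Finset ℕ} (ha : a ⊆ range N) (hb : b ⊆ range N)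
    (h : rk N R a < rk N R b) : R a b := by
  classical
  by_contra hc
  have hba : ¬ R b a := fun e => by have := rk_lt hi ht hb ha e; omega
  have hne : ¬ a = b := fun e => by rw [e] at h; omega
  have hτ : b = a ∆ τ := by
    by_contra e
    exact (hl a ha b hb hne e).elim hc hba
  have : rk N R b ≤ rk N R a := by
    unfold rk
    apply card_le_card
    intro w
    simp only [mem_filter, mem_powerset]
    rintro ⟨hw, hwb⟩
    refine ⟨hw, ?_⟩
    have h1 : ¬ a = w := fun e => hc (e ▸ hwb)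
    have h2 : ¬ w = a ∆ τ := fun e => hi b hb (by rw [← hτ] at e; exact e ▸ hwb)
    rcases hl a ha w hw h1 h2 with e | e
    · exact absurd (ht a ha w hw b hb e hwb) hc
    · exact e
  omega

include hi ht hl in
theorem card_rk_le (m : ℕ) :
    ((range N).powerset.filter (fun u => rk N R u < m)).card ≤ m + 1 := by
  classical
  rcases ((range N).powerset.filter (fun u => rk N R u < m)).eq_empty_or_nonempty with h | h
  · rw [h]; simp
  obtain ⟨u, hu, hmax⟩ := exists_max_image _ (rk N R) h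
  simp only [mem_filter, mem_powerset] at hu
  have : (range N).powerset.filter (fun u => rk N R u < m) ⊆
      (range N).powerset.filter (fun v => R v u) ∪ {u, u ∆ τ} := by
    intro v hv
    have h1 := hmax v hv
    simp only [mem_filter, mem_powerset] at hv
    simp only [mem_union, mem_filter, mem_powerset, mem_insert, mem_singleton]
    by_cases e1 : u = v
    · exact Or.inr (Or.inl e1.symm)
    by_cases e2 : v = u ∆ τ
    · exact Or.inr (Or.inr e2)
    rcases hl u hu.1 v hv.1 e1 e2 with e | e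
    · have := rk_lt hi ht hu.1 hv.1 e
      omega
    · exact Or.inl ⟨hv.1, e⟩
  have h2 := (card_le_card this).trans (card_union_le _ _)
  have h3 : ({u, u ∆ τ} : Finset (Finset ℕ)).card ≤ 2 := card_le_two
  have h4 : ((range N).powerset.filter (fun v => R v u)).card = rk N R u := by
    unfold rk; congr
  omega

include hi ht in
theorem le_card_rk {m : ℕ} (hm : m ≤ 2 ^ N) :
    m ≤ ((range N).powerset.filter (fun u => rk N R u < m)).card := by
  classical
  rcases ((range N).powerset.filter (fun u => ¬ rk N R u < m)).eq_empty_or_nonempty with h | h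
  · have := card_filter_add_card_filter_not (s := (range N).powerset) (fun u => rk N R u < m)
    rw [h, card_powerset, card_range, card_empty] at this
    omega
  obtain ⟨u, hu, hmin⟩ := exists_min_image _ (rk N R) h
  simp only [mem_filter, mem_powerset] at hu
  have : (range N).powerset.filter (fun v => R v u) ⊆
      (range N).powerset.filter (fun u => rk N R u < m) := by
    intro v hv
    simp only [mem_filter, mem_powerset] at hv ⊢
    refine ⟨hv.1, ?_⟩
    by_contra e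
    have h1 := hmin v (by simp only [mem_filter, mem_powerset]; exact ⟨hv.1, e⟩)
    have h2 := rk_lt hi ht hv.1 hu.1 hv.2
    omega
  have h2 := card_le_card this
  have h4 : ((range N).powerset.filter (fun v => R v u)).card = rk N R u := by
    unfold rk; congr
  omega

end rank

theorem am1_of_mix {N Q : ℕ} {gen : Finset ℕ → Prop} {τ : Finset ℕ} (hN : 0 < N) (h0 : 0 ∈ τ)
    (hτ : τ ⊆ range N) (hmix : MixIneq N gen Q) (hQ : 32 * N ^ 2 < Q) (h8 : 8 * N ≤ 2 ^ N) :
    AM1 N gen τ := by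
  classical
  intro R _ hi ht hl
  obtain ⟨L, hL⟩ : ∃ L, L = 2 ^ N / (2 * N) := ⟨_, rfl⟩
  have hL1 : 2 * N * L ≤ 2 ^ N := by rw [hL]; exact Nat.mul_div_le _ _
  have hL2 : 2 ^ N < 2 * N * (L + 1) := by rw [hL]; exact Nat.lt_mul_div_succ _ (by omega)
  have hL3 : 4 ≤ L := by
    rw [hL, Nat.le_div_iff_mul_le (by omega)]
    omega
  let I : ℕ → Finset (Finset ℕ) := fun j =>
    (range N).powerset.filter (fun u => j * L ≤ rk N R u ∧ rk N R u < (j + 1) * L)
  have hI : ∀ j < 2 * N, L ≤ (I j).card + 1 := by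
    intro j hj
    have h1 := card_rk_le hi ht hl (j * L)
    have h2 := le_card_rk hi ht (m := (j + 1) * L)
      ((Nat.mul_le_mul_right L (by omega)).trans hL1)
    have h3 : (range N).powerset.filter (fun u => rk N R u < (j + 1) * L) ⊆
        I j ∪ (range N).powerset.filter (fun u => rk N R u < j * L) := by
      intro u
      simp only [I, mem_union, mem_filter]
      intro hu
      by_cases e : rk N R u < j * L
      · exact Or.inr ⟨hu.1, e⟩
      · exact Or.inl ⟨hu.1, by omega, hu.2⟩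
    have h4 := (card_le_card h3).trans (card_union_le _ _)
    rw [add_mul, one_mul] at h2 h4
    omega
  let Bad : ℕ → Finset (Finset ℕ) := fun j =>
    (range N).powerset.filter (fun u => ∀ s ⊆ range N, gen s → u ∆ s ∉ I j)
  have hp : 0 < 2 ^ N := by positivity
  have hBad : ∀ j < 2 * N, (Bad j).card * Q ≤ 4 * N * 2 ^ N := by
    intro j hj
    have h1 := hmix (Bad j) (I j) (filter_subset _ _) (filter_subset _ _)
      (fun u hu => (mem_filter.1 hu).2)
    have h2 := hI j hj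
    have h3 : 2 ^ N ≤ 4 * N * (I j).card := by
      have : L + 1 ≤ 2 * (I j).card := by omega
      calc 2 ^ N ≤ 2 * N * (L + 1) := hL2.le
        _ ≤ 2 * N * (2 * (I j).card) := by gcongr
        _ = _ := by ring
    refine Nat.le_of_mul_le_mul_right ?_ hp
    calc (Bad j).card * Q * 2 ^ N ≤ (Bad j).card * Q * (4 * N * (I j).card) := by gcongr
      _ = 4 * N * ((Bad j).card * (I j).card * Q) := by ring
      _ ≤ 4 * N * (2 ^ N) ^ 2 := by gcongr
      _ = _ := by ring
  let BA : Finset (Finset ℕ) := (range (2 * N)).biUnion Bad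
  have hBA : 4 * BA.card < 2 ^ N := by
    have h1 : BA.card * Q ≤ 2 * N * (4 * N * 2 ^ N) := by
      calc BA.card * Q ≤ (∑ j ∈ range (2 * N), (Bad j).card) * Q := by
            gcongr; exact card_biUnion_le
        _ = ∑ j ∈ range (2 * N), (Bad j).card * Q := by rw [sum_mul]
        _ ≤ ∑ _j ∈ range (2 * N), 4 * N * 2 ^ N :=
            sum_le_sum fun j hj => hBad j (mem_range.1 hj)
        _ = _ := by simp
    refine lt_of_mul_lt_mul_right (a := Q) ?_ (Nat.zero_le _)
    calc 4 * BA.card * Q = 4 * (BA.card * Q) := by ring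
      _ ≤ 4 * (2 * N * (4 * N * 2 ^ N)) := by gcongr
      _ = 2 ^ N * (32 * N ^ 2) := by ring
      _ < 2 ^ N * Q := by gcongr
  refine ⟨fun a b => b = a ∧ a ⊆ range N ∧ a ∉ BA, fun a b h => ⟨h.2.1, h.1 ▸ h.2.1⟩, ?_, ?_⟩
  · refine not_ABig hN h0 BA hBA ?_
    intro w hw h
    rw [mem_names] at hw
    by_contra e
    push Not at e
    exact h ⟨⟨rfl, hw.1, e.1⟩, rfl, symmDiff_sub hw.1 hτ, e.2⟩
  · rintro u hu v hv ⟨-, -, hu'⟩ ⟨-, -, hv'⟩
    have key : ∀ u ⊆ range N, u ∉ BA → ∀ j < 2 * N, ∃ s, s ⊆ range N ∧ gen s ∧ u ∆ s ∈ I j := by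
      intro u hu hu' j hj
      by_contra e
      push Not at e
      exact hu' (mem_biUnion.2 ⟨j, mem_range.2 hj, mem_filter.2 ⟨mem_powerset.2 hu, e⟩⟩)
    choose! p hp1 hp2 hp3 using key u hu hu'
    choose! q hq1 hq2 hq3 using key v hv hv'
    refine ⟨fun a b => ∃ i < N, a = {i} ∧ b = p (2 * i), ?_,
      fun a b => ∃ i < N, a = {i} ∧ b = q (2 * i + 1), ?_, ?_⟩
    · rintro a b ⟨i, hi', rfl, rfl⟩
      exact ⟨single_sub hi', hp1 _ (by omega)⟩
    · rintro a b ⟨i, hi', rfl, rfl⟩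
      exact ⟨single_sub hi', hq1 _ (by omega)⟩
    · intro i hi' j hj'
      have a := hp3 (2 * i) (by omega)
      have b := hq3 (2 * j + 1) (by omega)
      simp only [I, mem_filter, mem_powerset] at a b
      constructor
      · rintro ⟨s, -, s', -, -, -, ⟨i', -, e1, rfl⟩, ⟨j', -, e2, rfl⟩, h⟩
        rw [singleton_inj] at e1 e2
        subst e1 e2
        have c := rk_lt hi ht a.1 b.1 h
        have d : 2 * i * L < (2 * j + 1 + 1) * L := by omega
        have := lt_of_mul_lt_mul_right d (Nat.zero_le _)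
        omega
      · intro hij
        refine ⟨_, hp1 (2 * i) (by omega), _, hq1 (2 * j + 1) (by omega), hp2 _ (by omega),
          hq2 _ (by omega), ⟨i, hi', rfl, rfl⟩, ⟨j, hj', rfl, rfl⟩, ?_⟩
        apply of_rk_lt hi ht hl a.1 b.1
        have : (2 * i + 1) * L ≤ (2 * j + 1) * L := Nat.mul_le_mul_right L (by omega)
        omega

end Pool.Agent.Work.MP_6f75b7_lc
end
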