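import Pool.Agent.Work.MP_6f75b7_lc.DfPred

-- merged part: Pool.Agent.Work.MP_6f75b7_lc.Trans
section
/-! Translation of the order-free predicates into the abstract layer. -/

namespace Pool.Agent.Work.MP_6f75b7_lc

open Finset
open scoped symmDiff

theorem and_congr_ctx {a b c d : Prop} (h1 : a ↔ c) (h2 : c → (b ↔ d)) : a ∧ b ↔ c ∧ d :=
  ⟨fun h => ⟨h1.1 h.1, (h2 (h1.1 h.1)).1 h.2⟩, fun h => ⟨h1.2 h.1, (h2 h.1).2 h.2⟩⟩

theorem ext_range {n : ℕ} {u v : Finset ℕ} (hu : u ⊆ range n) (hv : v ⊆ range n) :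
    (∀ j < n, (j ∈ u ↔ j ∈ v)) ↔ u = v := by
  constructor
  · intro h
    ext i
    by_cases hi : i < n
    · exact h i hi
    · constructor
      · intro h; exact absurd (mem_range.1 (hu h)) hi
      · intro h; exact absurd (mem_range.1 (hv h)) hi
  · rintro rfl _ _; rfl

theorem mem_symmDiff' {u v : Finset ℕ} {j : ℕ} : j ∈ u ∆ v ↔ ¬ (j ∈ u ↔ j ∈ v) := by
  rw [mem_symmDiff]; tauto

/-- Transport between adjacent points is the identity in coordinates. -/
def TrOK {Y : Type} (D : AD Y) : Prop :=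
  ∀ y, ∀ s ⊆ range (D.N y), ∀ x, D.tgt y s x → ∀ i < D.N y, ∀ j < D.N x, (D.tr y i x j ↔ i = j)

variable {G : CGraph 8}

namespace Coord

variable (cd : Coord G)

open Classical in
/-- The abstract data of a graph with coordinates. -/
noncomputable def data : AD (PtT G) where
  N := cd.N
  tgt y s x := Tgt G (cd.vc y s) x.1
  tau y := (range (cd.N y)).filter (fun i => Ta G (cd.co y i))
  nm y := (range (cd.N y)).filter (fun i => Bt G (cd.co y i))
  tr y i x j := Tr G (cd.co y i) (cd.co x j)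

theorem data_N (y : PtT G) : cd.data.N y = cd.N y := rfl

theorem tau_sub (y : PtT G) : cd.data.tau y ⊆ range (cd.N y) := by
  classical
  exact filter_subset _ _

theorem nm_sub (y : PtT G) : cd.data.nm y ⊆ range (cd.N y) := by
  classical
  exact filter_subset _ _

theorem ta_iff (y : PtT G) {i : ℕ} (hi : i < cd.N y) : Ta G (cd.co y i) ↔ i ∈ cd.data.tau y := by
  simp [data, hi]

theorem bt_iff (y : PtT G) {i : ℕ} (hi : i < cd.N y) : Bt G (cd.co y i) ↔ i ∈ cd.data.nm y := by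
  simp [data, hi]

theorem tgt_iff (y : PtT G) (s : Finset ℕ) (x : PtT G) :
    Tgt G (cd.vc y s) x.1 ↔ cd.data.tgt y s x := Iff.rfl

theorem tr_iff (y x : PtT G) (i j : ℕ) :
    Tr G (cd.co y i) (cd.co x j) ↔ cd.data.tr y i x j := Iff.rfl

theorem gen_iff (y : PtT G) (s : Finset ℕ) : Gen G (cd.vc y s) ↔ cd.data.gen y s := by
  unfold Gen
  rw [exists_pt]
  rfl

theorem single_iff (y : PtT G) {a : Finset ℕ} {i : ℕ} (ha : a ⊆ range (cd.N y))
    (hi : i < cd.N y) : Single G y.1 (cd.vc y a) (cd.co y i) ↔ a = {i} := by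
  unfold Single
  rw [cd.forall_co, ← ext_range ha (single_sub hi)]
  refine forall₂_congr fun j hj => ?_
  rw [cd.mem' y hj ha, cd.co_eq y hj hi, mem_singleton]

theorem sm_iff (y : PtT G) {u v w : Finset ℕ} (hu : u ⊆ range (cd.N y))
    (hv : v ⊆ range (cd.N y)) (hw : w ⊆ range (cd.N y)) :
    Sm G y.1 (cd.vc y u) (cd.vc y v) (cd.vc y w) ↔ w = u ∆ v := by
  unfold Sm
  rw [cd.forall_co, ← ext_range hw (symmDiff_sub hu hv)]
  refine forall₂_congr fun j hj => ?_
  rw [cd.mem' y hj hu, cd.mem' y hj hv, cd.mem' y hj hw, mem_symmDiff']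

theorem pt_iff (y : PtT G) {u v : Finset ℕ} (hu : u ⊆ range (cd.N y))
    (hv : v ⊆ range (cd.N y)) :
    PT G y.1 (cd.vc y u) (cd.vc y v) ↔ v = u ∆ cd.data.tau y := by
  unfold PT
  rw [cd.forall_co, ← ext_range hv (symmDiff_sub hu (cd.tau_sub y))]
  refine forall₂_congr fun j hj => ?_
  rw [cd.mem' y hj hu, cd.mem' y hj hv, cd.ta_iff y hj, mem_symmDiff']

theorem mn_iff (y : PtT G) {i : ℕ} (hi : i < cd.N y) : Mn G y.1 (cd.co y i) ↔ i = 0 := by
  unfold Mn
  rw [cd.forall_co]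
  constructor
  · intro h
    have := h 0 (by omega)
    rw [cd.le' y hi (by omega)] at this
    omega
  · rintro rfl j hj
    rw [cd.le' y hi hj]
    omega

theorem nm_iff (y : PtT G) {w : Finset ℕ} (hw : w ⊆ range (cd.N y)) :
    Nm G y.1 (cd.vc y w) ↔ 0 ∉ w := by
  unfold Nm
  rw [cd.forall_co]
  constructor
  · intro h h0
    have hN := mem_range.1 (hw h0)
    exact h 0 hN ((cd.mn_iff y hN).2 rfl) ((cd.mem' y hN hw).2 h0)
  · intro h i hi hm
    rw [cd.mn_iff y hi] at hm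
    subst hm
    rw [cd.mem' y hi hw]
    exact h

attribute [local congr] and_congr_ctx

theorem iso_iff (y z : PtT G) (ρ : G.V → G.V → Prop) :
    Iso G y.1 z.1 ρ ↔ AIso (cd.N y) (cd.N z) (fun i j => ρ (cd.co y i) (cd.co z j)) := by
  unfold Iso AIso
  simp (config := {contextual := true}) only [cd.forall_co, cd.exists_co, cd.le']

theorem big_iff (y : PtT G) (W : G.V → Prop) :
    Big G y.1 W ↔ ABig (cd.N y) (fun w => W (cd.vc y w)) := by
  unfold Big ABig
  rw [← cd.ex_rel y]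
  simp (config := {contextual := true}) only [cd.forall_vc, cd.exists_vc, cd.nm_iff, cd.In_iff,
    cd.vc_eq]

theorem inOr_iff (y : PtT G) (f : G.V) {w : Finset ℕ} (hw : w ⊆ range (cd.N y)) :
    InOr G y.1 f (cd.vc y w) ↔
      cd.rel y f w w ∨ cd.rel y f (w ∆ cd.data.tau y) (w ∆ cd.data.tau y) := by
  unfold InOr
  rw [cd.exists_vc, cd.In_iff y f hw hw]
  refine or_congr Iff.rfl ⟨?_, fun h => ⟨_, h.1, (cd.pt_iff y hw h.1).2 rfl, h.2.2⟩⟩
  rintro ⟨v, hv, e, h⟩
  rw [cd.pt_iff y hw hv] at e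
  subst e
  exact ⟨hv, hv, h⟩

theorem inAnd_iff (y : PtT G) (f : G.V) {w : Finset ℕ} (hw : w ⊆ range (cd.N y)) :
    InAnd G y.1 f (cd.vc y w) ↔
      cd.rel y f w w ∧ cd.rel y f (w ∆ cd.data.tau y) (w ∆ cd.data.tau y) := by
  unfold InAnd
  rw [cd.exists_vc, cd.In_iff y f hw hw]
  refine and_congr Iff.rfl ⟨?_, fun h => ⟨_, h.1, (cd.pt_iff y hw h.1).2 rfl, h.2.2⟩⟩
  rintro ⟨v, hv, e, h⟩
  rw [cd.pt_iff y hw hv] at e
  subst e
  exact ⟨hv, hv, h⟩

theorem fn_iff (y : PtT G) (g : G.V) {i : ℕ} {s : Finset ℕ} (hi : i < cd.N y)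
    (hs : s ⊆ range (cd.N y)) :
    Fn G y.1 g (cd.co y i) (cd.vc y s) ↔ cd.rel y g {i} s := by
  unfold Fn
  rw [cd.exists_vc]
  refine ⟨?_, fun h => ⟨_, h.1, (cd.single_iff y h.1 hi).2 rfl, h.2.2⟩⟩
  rintro ⟨v, hv, e, h⟩
  rw [cd.single_iff y hv hi] at e
  subst e
  exact ⟨hv, hs, h⟩

theorem t1_iff (y : PtT G) : T1 G y.1 ↔ ∀ s ⊆ range (cd.N y), ∀ x x',
    cd.data.tgt y s x → cd.data.tgt y s x' → x = x' := by
  unfold T1
  simp only [cd.forall_vc, forall_pt, cd.tgt_iff, Subtype.coe_inj]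

theorem t2_iff (y : PtT G) : T2 G y.1 ↔ cd.data.tgt y ∅ y := by
  unfold T2
  simp (config := {contextual := true}) only [cd.forall_vc, cd.forall_co, cd.tgt_iff, cd.mem']
  constructor
  · intro h
    exact h ∅ (empty_subset _) (fun j _ => notMem_empty j)
  · intro h u hu h'
    have : u = ∅ := (ext_range hu (empty_subset _)).1 (fun j hj => by simpa using h' j hj)
    rw [this]
    exact h

theorem pair_sub {n i j : ℕ} (hi : i < n) (hj : j < n) : ({i, j} : Finset ℕ) ⊆ range n := by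
  intro l hl
  simp only [mem_insert, mem_singleton] at hl
  rcases hl with rfl | rfl <;> simpa

theorem t3_iff (y : PtT G) : T3 G y.1 ↔ ∀ i < cd.N y, ∀ j < cd.N y, cd.data.gen y {i, j} := by
  unfold T3
  simp (config := {contextual := true}) only [cd.forall_vc, cd.forall_co, cd.gen_iff, cd.mem',
    cd.co_eq]
  refine forall₂_congr fun i hi => forall₂_congr fun j hj => ?_
  constructor
  · intro h
    exact h _ (pair_sub hi hj) (fun l _ => by simp)
  · intro h u hu h'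
    have : u = {i, j} := (ext_range hu (pair_sub hi hj)).1 (fun l hl => by simpa using h' l hl)
    rw [this]
    exact h

theorem t4_iff (y : PtT G) : T4 G y.1 ↔ ∀ s ⊆ range (cd.N y), cd.data.gen y s → s.Nonempty →
    ∃ i ∈ s, cd.data.gen y (s.erase i) := by
  unfold T4
  simp (config := {contextual := true}) only [cd.forall_vc, cd.forall_co, cd.exists_vc,
    cd.exists_co, cd.gen_iff, cd.mem', cd.co_eq]
  refine forall₂_congr fun s hs => imp_congr Iff.rfl (imp_congr ?_ ?_)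
  · exact ⟨fun ⟨i, _, h⟩ => ⟨i, h⟩, fun ⟨i, h⟩ => ⟨i, mem_range.1 (hs h), h⟩⟩
  · constructor
    · rintro ⟨i, -, hi, u, hu, h1, h2⟩
      have : u = s.erase i := (ext_range hu ((erase_subset _ _).trans hs)).1
        (fun l hl => by rw [h1 l hl, mem_erase, and_comm])
      exact ⟨i, hi, this ▸ h2⟩
    · rintro ⟨i, hi, h⟩
      exact ⟨i, mem_range.1 (hs hi), hi, _, (erase_subset _ _).trans hs,
        fun l _ => by rw [mem_erase, and_comm], h⟩

theorem t5_iff (y : PtT G) : T5 G y.1 ↔ ∀ s ⊆ range (cd.N y), ∀ x, cd.data.tgt y s x →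
    AIso (cd.N y) (cd.N x) (fun i j => cd.data.tr y i x j) ∧
    (∀ i < cd.N y, ∀ j < cd.N x, cd.data.tr y i x j → (i ∈ cd.data.tau y ↔ j ∈ cd.data.tau x)) ∧
    ∀ u ⊆ range (cd.N y), ∀ u' ⊆ range (cd.N x),
      (∀ i < cd.N y, ∀ j < cd.N x, cd.data.tr y i x j → (i ∈ u ↔ j ∈ u')) →
      (cd.data.gen y u ↔ cd.data.gen x u') := by
  unfold T5
  simp (config := {contextual := true}) only [cd.forall_vc, cd.forall_co, forall_pt, cd.gen_iff,
    cd.mem', cd.tgt_iff, cd.iso_iff, cd.tr_iff, cd.ta_iff]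

theorem t6_iff (y : PtT G) : T6 G y.1 ↔ ∀ s ⊆ range (cd.N y), ∀ i < cd.N y,
    ∀ x, cd.data.tgt y s x → ∀ x'', cd.data.tgt y (s ∆ {i}) x'' →
    ∀ j < cd.N x, cd.data.tr y i x j → ∀ x', cd.data.tgt x {j} x' → x' = x'' := by
  unfold T6
  simp (config := {contextual := true}) only [cd.forall_vc, cd.forall_co, forall_pt,
    cd.mem', cd.tgt_iff, cd.tr_iff, cd.co_eq, cd.single_iff, Subtype.coe_inj]
  refine forall₂_congr fun s hs => forall₂_congr fun i hi => ?_
  constructor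
  · intro h x hx x'' hx'' j hj ht x' hx'
    exact h _ (symmDiff_sub hs (single_sub hi)) (fun l _ => by rw [mem_symmDiff', mem_singleton])
      x hx x'' hx'' j hj ht _ (single_sub hj) rfl x' hx'
  · intro h u hu h1 x hx x'' hx'' j hj ht a _ ha x' hx'
    have : u = s ∆ {i} := (ext_range hu (symmDiff_sub hs (single_sub hi))).1
      (fun l hl => by rw [h1 l hl, mem_symmDiff', mem_singleton])
    subst this ha
    exact h x hx x'' hx'' j hj ht x' hx'

theorem n1_iff (y : PtT G) : N1 G y.1 ↔ 0 < cd.N y ∧ 0 ∈ cd.data.tau y ∧ 0 ∉ cd.data.nm y := by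
  unfold N1
  rw [cd.exists_co]
  constructor
  · rintro ⟨i, hi, e, h⟩
    rw [cd.mn_iff y hi] at e
    subst e
    rw [cd.ta_iff y hi, cd.bt_iff y hi] at h
    exact ⟨hi, h⟩
  · rintro ⟨hi, h⟩
    rw [← cd.ta_iff y hi, ← cd.bt_iff y hi] at h
    exact ⟨0, hi, (cd.mn_iff y hi).2 rfl, h⟩

theorem mem_proj_single {τ : Finset ℕ} {i j : ℕ} :
    j ∈ proj τ {i} ↔ ¬ (j = i ↔ (i = 0 ∧ j ∈ τ)) := by
  unfold proj
  by_cases h : i = 0
  · subst h
    simp [mem_symmDiff']
  · have : ¬ 0 = i := fun e => h e.symm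
    simp [h, this]

theorem n2_iff (y : PtT G) : N2 G y.1 ↔ ∀ i < cd.N y, ∀ x, cd.data.tgt y {i} x →
    ∀ j < cd.N y, ∀ j' < cd.N x, cd.data.tr y j x j' →
      (j' ∈ cd.data.nm x ↔ j ∈ cd.data.nm y ∆ proj (cd.data.tau y) {i}) := by
  unfold N2
  simp (config := {contextual := true}) only [cd.forall_vc, cd.forall_co, forall_pt,
    cd.tgt_iff, cd.tr_iff, cd.co_eq, cd.single_iff, cd.mn_iff, cd.ta_iff, cd.bt_iff,
    mem_symmDiff', mem_proj_single]
  refine forall₂_congr fun i hi => ?_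
  constructor
  · intro h
    exact h _ (single_sub hi) rfl
  · rintro h a - rfl
    exact h

theorem ltR_iff (y : PtT G) (r g h : G.V) {u v : Finset ℕ} {i j : ℕ} (hu : u ⊆ range (cd.N y))
    (hv : v ⊆ range (cd.N y)) (hi : i < cd.N y) (hj : j < cd.N y) :
    LtR G y.1 r (cd.vc y u) (cd.vc y v) g h (cd.co y i) (cd.co y j) ↔
      ∃ s ⊆ range (cd.N y), ∃ s' ⊆ range (cd.N y), cd.data.gen y s ∧ cd.data.gen y s' ∧
        cd.rel y g {i} s ∧ cd.rel y h {j} s' ∧ cd.rel y r (u ∆ s) (v ∆ s') := by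
  unfold LtR
  simp only [cd.exists_vc, cd.gen_iff]
  refine exists_congr fun s => and_congr_right fun hs => exists_congr fun s' =>
    and_congr_right fun hs' => and_congr_right fun _ => and_congr_right fun _ =>
    and_congr (cd.fn_iff y g hi hs) (and_congr (cd.fn_iff y h hj hs') ?_)
  constructor
  · rintro ⟨a, ha, b, hb, e1, e2, h⟩
    rw [cd.sm_iff y hu hs ha] at e1
    rw [cd.sm_iff y hv hs' hb] at e2
    subst e1 e2
    exact ⟨ha, hb, h⟩
  · intro h
    exact ⟨_, h.1, _, h.2.1, (cd.sm_iff y hu hs h.1).2 rfl, (cd.sm_iff y hv hs' h.2.1).2 rfl,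
      h.2.2⟩

theorem m1_iff (y : PtT G) : M1 G y.1 ↔ AM1 (cd.N y) (cd.data.gen y) (cd.data.tau y) := by
  unfold M1 AM1
  rw [← cd.all_rel y]
  refine forall_congr' fun r => ?_
  simp (config := {contextual := true}) only [cd.forall_vc, cd.forall_co, cd.In_iff, cd.vc_eq,
    cd.pt_iff, cd.ltR_iff, cd.le', cd.big_iff]
  refine imp_congr Iff.rfl (imp_congr Iff.rfl (imp_congr Iff.rfl ?_))
  rw [← cd.ex_rel y]
  refine exists_congr fun f => and_congr (not_congr (ABig.congr fun w hw => ?_)) ?_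
  · rw [cd.inAnd_iff y f hw]
  · refine forall₂_congr fun u hu => forall₂_congr fun v hv => imp_congr Iff.rfl
      (imp_congr Iff.rfl ?_)
    rw [← cd.ex_rel y]
    refine exists_congr fun g => ?_
    rw [← cd.ex_rel y]

theorem m2_iff (y : PtT G) : M2 G y.1 ↔ AM2 (cd.N y) (cd.data.gen y) (cd.data.tau y) := by
  unfold M2 AM2
  rw [← cd.all_rel y]
  refine forall_congr' fun f => ?_
  rw [← cd.all_rel y]
  refine forall_congr' fun f' => ?_
  simp (config := {contextual := true}) only [cd.exists_vc, cd.In_iff, cd.gen_iff,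
    cd.sm_iff, cd.big_iff]
  refine imp_congr (ABig.congr fun w hw => cd.inOr_iff y f hw)
    (imp_congr (ABig.congr fun w hw => cd.inOr_iff y f' hw) ?_)
  refine exists_congr fun u => and_congr_right fun hu => exists_congr fun s =>
    and_congr_right fun hs => ?_
  constructor
  · rintro ⟨v, -, a, b, rfl, c⟩
    exact ⟨a, b, c⟩
  · rintro ⟨a, b, c⟩
    exact ⟨_, c.1, a, b, rfl, c⟩

theorem k1_iff : K1 G ↔ AK cd.data ∧ TrOK cd.data := by
  unfold K1
  rw [forall_pt]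
  simp only [cd.t1_iff, cd.t2_iff, cd.t3_iff, cd.t4_iff, cd.t5_iff, cd.t6_iff, cd.n1_iff,
    cd.n2_iff, cd.m1_iff, cd.m2_iff]
  constructor
  · intro h
    have htr : TrOK cd.data := fun y s hs x hx => ((h y).2.2.2.2.1 s hs x hx).1.iff
    have hN : ∀ y, ∀ s ⊆ range (cd.N y), ∀ x, cd.data.tgt y s x → cd.N x = cd.N y :=
      fun y s hs x hx => ((h y).2.2.2.2.1 s hs x hx).1.n_eq.symm
    refine ⟨⟨cd.tau_sub, cd.nm_sub, fun y => (h y).1, fun y => (h y).2.1, fun y => (h y).2.2.1,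
      fun y => (h y).2.2.2.1, ?_, ?_, fun y => (h y).2.2.2.2.2.2.1, ?_,
      fun y => (h y).2.2.2.2.2.2.2.2.1, fun y => (h y).2.2.2.2.2.2.2.2.2⟩, htr⟩
    · intro y s hs x hx
      have e := hN y s hs x hx
      obtain ⟨-, h2, h3⟩ := (h y).2.2.2.2.1 s hs x hx
      refine ⟨e, ?_, ?_⟩
      · refine (ext_range (e ▸ cd.tau_sub x) (cd.tau_sub y)).1 fun j hj => ?_
        exact (h2 j hj j (e ▸ hj) ((htr y s hs x hx j hj j (e.symm ▸ hj : j < cd.N x)).2 rfl)).symm
      · intro u hu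
        refine h3 u hu u (e ▸ hu) fun i hi j hj ht => ?_
        rw [(htr y s hs x hx i hi j hj).1 ht]
    · intro y s hs i hi x hx x'' hx'' x' hx'
      have e := hN y s hs x hx
      exact (h y).2.2.2.2.2.1 s hs i hi x hx x'' hx'' i (e ▸ hi)
        ((htr y s hs x hx i hi i (e.symm ▸ hi : i < cd.N x)).2 rfl) x' hx'
    · intro y i hi x hx
      have e := hN y _ (single_sub hi) x hx
      refine (ext_range (e ▸ cd.nm_sub x) (symmDiff_sub (cd.nm_sub y)
        (proj_sub (cd.tau_sub y) (single_sub hi)))).1 fun j hj => ?_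
      exact (h y).2.2.2.2.2.2.2.1 i hi x hx j hj j (e ▸ hj)
        ((htr y _ (single_sub hi) x hx j hj j (e.symm ▸ hj : j < cd.N x)).2 rfl)
  · rintro ⟨hK, htr⟩ y
    refine ⟨hK.t1 y, hK.t2 y, hK.t3 y, hK.t4 y, ?_, ?_, hK.n1 y, ?_, hK.m1 y, hK.m2 y⟩
    · intro s hs x hx
      obtain ⟨e, h2, h3⟩ := hK.t5 y s hs x hx
      have e' : cd.N x = cd.N y := e
      have ht := htr y s hs x hx
      refine ⟨?_, ?_, ?_⟩
      · rw [e']
        exact AIso.of_iff fun i hi j hj => ht i hi j (e ▸ hj)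
      · intro i hi j hj h
        rw [(ht i hi j hj).1 h, h2]
      · intro u hu u' hu' h
        have : u = u' := (ext_range hu (e' ▸ hu')).1 fun j hj =>
          h j hj j (e' ▸ hj) ((ht j hj j (e ▸ hj)).2 rfl)
        subst this
        exact h3 u hu
    · intro s hs i hi x hx x'' hx'' j hj h x' hx'
      rw [← (htr y s hs x hx i hi j hj).1 h] at hx'
      exact hK.t6 y s hs i hi x hx x'' hx'' x' hx'
    · intro i hi x hx j hj j' hj' h
      rw [← (htr y _ (single_sub hi) x hx j hj j' hj').1 h, hK.n2 y i hi x hx]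

end Coord

end Pool.Agent.Work.MP_6f75b7_lc
end

-- merged part: Pool.Agent.Work.MP_6f75b7_lc.TransCert
section
/-! Translation of the certificate into the abstract layer. -/

namespace Pool.Agent.Work.MP_6f75b7_lc

open Finset
open scoped symmDiff

variable {G : CGraph 8}

namespace Coord

variable (cd : Coord G) [o : LinearOrder G.V]

attribute [local congr] and_congr_ctx

theorem olt_iff (x y : PtT G) : olt o x.1 y.1 ↔ x < y := Iff.rfl

theorem lt_iff (t z : PtT G) (g h : G.V) {i j : ℕ} (hi : i < cd.N t) (hj : j < cd.N z) :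
    Lt G o t.1 g z.1 h (cd.co t i) (cd.co z j) ↔
      ALt cd.data t (cd.rel t g) z (cd.rel z h) i j := by
  unfold Lt ALt
  simp (config := {contextual := true}) only [cd.exists_vc, exists_pt, cd.fn_iff, hi, hj,
    cd.tgt_iff, olt_iff, cd.data_N]

theorem mt_iff (t z : PtT G) (g h : G.V) {i j : ℕ} (hi : i < cd.N t) (hj : j < cd.N z) :
    Mt G o t.1 g z.1 h (cd.co t i) (cd.co z j) ↔
      AMt cd.data t (cd.rel t g) z (cd.rel z h) i j := by
  unfold Mt AMt
  rw [cd.forall_co]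
  refine forall₂_congr fun i' hi' => ?_
  rw [cd.lt_iff t z g h hi' hj, cd.le' t hi' hi]

omit o in
theorem AIso_congr {n m : ℕ} {ρ ρ' : ℕ → ℕ → Prop} (h : ∀ i < n, ∀ j < m, (ρ i j ↔ ρ' i j)) :
    AIso n m ρ ↔ AIso n m ρ' := by
  unfold AIso
  simp (config := {contextual := true}) only [h]

theorem isoMt_iff (t z : PtT G) (g h : G.V) :
    Iso G t.1 z.1 (fun i j => Mt G o t.1 g z.1 h i j) ↔
      AIso (cd.N t) (cd.N z) (AMt cd.data t (cd.rel t g) z (cd.rel z h)) := by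
  rw [cd.iso_iff]
  exact AIso_congr fun i hi j hj => cd.mt_iff t z g h hi hj

theorem comm_iff (t z : PtT G) : Comm G o t.1 z.1 ↔ AComm cd.data t z := by
  unfold Comm AComm
  simp only [cd.isoMt_iff, cd.data_N]
  rw [← cd.ex_rel t]
  refine exists_congr fun g => ?_
  rw [← cd.ex_rel z]

theorem lk_iff (t z : PtT G) {i j : ℕ} (hi : i < cd.N t) (hj : j < cd.N z) :
    Lk G o t.1 (cd.co t i) z.1 (cd.co z j) ↔ AComm cd.data t z ∧ i = j := by
  rw [← cd.comm_iff]
  unfold Lk Comm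
  simp only [cd.isoMt_iff, cd.mt_iff _ _ _ _ hi hj]
  constructor
  · rintro ⟨g, h, a, b⟩
    exact ⟨⟨g, h, a⟩, a.eq i hi j hj b⟩
  · rintro ⟨⟨g, h, a⟩, b⟩
    exact ⟨g, h, a, (a.iff i hi j hj).2 b⟩

theorem nm1_iff (t z : PtT G) {w : Finset ℕ} (hw : w ⊆ range (cd.N t)) :
    Nm1 G o t.1 (cd.vc t w) z.1 ↔ AComm cd.data t z ∧ cd.data.nm z = w := by
  unfold Nm1
  rw [cd.comm_iff]
  refine and_congr_right fun hc => ?_
  have e : cd.N t = cd.N z := hc.N_eq
  rw [cd.forall_co, ← ext_range (cd.nm_sub z) (e ▸ hw)]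
  constructor
  · intro h j hj
    have := h j (e ▸ hj) _ ((cd.coAt z _).2 ⟨j, hj, rfl⟩)
      ((cd.lk_iff t z (e ▸ hj) hj).2 ⟨hc, rfl⟩)
    rw [cd.mem' t (e ▸ hj) hw, cd.bt_iff z hj] at this
    exact this.symm
  · intro h i hi
    rw [cd.forall_co]
    intro j hj hl
    rw [cd.lk_iff t z hi hj] at hl
    rw [cd.mem' t hi hw, cd.bt_iff z hj, hl.2, h j hj]

theorem inA_iff (t z : PtT G) : InA G o t.1 z.1 ↔ AInA cd.data t z := by
  unfold InA AInA
  simp only [exists_pt, cd.comm_iff]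

theorem nm2_iff (t z : PtT G) {w : Finset ℕ} (hw : w ⊆ range (cd.N t)) :
    Nm2 G o t.1 (cd.vc t w) z.1 ↔ AInA cd.data t z ∧ cd.data.nm z = w := by
  unfold Nm2
  rw [cd.inA_iff]
  refine and_congr_right fun hc => ?_
  have e : cd.N t = cd.N z := hc.N_eq
  rw [forall_pt, ← ext_range (cd.nm_sub z) (e ▸ hw)]
  simp only [cd.forall_co]
  constructor
  · intro h j hj
    obtain ⟨r, h1, h2⟩ := hc
    have e' : cd.N z = cd.N r := h2.N_eq
    have := h r j (e ▸ hj) j (e' ▸ hj) j hj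
      ((cd.lk_iff t r (e ▸ hj) (e' ▸ hj)).2 ⟨h1, rfl⟩) ((cd.lk_iff z r hj (e' ▸ hj)).2 ⟨h2, rfl⟩)
    rw [cd.mem' t (e ▸ hj) hw, cd.bt_iff z hj] at this
    exact this.symm
  · intro h r i hi l hl j hj a b
    rw [cd.lk_iff t r hi hl] at a
    rw [cd.lk_iff z r hj hl] at b
    rw [cd.mem' t hi hw, cd.bt_iff z hj, a.2, ← b.2, h j hj]

theorem center_iff (t : PtT G) : Center G o t.1 ↔ ACenter cd.data t := by
  unfold Center ACenter
  rw [cd.big_iff]
  refine ABig.congr fun w hw => ?_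
  rw [exists_pt]
  exact exists_congr fun z => cd.nm1_iff t z hw

theorem nm_sub_of_inA {t z : PtT G} (h : AInA cd.data t z) : cd.data.nm z ⊆ range (cd.N t) := by
  have e : cd.N t = cd.N z := h.N_eq
  rw [e]
  exact cd.nm_sub z

theorem first_iff (t z : PtT G) (hz : AInA cd.data t z) :
    First G o t.1 z.1 ↔ AFirst cd.data t z := by
  unfold First AFirst
  rw [cd.forall_vc]
  simp only [forall_pt, olt_iff]
  constructor
  · intro h z' a b
    have hs := cd.nm_sub_of_inA hz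
    exact h _ hs z' ((cd.nm2_iff t z hs).2 ⟨hz, rfl⟩) ((cd.nm2_iff t z' hs).2 ⟨a, b⟩)
  · intro h w hw z' a b
    rw [cd.nm2_iff t _ hw] at a b
    exact h z' b.1 (b.2.trans a.2.symm)

theorem inB_iff (t z : PtT G) (f₁ f₂ : G.V) :
    InB G o t.1 f₁ f₂ z.1 ↔ AInB cd.data t (cd.rel t f₁) (cd.rel t f₂) z := by
  unfold InB AInB
  rw [cd.exists_vc]
  constructor
  · rintro ⟨w, hw, a, b⟩
    rw [cd.nm2_iff t z hw] at a
    obtain ⟨a, rfl⟩ := a
    rw [cd.first_iff t z a, cd.In_iff t f₁ hw hw, cd.In_iff t f₂ hw hw] at b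
    exact ⟨a, b⟩
  · rintro ⟨a, b⟩
    have hw := cd.nm_sub_of_inA a
    refine ⟨_, hw, (cd.nm2_iff t z hw).2 ⟨a, rfl⟩, ?_⟩
    rw [cd.first_iff t z a, cd.In_iff t f₁ hw hw, cd.In_iff t f₂ hw hw]
    exact b

theorem certA_iff (t : PtT G) : CertA G o t.1 ↔ ACertA cd.data t := by
  unfold CertA ACertA
  simp only [forall_pt, cd.center_iff, cd.inA_iff]

theorem certB_iff (t : PtT G) : CertB G o t.1 ↔ ACertB cd.data t := by
  unfold CertB ACertB
  rw [cd.forall_vc]
  simp only [forall_pt, Subtype.coe_inj]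
  constructor
  · intro h z₁ z₂ z₃ a b c d e
    have hs := cd.nm_sub_of_inA a
    exact h _ hs z₁ z₂ z₃ ((cd.nm2_iff t _ hs).2 ⟨a, rfl⟩) ((cd.nm2_iff t _ hs).2 ⟨b, d⟩)
      ((cd.nm2_iff t _ hs).2 ⟨c, e⟩)
  · intro h w hw z₁ z₂ z₃ a b c
    rw [cd.nm2_iff t _ hw] at a b c
    exact h z₁ z₂ z₃ a.1 b.1 c.1 (b.2.trans a.2.symm) (c.2.trans a.2.symm)

theorem certC_iff (t : PtT G) : CertC G o t.1 ↔ ACertC cd.data t := by
  unfold CertC ACertC
  rw [cd.data_N, ← cd.all_rel t]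
  refine forall_congr' fun f₁ => ?_
  rw [← cd.all_rel t]
  refine forall_congr' fun f₂ => ?_
  refine imp_congr ?_ (not_congr (and_congr ?_ ?_))
  · simp only [forall_pt, cd.forall_vc, cd.inB_iff, cd.inA_iff, cd.tgt_iff, cd.data_N]
  · rw [cd.big_iff]
    refine ABig.congr fun w hw => ?_
    rw [exists_pt]
    exact exists_congr fun z => and_congr (cd.inB_iff t z f₁ f₂) (cd.nm2_iff t z hw)
  · rw [cd.big_iff]
    refine ABig.congr fun w hw => ?_
    rw [exists_pt]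
    exact exists_congr fun z => and_congr (not_congr (cd.inB_iff t z f₁ f₂)) (cd.nm2_iff t z hw)

theorem certD_iff (t : PtT G) : CertD G o t.1 ↔ ACertD cd.data t := by
  unfold CertD ACertD
  rw [cd.exists_vc]
  simp only [exists_pt, Subtype.coe_inj]
  constructor
  · rintro ⟨w, hw, z, z', a, b, c⟩
    rw [cd.nm2_iff t _ hw] at a b
    exact ⟨z, z', a.1, b.1, b.2.trans a.2.symm, c⟩
  · rintro ⟨z, z', a, b, c, d⟩
    have hs := cd.nm_sub_of_inA a
    exact ⟨_, hs, z, z', (cd.nm2_iff t _ hs).2 ⟨a, rfl⟩, (cd.nm2_iff t _ hs).2 ⟨b, c⟩, d⟩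

theorem cert_iff : Cert G o ↔ ACert cd.data := by
  unfold Cert ACert
  simp only [exists_pt, cd.certA_iff, cd.certB_iff, cd.certC_iff, cd.certD_iff]

/-- The sentence holds under any order iff the axioms and the order-free property hold. -/
theorem main : (K0 G ∧ K1 G ∧ Cert G o) ↔ (AK cd.data ∧ TrOK cd.data) ∧ AP cd.data := by
  have := G.fin
  rw [cd.k1_iff, cd.cert_iff]
  constructor
  · rintro ⟨-, h, hc⟩
    exact ⟨h, h.1.sound hc⟩
  · rintro ⟨h, hp⟩
    exact ⟨cd.k0, h, h.1.complete hp⟩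

end Coord

theorem invariant (G : CGraph 8) (o₁ o₂ : LinearOrder G.V) :
    (K0 G ∧ K1 G ∧ Cert G o₁) ↔ (K0 G ∧ K1 G ∧ Cert G o₂) := by
  by_cases h : K0 G
  · obtain ⟨cd⟩ := exists_coord h
    rw [cd.main (o := o₁), cd.main (o := o₂)]
  · simp [h]

end Pool.Agent.Work.MP_6f75b7_lc
end
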