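import Mathlib
import Pool.Agent.Work.MP_6f75b7_lc.TransCert
import Pool.Agent.Work.MP_6f75b7_lc.DfPred

-- merged part: Pool.Agent.Work.MP_6f75b7_lc.Fourier
section
/-! The expander mixing lemma on `F_2^ι` and the bias of low-rank matrices. -/

namespace Pool.Agent.Work.MP_6f75b7_lc

open Finset

def sg (a : ZMod 2) : ℤ := if a = 0 then 1 else -1

theorem sg_add (a b : ZMod 2) : sg (a + b) = sg a * sg b := by
  revert a b
  decide

theorem sg_zero : sg 0 = 1 := rfl
theorem sg_one : sg 1 = -1 := rfl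

theorem zmod2_ne_zero {a : ZMod 2} (h : a ≠ 0) : a = 1 := by
  revert a
  decide

variable {ι : Type} [Fintype ι] [DecidableEq ι]

def chi (A u : ι → ZMod 2) : ℤ := sg (∑ i, A i * u i)

omit [DecidableEq ι] in
theorem chi_comm (A u : ι → ZMod 2) : chi A u = chi u A := by
  unfold chi
  simp only [mul_comm]

omit [DecidableEq ι] in
theorem chi_add (A u v : ι → ZMod 2) : chi A (u + v) = chi A u * chi A v := by
  unfold chi
  rw [← sg_add, ← sum_add_distrib]
  simp only [Pi.add_apply, mul_add]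

omit [DecidableEq ι] in
theorem chi_zero (A : ι → ZMod 2) : chi A 0 = 1 := by
  unfold chi
  simp [sg_zero]

theorem sum_chi (u : ι → ZMod 2) :
    ∑ A, chi u A = if u = 0 then (Fintype.card (ι → ZMod 2) : ℤ) else 0 := by
  split_ifs with h
  · subst h
    simp [chi_comm 0, chi_zero]
  · obtain ⟨i, hi⟩ := Function.ne_iff.1 h
    have hi' : u i = 1 := zmod2_ne_zero hi
    have h1 : chi u (Pi.single i 1) = -1 := by
      unfold chi
      rw [Finset.sum_eq_single i]
      · simp [hi', sg_one]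
      · intro j _ hj
        simp [hj]
      · simp
    have h2 := Equiv.sum_comp (Equiv.addRight (Pi.single i (1 : ZMod 2) : ι → ZMod 2)) (chi u)
    simp only [Equiv.coe_addRight, chi_add, h1, mul_neg, mul_one, sum_neg_distrib] at h2
    omega

omit [Fintype ι] [DecidableEq ι] in
theorem add_self' (u : ι → ZMod 2) : u + u = 0 := by
  funext i
  exact CharTwo.add_self_eq_zero (u i)

theorem parseval (I : Finset (ι → ZMod 2)) :
    ∑ A, (∑ u ∈ I, chi A u) ^ 2 = (I.card : ℤ) * Fintype.card (ι → ZMod 2) := by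
  have : ∀ A : ι → ZMod 2, (∑ u ∈ I, chi A u) ^ 2 = ∑ u ∈ I, ∑ v ∈ I, chi (u + v) A := by
    intro A
    rw [sq, sum_mul_sum]
    simp only [chi_comm _ A, chi_add]
  simp only [this]
  rw [sum_comm]
  have h2 : ∀ u ∈ I, ∑ A : ι → ZMod 2, ∑ v ∈ I, chi (u + v) A = Fintype.card (ι → ZMod 2) := by
    intro u hu
    rw [sum_comm]
    simp only [sum_chi]
    rw [Finset.sum_eq_single u]
    · simp [add_self']
    · intro v _ hv
      rw [if_neg]
      intro h
      apply hv
      have := congrArg (fun x => u + x) h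
      simpa [← add_assoc, add_self'] using this
    · intro h; exact absurd hu h
  rw [sum_congr rfl h2]
  simp

theorem mixing {Θ : Type} [Fintype Θ] [Nonempty Θ] (s : Θ → ι → ZMod 2) (q : ℕ)
    (hs : ∀ A, A ≠ 0 → |∑ θ, chi A (s θ)| * q ≤ Fintype.card Θ)
    (I J : Finset (ι → ZMod 2)) (h : ∀ u ∈ I, ∀ θ, u + s θ ∉ J) :
    I.card * J.card * q ^ 2 ≤ Fintype.card (ι → ZMod 2) ^ 2 := by
  set a : (ι → ZMod 2) → ℤ := fun A => ∑ u ∈ I, chi A u with ha
  set b : (ι → ZMod 2) → ℤ := fun A => ∑ u ∈ J, chi A u with hb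
  set c : (ι → ZMod 2) → ℤ := fun A => ∑ θ, chi A (s θ) with hc
  have h1 : ∑ A, a A * b A * c A = 0 := by
    have : ∀ A, a A * b A * c A = ∑ u ∈ I, ∑ v ∈ J, ∑ θ, chi (u + v + s θ) A := by
      intro A
      simp only [ha, hb, hc, chi_comm _ A, chi_add]
      rw [sum_mul_sum, sum_mul]
      refine sum_congr rfl fun u _ => ?_
      rw [sum_mul]
      refine sum_congr rfl fun v _ => ?_
      rw [mul_sum]
    simp only [this]
    rw [sum_comm]
    refine sum_eq_zero fun u hu => ?_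
    rw [sum_comm]
    refine sum_eq_zero fun v hv => ?_
    rw [sum_comm]
    refine sum_eq_zero fun θ _ => ?_
    rw [sum_chi, if_neg]
    intro e
    apply h u hu θ
    have : u + s θ = v := by
      have := congrArg (fun x => x + v) e
      simp only [zero_add] at this
      rw [← this, add_right_comm u v, add_assoc (u + s θ), add_self', add_zero]
    rwa [this]
  have h0 : a 0 * b 0 * c 0 = (I.card : ℤ) * J.card * Fintype.card Θ := by
    simp [ha, hb, hc, chi_comm 0, chi_zero]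
  rw [← add_sum_erase _ _ (mem_univ (0 : ι → ZMod 2)), h0] at h1
  have hΘ : (0 : ℤ) < Fintype.card Θ := by exact_mod_cast Fintype.card_pos
  have h2 : (I.card : ℤ) * J.card * Fintype.card Θ * q ≤
      (∑ A, |a A| * |b A|) * Fintype.card Θ := by
    calc (I.card : ℤ) * J.card * Fintype.card Θ * q
        = (∑ A ∈ univ.erase 0, -(a A * b A * c A)) * q := by
          rw [sum_neg_distrib]; congr 1; omega
      _ = ∑ A ∈ univ.erase 0, -(a A * b A * c A) * q := by rw [sum_mul]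
      _ ≤ ∑ A ∈ univ.erase 0, |a A| * |b A| * Fintype.card Θ := by
          refine sum_le_sum fun A hA => ?_
          have h3 := hs A (ne_of_mem_erase hA)
          have h4 : -(a A * b A * c A) ≤ |a A| * |b A| * |c A| := by
            rw [← abs_mul, ← abs_mul]; exact neg_le_abs _
          calc -(a A * b A * c A) * q ≤ |a A| * |b A| * |c A| * q := by gcongr
            _ = |a A| * |b A| * (|c A| * q) := by ring
            _ ≤ _ := by gcongr
      _ ≤ ∑ A, |a A| * |b A| * Fintype.card Θ :=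
          sum_le_sum_of_subset_of_nonneg (erase_subset _ _) (fun _ _ _ => by positivity)
      _ = _ := by rw [sum_mul]
  have h3 : (I.card : ℤ) * J.card * q ≤ ∑ A, |a A| * |b A| := by
    refine le_of_mul_le_mul_right ?_ hΘ
    calc _ = (I.card : ℤ) * J.card * Fintype.card Θ * q := by ring
      _ ≤ _ := h2
  have h4 := sum_mul_sq_le_sq_mul_sq univ (fun A => |a A|) (fun A => |b A|)
  simp only [sq_abs] at h4
  rw [parseval I, parseval J] at h4
  have h5 : ((I.card : ℤ) * J.card * q) ^ 2 ≤ (∑ A, |a A| * |b A|) ^ 2 := by gcongr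
  have h6 := h5.trans h4
  rcases Nat.eq_zero_or_pos (I.card * J.card) with h7 | h7
  · rw [h7]; simp
  · have h8 : (0 : ℤ) < I.card * J.card := by exact_mod_cast h7
    have : (I.card : ℤ) * J.card * q ^ 2 ≤ (Fintype.card (ι → ZMod 2) : ℤ) ^ 2 := by
      refine le_of_mul_le_mul_right ?_ h8
      calc _ = ((I.card : ℤ) * J.card * q) ^ 2 := by ring
        _ ≤ _ := h6
        _ = _ := by ring
    exact_mod_cast this

/-- Sums of `T` matrices of rank at most one. -/
def lowRank {κ : Type} (T : ℕ) (θ : (Fin T → κ → ZMod 2) × (Fin T × κ → ZMod 2)) :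
    κ × κ → ZMod 2 := fun p => ∑ l, θ.1 l p.1 * θ.2 (l, p.2)

theorem bias {κ : Type} [Fintype κ] [DecidableEq κ] (T : ℕ) (A : κ × κ → ZMod 2) (hA : A ≠ 0) :
    |∑ θ, chi A (lowRank T θ)| * (2 ^ T : ℕ) ≤
      Fintype.card ((Fin T → κ → ZMod 2) × (Fin T × κ → ZMod 2)) := by
  let c : (Fin T → κ → ZMod 2) → Fin T × κ → ZMod 2 := fun x p => ∑ a, A (a, p.2) * x p.1 a
  have h1 : ∀ x y, chi A (lowRank T (x, y)) = chi (c x) y := by
    intro x y
    unfold chi lowRank
    congr 1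
    simp only [c, Fintype.sum_prod_type, mul_sum, sum_mul]
    rw [sum_comm]
    conv_rhs => rw [sum_comm]
    refine sum_congr rfl fun b _ => ?_
    rw [sum_comm]
    refine sum_congr rfl fun l _ => sum_congr rfl fun a _ => ?_
    ring
  let K : Finset (κ → ZMod 2) := univ.filter (fun z => ∀ b, ∑ a, A (a, b) * z a = 0)
  have hK : 2 * K.card ≤ Fintype.card (κ → ZMod 2) := by
    obtain ⟨⟨a₀, b₀⟩, h0⟩ := Function.ne_iff.1 hA
    have h0' : A (a₀, b₀) = 1 := zmod2_ne_zero h0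
    have hdisj : Disjoint K (K.image (fun z => z + Pi.single a₀ 1)) := by
      rw [disjoint_left]
      intro z hz hz'
      obtain ⟨w, hw, rfl⟩ := mem_image.1 hz'
      simp only [K, mem_filter, mem_univ, true_and] at hz hw
      have := hz b₀
      simp only [Pi.add_apply, mul_add, sum_add_distrib, hw b₀, zero_add] at this
      rw [Finset.sum_eq_single a₀] at this
      · simp [h0'] at this
      · intro j _ hj
        simp [hj]
      · simp
    have := card_le_univ (K ∪ K.image (fun z => z + Pi.single a₀ 1))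
    rw [card_union_of_disjoint hdisj, card_image_of_injective _ (add_left_injective _)] at this
    omega
  have h2 : (univ.filter (fun x => c x = 0)) = Fintype.piFinset (fun _ : Fin T => K) := by
    ext x
    simp only [mem_filter, mem_univ, true_and, Fintype.mem_piFinset, K, c, funext_iff,
      Prod.forall, Pi.zero_apply]
  have h3 : ∑ θ, chi A (lowRank T θ) =
      ((K.card ^ T * Fintype.card (Fin T × κ → ZMod 2) : ℕ) : ℤ) := by
    rw [Fintype.sum_prod_type]
    simp only [h1, sum_chi]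
    rw [← sum_filter, h2, sum_const, Fintype.card_piFinset]
    simp
  rw [h3, abs_of_nonneg (by positivity), Fintype.card_prod]
  have h4 : Fintype.card (Fin T → κ → ZMod 2) = Fintype.card (κ → ZMod 2) ^ T := by
    rw [Fintype.card_fun (α := Fin T), Fintype.card_fin]
  rw [h4]
  have h5 : K.card ^ T * Fintype.card (Fin T × κ → ZMod 2) * 2 ^ T ≤
      Fintype.card (κ → ZMod 2) ^ T * Fintype.card (Fin T × κ → ZMod 2) := by
    calc _ = (2 * K.card) ^ T * Fintype.card (Fin T × κ → ZMod 2) := by ring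
      _ ≤ _ := by gcongr
  exact_mod_cast h5

end Pool.Agent.Work.MP_6f75b7_lc
end

-- merged part: Pool.Agent.Work.MP_6f75b7_lc.Model
section
/-! The two families of graphs. -/

namespace Pool.Agent.Work.MP_6f75b7_lc

open Finset
open scoped symmDiff

/-- Parameters of the construction. -/
structure Par where
  N : ℕ
  gen : Finset ℕ → Prop
  τ : Finset ℕ
  pos : 0 < N
  τ_sub : τ ⊆ range N
  τ_zero : 0 ∈ τ
  gen_empty : gen ∅
  gen_pair : ∀ i < N, ∀ j < N, gen {i, j}
  gen_acc : ∀ s ⊆ range N, gen s → s.Nonempty → ∃ i ∈ s, gen (s.erase i)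
  m1 : AM1 N gen τ
  m2 : AM2 N gen τ

abbrev Gm (N : ℕ) : Type := {u : Finset ℕ // u ⊆ range N}

instance (N : ℕ) : Finite (Gm N) := by
  refine Finite.of_injective (β := ((range N).powerset : Finset (Finset ℕ)))
    (fun u => ⟨u.1, mem_powerset.2 u.2⟩) ?_
  intro a b h
  exact Subtype.ext (Subtype.mk.inj h)

abbrev Yt (N : ℕ) : Type := {w : Finset ℕ // w ⊆ range N ∧ 0 ∉ w} × Bool

instance (N : ℕ) : Finite {w : Finset ℕ // w ⊆ range N ∧ 0 ∉ w} := by
  refine Finite.of_injective (β := Gm N) (fun u => ⟨u.1, u.2.1⟩) ?_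
  intro a b h
  exact Subtype.ext (Subtype.mk.inj h)

/-- The vertices of the gadget attached to a point. -/
inductive Aux (N : ℕ) : Type
  | pt : Aux N
  | co : Fin N → Aux N
  | vc : Gm N → Aux N
  | pr : Gm N → Gm N → Aux N
  | rl : Set (Gm N × Gm N) → Aux N
  | ar : Gm N → Aux N

def Aux.ofSum {N : ℕ} : Unit ⊕ Fin N ⊕ Gm N ⊕ (Gm N × Gm N) ⊕ Set (Gm N × Gm N) ⊕ Gm N → Aux N
  | .inl _ => .pt
  | .inr (.inl i) => .co i
  | .inr (.inr (.inl u)) => .vc u
  | .inr (.inr (.inr (.inl u))) => .pr u.1 u.2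
  | .inr (.inr (.inr (.inr (.inl R)))) => .rl R
  | .inr (.inr (.inr (.inr (.inr s)))) => .ar s

instance (N : ℕ) : Finite (Aux N) := by
  refine Finite.of_surjective Aux.ofSum ?_
  intro a
  cases a with
  | pt => exact ⟨.inl (), rfl⟩
  | co i => exact ⟨.inr (.inl i), rfl⟩
  | vc u => exact ⟨.inr (.inr (.inl u)), rfl⟩
  | pr u v => exact ⟨.inr (.inr (.inr (.inl (u, v)))), rfl⟩
  | rl R => exact ⟨.inr (.inr (.inr (.inr (.inl R)))), rfl⟩
  | ar s => exact ⟨.inr (.inr (.inr (.inr (.inr s)))), rfl⟩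

variable (P : Par) (ε : Bool)

/-- The action on points. -/
def step (y : Yt P.N) (s : Gm P.N) : Yt P.N :=
  (⟨y.1.1 ∆ proj P.τ s.1, symmDiff_sub y.1.2.1 (proj_sub P.τ_sub s.2), by
      rw [mem_symmDiff]
      have := zero_notMem_proj P.τ_zero s.1
      have := y.1.2.2
      tauto⟩,
    xor y.2 (ε && decide (0 ∈ s.1)))

/-- Directed edges. -/
def DE (y : Yt P.N) (a : Aux P.N) (y' : Yt P.N) (b : Aux P.N) : Prop :=
  match a, b with
  | .co _, .pt => y = y'
  | .vc _, .pt => y = y'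
  | .co i, .vc u => y = y' ∧ i.1 ∈ u.1
  | .pr u _, .vc u' => y = y' ∧ u = u'
  | .pr _ v, .co i => y = y' ∧ i.1 ∈ v.1
  | .pr u v, .rl R => y = y' ∧ (u, v) ∈ R
  | .ar s, .vc u => y = y' ∧ P.gen s.1 ∧ s = u
  | .ar s, .pt => P.gen s.1 ∧ y' = step P ε y s
  | .co i, .co j => i = j ∧ ¬ y = y' ∧ ∃ s, P.gen s.1 ∧ y' = step P ε y s
  | _, _ => False

/-- Colours. -/
def col (i : ℕ) (y : Yt P.N) (a : Aux P.N) : Prop :=
  match i, a with
  | 0, .pt => True
  | 1, .co _ => True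
  | 2, .vc _ => True
  | 3, .pr _ _ => True
  | 4, .ar _ => True
  | 5, .vc u => ∃ m, u.1 = range m
  | 6, .co j => j.1 ∈ P.τ
  | 7, .co j => j.1 ∈ y.1.1
  | _, _ => False

/-- The graph. -/
def Model : CGraph 8 where
  V := Yt P.N × Aux P.N
  fin := inferInstance
  E a b := DE P ε a.1 a.2 b.1 b.2 ∨ DE P ε b.1 b.2 a.1 a.2
  C i a := col P i.1 a.1 a.2

theorem model_simple : IsSimple (Model P ε) := by
  constructor
  · intro a b h
    exact h.symm
  · rintro ⟨y, a⟩ h
    cases a <;> simp [Model, DE] at h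

variable {P ε}

theorem E_iff (y y' : Yt P.N) (a b : Aux P.N) :
    (Model P ε).E (y, a) (y', b) ↔ DE P ε y a y' b ∨ DE P ε y' b y a := Iff.rfl

theorem pt_iff (y : Yt P.N) (a : Aux P.N) : Pt (Model P ε) (y, a) ↔ a = .pt := by
  cases a <;> simp [Pt, Model, col]
theorem co_iff (y : Yt P.N) (a : Aux P.N) : Co (Model P ε) (y, a) ↔ ∃ i, a = .co i := by
  cases a <;> simp [Co, Model, col]
theorem vc_iff (y : Yt P.N) (a : Aux P.N) : Vc (Model P ε) (y, a) ↔ ∃ i, a = .vc i := by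
  cases a <;> simp [Vc, Model, col]
theorem pr_iff (y : Yt P.N) (a : Aux P.N) : Pr (Model P ε) (y, a) ↔ ∃ u v, a = .pr u v := by
  cases a <;> simp [Pr, Model, col]
theorem ar_iff (y : Yt P.N) (a : Aux P.N) : Ar (Model P ε) (y, a) ↔ ∃ i, a = .ar i := by
  cases a <;> simp [Ar, Model, col]
theorem sg_iff (y : Yt P.N) (u : Gm P.N) :
    Sg (Model P ε) (y, Aux.vc u) ↔ ∃ m, u.1 = range m := Iff.rfl
theorem ta_iff (y : Yt P.N) (j : Fin P.N) : Ta (Model P ε) (y, Aux.co j) ↔ j.1 ∈ P.τ := Iff.rfl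
theorem bt_iff (y : Yt P.N) (j : Fin P.N) : Bt (Model P ε) (y, Aux.co j) ↔ j.1 ∈ y.1.1 := Iff.rfl

theorem coAt_iff (y : Yt P.N) (x : (Model P ε).V) :
    CoAt (Model P ε) (y, Aux.pt) x ↔ ∃ i, x = (y, Aux.co i) := by
  obtain ⟨y', a⟩ := x
  unfold CoAt
  rw [co_iff, E_iff]
  constructor
  · rintro ⟨⟨i, rfl⟩, h⟩
    simp only [DE, or_false] at h
    exact ⟨i, by rw [h]⟩
  · rintro ⟨i, h⟩
    cases h
    exact ⟨⟨i, rfl⟩, Or.inl rfl⟩

theorem vcAt_iff (y : Yt P.N) (x : (Model P ε).V) :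
    VcAt (Model P ε) (y, Aux.pt) x ↔ ∃ u, x = (y, Aux.vc u) := by
  obtain ⟨y', a⟩ := x
  unfold VcAt
  rw [vc_iff, E_iff]
  constructor
  · rintro ⟨⟨i, rfl⟩, h⟩
    simp only [DE, or_false] at h
    exact ⟨i, by rw [h]⟩
  · rintro ⟨i, h⟩
    cases h
    exact ⟨⟨i, rfl⟩, Or.inl rfl⟩

theorem mem_iff (y : Yt P.N) (i : Fin P.N) (u : Gm P.N) :
    (Model P ε).E (y, Aux.co i) (y, Aux.vc u) ↔ i.1 ∈ u.1 := by
  simp [E_iff, DE]

theorem le_iff (y : Yt P.N) (i j : Fin P.N) :
    Le (Model P ε) (y, Aux.pt) (y, Aux.co i) (y, Aux.co j) ↔ i.1 ≤ j.1 := by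
  unfold Le
  constructor
  · intro h
    have := h (y, Aux.vc ⟨range (j.1 + 1), range_subset_range.2 j.2⟩)
      ((vcAt_iff y _).2 ⟨_, rfl⟩) ⟨_, rfl⟩ ((mem_iff y j _).2 (by simp))
    rw [mem_iff] at this
    simp only [mem_range] at this
    omega
  · intro h s hs h1 h2
    obtain ⟨u, rfl⟩ := (vcAt_iff y s).1 hs
    obtain ⟨m, hm⟩ := h1
    rw [mem_iff, hm, mem_range] at h2 ⊢
    omega

theorem in_iff (y : Yt P.N) (u v : Gm P.N) (R : Set (Gm P.N × Gm P.N)) :
    In (Model P ε) (y, Aux.vc u) (y, Aux.vc v) (y, Aux.rl R) ↔ (u, v) ∈ R := by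
  unfold In
  constructor
  · rintro ⟨⟨y', a⟩, h1, h2, h3, h4⟩
    obtain ⟨a, b, rfl⟩ := (pr_iff _ _).1 h1
    simp only [E_iff, DE, or_false] at h2 h3
    obtain ⟨rfl, h2⟩ := h2
    obtain ⟨-, rfl⟩ := h3
    have : b = v := by
      apply Subtype.ext
      refine (ext_range b.2 v.2).1 fun j hj => ?_
      have := h4 (y', Aux.co ⟨j, hj⟩) ((co_iff _ _).2 ⟨_, rfl⟩)
      simpa [E_iff, DE] using this
    rw [← this]
    exact h2
  · intro h
    refine ⟨(y, Aux.pr u v), (pr_iff _ _).2 ⟨_, _, rfl⟩, Or.inl ⟨rfl, h⟩, Or.inl ⟨rfl, rfl⟩, ?_⟩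
    rintro ⟨y', a⟩ hc
    obtain ⟨i, rfl⟩ := (co_iff _ _).1 hc
    simp [E_iff, DE, eq_comm]

theorem tgt_iff (y x : Yt P.N) (s : Gm P.N) :
    Tgt (Model P ε) (y, Aux.vc s) (x, Aux.pt) ↔ P.gen s.1 ∧ x = step P ε y s := by
  unfold Tgt
  constructor
  · rintro ⟨⟨y', a⟩, h1, h2, h3⟩
    obtain ⟨a, rfl⟩ := (ar_iff _ _).1 h1
    simp only [E_iff, DE, or_false] at h2 h3
    obtain ⟨rfl, h2, rfl⟩ := h2
    exact h3
  · rintro ⟨h, rfl⟩
    exact ⟨(y, Aux.ar s), (ar_iff _ _).2 ⟨_, rfl⟩, Or.inl ⟨rfl, h, rfl⟩, Or.inl ⟨h, rfl⟩⟩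

theorem pt_eq (y : PtT (Model P ε)) : y.1 = (y.1.1, Aux.pt) := by
  obtain ⟨⟨y, a⟩, h⟩ := y
  rw [pt_iff] at h
  subst h
  rfl

/-- The point with given position. -/
def mkPt (y : Yt P.N) : PtT (Model P ε) := ⟨(y, Aux.pt), (pt_iff _ _).2 rfl⟩

theorem pt_ext {x y : PtT (Model P ε)} (h : x.1.1 = y.1.1) : x = y := by
  apply Subtype.ext
  rw [pt_eq x, pt_eq y, h]

variable (P ε)

open Classical in
/-- The explicit coordinates. -/
noncomputable def mcoord : Coord (Model P ε) where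
  N _ := P.N
  co y i := if h : i < P.N then (y.1.1, Aux.co ⟨i, h⟩) else y.1
  vc y u := if h : u ⊆ range P.N then (y.1.1, Aux.vc ⟨u, h⟩) else y.1
  coAt y x := by
    rw [pt_eq y, coAt_iff]
    constructor
    · rintro ⟨i, rfl⟩
      exact ⟨i.1, i.2, by rw [dif_pos i.2]⟩
    · rintro ⟨i, hi, rfl⟩
      exact ⟨⟨i, hi⟩, by rw [dif_pos hi]⟩
  co_inj y i hi j hj h := by
    rw [dif_pos hi, dif_pos hj] at h
    cases h
    rfl
  vcAt y x := by
    rw [pt_eq y, vcAt_iff]
    constructor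
    · rintro ⟨i, rfl⟩
      exact ⟨i.1, i.2, by rw [dif_pos i.2]⟩
    · rintro ⟨i, hi, rfl⟩
      exact ⟨⟨i, hi⟩, by rw [dif_pos hi]⟩
  vc_inj y i hi j hj h := by
    rw [dif_pos hi, dif_pos hj] at h
    cases h
    rfl
  mem y i hi u hu := by
    rw [dif_pos hi, dif_pos hu, mem_iff]
  le y i hi j hj := by
    rw [dif_pos hi, dif_pos hj]
    conv_lhs => rw [pt_eq y]
    exact le_iff _ _ _
  full y R _ := by
    refine ⟨(y.1.1, Aux.rl {a | R a.1.1 a.2.1}), fun u hu v hv => ?_⟩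
    rw [dif_pos hu, dif_pos hv, in_iff]
    rfl

variable {P ε}

theorem mco (y : PtT (Model P ε)) {i : ℕ} (hi : i < P.N) :
    (mcoord P ε).co y i = (y.1.1, Aux.co ⟨i, hi⟩) := dif_pos hi

theorem mvc (y : PtT (Model P ε)) {u : Finset ℕ} (hu : u ⊆ range P.N) :
    (mcoord P ε).vc y u = (y.1.1, Aux.vc ⟨u, hu⟩) := dif_pos hu

theorem d_N (y : PtT (Model P ε)) : (mcoord P ε).data.N y = P.N := rfl

theorem d_tgt (y x : PtT (Model P ε)) {s : Finset ℕ} (hs : s ⊆ range P.N) :
    (mcoord P ε).data.tgt y s x ↔ P.gen s ∧ x.1.1 = step P ε y.1.1 ⟨s, hs⟩ := by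
  rw [← Coord.tgt_iff, mvc y hs, pt_eq x, tgt_iff]

theorem d_gen (y : PtT (Model P ε)) {s : Finset ℕ} (hs : s ⊆ range P.N) :
    (mcoord P ε).data.gen y s ↔ P.gen s := by
  constructor
  · rintro ⟨x, hx⟩
    exact ((d_tgt y x hs).1 hx).1
  · intro h
    exact ⟨mkPt (step P ε y.1.1 ⟨s, hs⟩), (d_tgt y _ hs).2 ⟨h, rfl⟩⟩

theorem d_tau (y : PtT (Model P ε)) : (mcoord P ε).data.tau y = P.τ := by
  refine (ext_range ((mcoord P ε).tau_sub y) P.τ_sub).1 fun j hj => ?_
  rw [← Coord.ta_iff _ _ hj, mco y hj, ta_iff]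

theorem d_nm (y : PtT (Model P ε)) : (mcoord P ε).data.nm y = y.1.1.1.1 := by
  refine (ext_range ((mcoord P ε).nm_sub y) y.1.1.1.2.1).1 fun j hj => ?_
  rw [← Coord.bt_iff _ _ hj, mco y hj, bt_iff]

theorem d_trOK : TrOK (mcoord P ε).data := by
  intro y s hs x hx i hi j hj
  rw [d_tgt y x hs] at hx
  rw [← Coord.tr_iff, mco y hi, mco x hj]
  unfold Tr
  constructor
  · rintro (h | h | h)
    · exact congrArg Fin.val (Aux.co.inj (congrArg Prod.snd h))
    · exact congrArg Fin.val h.1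
    · exact (congrArg Fin.val h.1).symm
  · rintro rfl
    by_cases h : y.1.1 = x.1.1
    · left; rw [h]
    · right; left
      exact ⟨rfl, h, ⟨s, hs⟩, hx⟩

theorem step_empty (y : Yt P.N) : step P ε y ⟨∅, empty_subset _⟩ = y := by
  unfold step
  ext
  · simp [proj, mem_symmDiff]
  · simp

theorem step_step (y : Yt P.N) (s t : Gm P.N) :
    step P ε (step P ε y s) t = step P ε y ⟨s.1 ∆ t.1, symmDiff_sub s.2 t.2⟩ := by
  unfold step
  refine Prod.ext (Subtype.ext ?_) ?_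
  · simp only [proj_symmDiff, symmDiff_assoc]
  · simp only [mem_symmDiff]
    cases y.2 <;> cases ε <;> by_cases h1 : 0 ∈ s.1 <;> by_cases h2 : 0 ∈ t.1 <;> simp [h1, h2]

theorem AM1_congr {n : ℕ} {g g' : Finset ℕ → Prop} {τ : Finset ℕ}
    (h : ∀ s ⊆ range n, (g s ↔ g' s)) (H : AM1 n g τ) : AM1 n g' τ := by
  intro R a b c d
  obtain ⟨F, h1, h2, h3⟩ := H R a b c d
  refine ⟨F, h1, h2, fun u hu v hv e f => ?_⟩
  obtain ⟨p, hp, q, hq, h4⟩ := h3 u hu v hv e f
  refine ⟨p, hp, q, hq, fun i hi j hj => ?_⟩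
  rw [← h4 i hi j hj]
  refine exists_congr fun s => and_congr_right fun hs => exists_congr fun s' =>
    and_congr_right fun hs' => ?_
  rw [h s hs, h s' hs']

theorem AM2_congr {n : ℕ} {g g' : Finset ℕ → Prop} {τ : Finset ℕ}
    (h : ∀ s ⊆ range n, (g s ↔ g' s)) (H : AM2 n g τ) : AM2 n g' τ := by
  intro F a F' b c d
  obtain ⟨u, hu, s, hs, h1, h2, h3⟩ := H F a F' b c d
  exact ⟨u, hu, s, hs, h1, (h s hs).1 h2, h3⟩

theorem d_AK : AK (mcoord P ε).data where
  tau_sub := (mcoord P ε).tau_sub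
  nm_sub := (mcoord P ε).nm_sub
  t1 y s hs x x' h h' := by
    rw [d_tgt _ _ hs] at h h'
    exact pt_ext (h.2.trans h'.2.symm)
  t2 y := by
    rw [d_tgt _ _ (empty_subset _), step_empty]
    exact ⟨P.gen_empty, rfl⟩
  t3 y i hi j hj := (d_gen y (Coord.pair_sub hi hj)).2 (P.gen_pair i hi j hj)
  t4 y s hs h hne := by
    obtain ⟨i, hi, h'⟩ := P.gen_acc s hs ((d_gen y hs).1 h) hne
    exact ⟨i, hi, (d_gen y ((erase_subset _ _).trans hs)).2 h'⟩
  t5 y s _ x _ := ⟨rfl, by rw [d_tau, d_tau], fun u hu => by rw [d_gen y hu, d_gen x hu]⟩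
  t6 y s hs i hi x hx x'' hx'' x' hx' := by
    rw [d_tgt _ _ hs] at hx
    rw [d_tgt _ _ (symmDiff_sub hs (single_sub hi))] at hx''
    rw [d_tgt _ _ (single_sub hi)] at hx'
    apply pt_ext
    rw [hx'.2, hx.2, hx''.2, step_step]
  n1 y := by
    rw [d_tau, d_nm]
    exact ⟨P.pos, P.τ_zero, y.1.1.1.2.2⟩
  n2 y i hi x hx := by
    rw [d_tgt _ _ (single_sub hi)] at hx
    rw [d_nm, d_nm, d_tau, hx.2]
    rfl
  m1 y := by
    rw [d_tau]
    exact AM1_congr (fun s hs => (d_gen y hs).symm) P.m1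
  m2 y := by
    rw [d_tau]
    exact AM2_congr (fun s hs => (d_gen y hs).symm) P.m2

theorem d_reach (y : PtT (Model P ε)) (u : Finset ℕ) (hu : u ⊆ range P.N) :
    Relation.ReflTransGen
      (fun a b => ∃ s ⊆ range ((mcoord P ε).data.N a), (mcoord P ε).data.tgt a s b) y
      (mkPt (step P ε y.1.1 ⟨u, hu⟩)) := by
  induction u using Finset.induction_on with
  | empty =>
    have : mkPt (step P ε y.1.1 ⟨∅, hu⟩) = y := pt_ext (step_empty _)
    rw [this]
  | insert i u hi ih =>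
    have hi' : i < P.N := mem_range.1 (hu (mem_insert_self i u))
    refine (ih ((subset_insert i u).trans hu)).tail ⟨{i}, single_sub hi', ?_⟩
    rw [d_tgt _ _ (single_sub hi')]
    refine ⟨by simpa using P.gen_pair i hi' i hi', ?_⟩
    change step P ε y.1.1 _ = step P ε (step P ε y.1.1 _) _
    rw [step_step]
    congr 2
    exact AK.insert_eq_symmDiff hi

theorem AP_true : AP (mcoord P true).data := by
  constructor
  · intro y z
    by_cases hb : y.1.1.2 = z.1.1.2
    · have hu : y.1.1.1.1 ∆ z.1.1.1.1 ⊆ range P.N := symmDiff_sub y.1.1.1.2.1 z.1.1.1.2.1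
      have h0 : 0 ∉ y.1.1.1.1 ∆ z.1.1.1.1 := by
        rw [mem_symmDiff]
        have := y.1.1.1.2.2
        have := z.1.1.1.2.2
        tauto
      have : mkPt (step P true y.1.1 ⟨_, hu⟩) = z := by
        apply pt_ext
        refine Prod.ext (Subtype.ext ?_) ?_
        · change y.1.1.1.1 ∆ proj P.τ _ = _
          rw [proj_of_notMem h0, symmDiff_symmDiff_cancel_left]
        · change xor y.1.1.2 (true && decide (0 ∈ y.1.1.1.1 ∆ z.1.1.1.1)) = _
          simp [h0, hb]
      rw [← this]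
      exact d_reach y _ hu
    · have hu : (y.1.1.1.1 ∆ z.1.1.1.1) ∆ P.τ ⊆ range P.N :=
        symmDiff_sub (symmDiff_sub y.1.1.1.2.1 z.1.1.1.2.1) P.τ_sub
      have h0 : 0 ∉ y.1.1.1.1 ∆ z.1.1.1.1 := by
        rw [mem_symmDiff]
        have := y.1.1.1.2.2
        have := z.1.1.1.2.2
        tauto
      have h1 : 0 ∈ (y.1.1.1.1 ∆ z.1.1.1.1) ∆ P.τ := by
        rw [mem_symmDiff]
        exact Or.inr ⟨P.τ_zero, h0⟩
      have : mkPt (step P true y.1.1 ⟨_, hu⟩) = z := by
        apply pt_ext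
        refine Prod.ext (Subtype.ext ?_) ?_
        · change y.1.1.1.1 ∆ proj P.τ _ = _
          rw [proj_add_tau P.τ_zero, proj_of_notMem h0, symmDiff_symmDiff_cancel_left]
        · change xor y.1.1.2 (true && decide (0 ∈ (y.1.1.1.1 ∆ z.1.1.1.1) ∆ P.τ)) = _
          simp only [h1, decide_true, Bool.and_self, Bool.xor_true]
          revert hb
          cases y.1.1.2 <;> cases z.1.1.2 <;> simp
      rw [← this]
      exact d_reach y _ hu
  · refine ⟨mkPt (⟨∅, empty_subset _, notMem_empty _⟩, false),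
      mkPt (⟨∅, empty_subset _, notMem_empty _⟩, true), ?_, ?_⟩
    · intro h
      have := congrArg (fun x : PtT (Model P true) => x.1.1.2) h
      exact Bool.false_ne_true this
    · rw [d_nm, d_nm]
      rfl

theorem not_AP_false : ¬ AP (mcoord P false).data := by
  rintro ⟨h, -⟩
  have key : ∀ y z : PtT (Model P false), Relation.ReflTransGen
      (fun a b => ∃ s ⊆ range ((mcoord P false).data.N a), (mcoord P false).data.tgt a s b) y z →
      z.1.1.2 = y.1.1.2 := by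
    intro y z h
    induction h with
    | refl => rfl
    | tail _ h ih =>
      obtain ⟨s, hs, hx⟩ := h
      rw [d_tgt _ _ hs] at hx
      rw [hx.2, ← ih]
      simp [step]
  have := key _ _ (h (mkPt (⟨∅, empty_subset _, notMem_empty _⟩, true))
    (mkPt (⟨∅, empty_subset _, notMem_empty _⟩, false)))
  exact Bool.false_ne_true this

end Pool.Agent.Work.MP_6f75b7_lc
end

-- merged part: Pool.Agent.Work.MP_6f75b7_lc.Local
section
/-! The two graphs are Hanf equivalent. -/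

namespace Pool.Agent.Work.MP_6f75b7_lc

open Finset
open scoped symmDiff

theorem edist_succ {V : Type} (G : SimpleGraph V) (v b : V) (r : ℕ) :
    G.edist v b ≤ (r + 1 : ℕ) ↔ G.edist v b ≤ r ∨ ∃ a, G.edist v a ≤ r ∧ G.Adj a b := by
  constructor
  · intro h
    have hne : G.edist b v ≠ ⊤ := by
      rw [SimpleGraph.edist_comm]
      exact ne_top_of_le_ne_top (ENat.natCast_ne_top _) h
    obtain ⟨p, hp⟩ := SimpleGraph.exists_walk_of_edist_ne_top hne
    rw [SimpleGraph.edist_comm, ← hp] at h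
    cases p with
    | nil => left; simp
    | cons hadj q =>
      right
      refine ⟨_, ?_, hadj.symm⟩
      rw [SimpleGraph.edist_comm]
      refine q.edist_le.trans ?_
      rw [SimpleGraph.Walk.length_cons] at h
      have : q.length + 1 ≤ r + 1 := by exact_mod_cast h
      exact_mod_cast (by omega : q.length ≤ r)
  · rintro (h | ⟨a, h, hadj⟩)
    · exact h.trans (by exact_mod_cast Nat.le_succ r)
    · refine (SimpleGraph.edist_triangle (v := a)).trans ?_
      rw [SimpleGraph.edist_eq_one_iff_adj.2 hadj]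
      push_cast
      gcongr

theorem nbhdIso_of {c : ℕ} (A B : CGraph c) (d : ℕ) (Φ : A.V ≃ B.V) (v : A.V)
    (Reg : ℕ → A.V → Prop) (h0 : Reg 0 v) (hmono : ∀ r a, Reg r a → Reg (r + 1) a)
    (hA : ∀ r a b, Reg r a → (A.E a b ∨ A.E b a) → Reg (r + 1) b)
    (hB : ∀ r a b, Reg r a → (B.E (Φ a) (Φ b) ∨ B.E (Φ b) (Φ a)) → Reg (r + 1) b)
    (hE : ∀ a b, Reg d a → Reg d b → (A.E a b ↔ B.E (Φ a) (Φ b)))
    (hC : ∀ i a, A.C i a ↔ B.C i (Φ a)) : NbhdIso d A B v (Φ v) := by
  have hmono' : ∀ r r', r ≤ r' → ∀ a, Reg r a → Reg r' a := by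
    intro r r' h a ha
    induction h with
    | refl => exact ha
    | step _ ih => exact hmono _ _ ih
  have rA : ∀ (r : ℕ) a, (SimpleGraph.fromRel A.E).edist v a ≤ r → Reg r a := by
    intro r
    induction r with
    | zero =>
      intro a h
      simp only [CharP.cast_eq_zero, nonpos_iff_eq_zero, SimpleGraph.edist_eq_zero_iff] at h
      exact h ▸ h0
    | succ r ih =>
      intro a h
      rcases (edist_succ _ _ _ _).1 h with h | ⟨b, h, hadj⟩
      · exact hmono _ _ (ih a h)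
      · rw [SimpleGraph.fromRel_adj] at hadj
        exact hA r b a (ih b h) hadj.2
  have rB : ∀ (r : ℕ) a, (SimpleGraph.fromRel B.E).edist (Φ v) (Φ a) ≤ r → Reg r a := by
    intro r
    induction r with
    | zero =>
      intro a h
      simp only [CharP.cast_eq_zero, nonpos_iff_eq_zero, SimpleGraph.edist_eq_zero_iff,
        EmbeddingLike.apply_eq_iff_eq] at h
      exact h ▸ h0
    | succ r ih =>
      intro a h
      rcases (edist_succ _ _ _ _).1 h with h | ⟨b, h, hadj⟩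
      · exact hmono _ _ (ih a h)
      · obtain ⟨b, rfl⟩ := Φ.surjective b
        rw [SimpleGraph.fromRel_adj] at hadj
        exact hB r b a (ih b h) hadj.2
  have key : ∀ r : ℕ, r ≤ d → ∀ a, (SimpleGraph.fromRel A.E).edist v a ≤ r ↔
      (SimpleGraph.fromRel B.E).edist (Φ v) (Φ a) ≤ r := by
    intro r
    induction r with
    | zero => intro _ a; simp
    | succ r ih =>
      intro hr a
      rw [edist_succ, edist_succ, ih (by omega)]
      refine or_congr Iff.rfl ?_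
      constructor
      · rintro ⟨b, h, hadj⟩
        refine ⟨Φ b, (ih (by omega) b).1 h, ?_⟩
        rw [SimpleGraph.fromRel_adj] at hadj ⊢
        have h1 := rA r b h
        have h2 := hmono' _ _ hr _ (hA r b a h1 hadj.2)
        have h3 := hmono' r d (by omega) _ h1
        rw [← hE b a h3 h2, ← hE a b h2 h3]
        exact ⟨fun e => hadj.1 (Φ.injective e), hadj.2⟩
      · rintro ⟨b, h, hadj⟩
        obtain ⟨b, rfl⟩ := Φ.surjective b
        refine ⟨b, (ih (by omega) b).2 h, ?_⟩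
        rw [SimpleGraph.fromRel_adj] at hadj ⊢
        have h1 := rB r b h
        have h2 := hmono' _ _ hr _ (hB r b a h1 hadj.2)
        have h3 := hmono' r d (by omega) _ h1
        rw [hE b a h3 h2, hE a b h2 h3]
        exact ⟨fun e => hadj.1 (congrArg Φ e), hadj.2⟩
  refine ⟨Φ.subtypeEquiv (fun a => key d le_rfl a), ?_, ?_, ?_⟩
  · rintro ⟨a, ha⟩ e
    exact congrArg Φ e
  · rintro ⟨a, ha⟩ ⟨b, hb⟩
    exact hE a b (rA d a ha) (rA d b hb)
  · rintro i ⟨a, ha⟩
    exact hC i a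

/-- Sums of at most `r` generators. -/
def Bl (gen : Finset ℕ → Prop) : ℕ → Finset ℕ → Prop
  | 0, u => u = ∅
  | r + 1, u => ∃ v s, Bl gen r v ∧ gen s ∧ u = v ∆ s

theorem Bl.add {gen : Finset ℕ → Prop} {r : ℕ} {u : Finset ℕ} (hu : Bl gen r u) :
    ∀ {r' : ℕ} {v : Finset ℕ}, Bl gen r' v → Bl gen (r + r') (u ∆ v) := by
  intro r'
  induction r' with
  | zero =>
    intro v hv
    have : v = ∅ := hv
    subst this
    have : u ∆ ∅ = u := symmDiff_bot u
    rw [this]
    exact hu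
  | succ r' ih =>
    rintro v ⟨w, s, hw, hs, rfl⟩
    exact ⟨u ∆ w, s, ih hw, hs, (symmDiff_assoc _ _ _).symm⟩

variable {P : Par}

theorem DE_move {ε : Bool} {y y' : Yt P.N} {a b : Aux P.N} (h : DE P ε y a y' b) :
    ∃ s, P.gen s ∧ y'.1.1 = y.1.1 ∆ proj P.τ s := by
  have h0 : ∀ {y y' : Yt P.N}, y = y' → ∃ s, P.gen s ∧ y'.1.1 = y.1.1 ∆ proj P.τ s := by
    rintro y _ rfl
    exact ⟨∅, P.gen_empty, by rw [proj_of_notMem (notMem_empty 0)]; exact (symmDiff_bot _).symm⟩
  cases a <;> cases b <;> simp only [DE] at h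
  all_goals first
    | exact h0 h
    | exact h0 h.1
    | exact ⟨_, h.1, by rw [h.2]; rfl⟩
    | (obtain ⟨-, -, s, h1, h2⟩ := h; exact ⟨_, h1, by rw [h2]; rfl⟩)

theorem E_move {ε : Bool} {y y' : Yt P.N} {a b : Aux P.N}
    (h : DE P ε y a y' b ∨ DE P ε y' b y a) :
    ∃ s, P.gen s ∧ y'.1.1 = y.1.1 ∆ proj P.τ s := by
  rcases h with h | h
  · exact DE_move h
  · obtain ⟨s, hs, e⟩ := DE_move h
    exact ⟨s, hs, by rw [e, symmDiff_symmDiff_cancel_right]⟩

theorem DE_transfer {y y' z z' : Yt P.N} (h1 : y = y' ↔ z = z')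
    (h2 : ∀ s : Gm P.N, P.gen s.1 → (y' = step P true y s ↔ z' = step P false z s))
    (a b : Aux P.N) : DE P true y a y' b ↔ DE P false z a z' b := by
  cases a <;> cases b <;> simp only [DE, h1]
  · exact and_congr_right fun _ => and_congr_right fun _ => exists_congr fun s =>
      and_congr_right fun hs => h2 s hs
  · exact and_congr_right fun hs => h2 _ hs

theorem hanf (P : Par) (d : ℕ) (hfar : ¬ Bl P.gen (2 * d + 1) P.τ) :
    HanfEquiv d (Model P true) (Model P false) := by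
  classical
  refine ⟨Equiv.refl _, ?_⟩
  rintro ⟨y₀, a₀⟩
  let h : Finset ℕ → Bool := fun w =>
    decide (∃ u, Bl P.gen d u ∧ proj P.τ u = w ∆ y₀.1.1 ∧ 0 ∈ u)
  let φ : Yt P.N → Yt P.N := fun y => (y.1, xor y.2 (h y.1.1))
  have hφ : Function.Involutive φ := fun y => by simp [φ]
  let Φ : (Model P true).V ≃ (Model P false).V := Equiv.prodCongr hφ.toPerm (Equiv.refl _)
  have hΦ : ∀ y a, Φ (y, a) = (φ y, a) := fun _ _ => rfl
  have huniq : ∀ u u' s, Bl P.gen d u → Bl P.gen d u' → P.gen s →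
      proj P.τ (u ∆ s) = proj P.τ u' → u' = u ∆ s := by
    intro u u' s hu hu' hs e
    rcases proj_eq e with e | e
    · exact e.symm
    · exfalso
      apply hfar
      have : Bl P.gen (d + d + 1) ((u ∆ u') ∆ s) := ⟨_, s, hu.add hu', hs, rfl⟩
      rw [e, symmDiff_right_comm, symmDiff_symmDiff_cancel_left] at this
      rwa [two_mul]
  have hh : ∀ w u, Bl P.gen d u → proj P.τ u = w ∆ y₀.1.1 → h w = decide (0 ∈ u) := by
    intro w u hu e
    simp only [h, decide_eq_decide]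
    constructor
    · rintro ⟨u', hu', e', h0⟩
      have := huniq u u' ∅ hu hu' P.gen_empty (by
        have : u ∆ ∅ = u := symmDiff_bot u
        rw [this, e, e'])
      have e2 : u ∆ ∅ = u := symmDiff_bot u
      rw [e2] at this
      exact this ▸ h0
    · intro h0
      exact ⟨u, hu, e, h0⟩
  have hBl0 : ∀ r, Bl P.gen r ∅ := by
    intro r
    induction r with
    | zero => rfl
    | succ r ih => exact ⟨∅, ∅, ih, P.gen_empty, (symmDiff_self _).symm⟩
  have hfix : Φ (y₀, a₀) = (y₀, a₀) := by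
    rw [hΦ]
    have := hh y₀.1.1 ∅ (hBl0 d) (by
      rw [proj_of_notMem (notMem_empty 0)]; exact (symmDiff_self _).symm)
    simp [φ, this]
  have main := nbhdIso_of (Model P true) (Model P false) d Φ (y₀, a₀)
    (fun r x => ∃ u, Bl P.gen r u ∧ proj P.τ u = x.1.1.1 ∆ y₀.1.1)
    ⟨∅, rfl, by rw [proj_of_notMem (notMem_empty 0)]; exact (symmDiff_self _).symm⟩
    (by
      rintro r x ⟨u, hu, e⟩
      exact ⟨u, ⟨u, ∅, hu, P.gen_empty, (symmDiff_bot u).symm⟩, e⟩)
    (by
      rintro r ⟨y, a⟩ ⟨y', b⟩ ⟨u, hu, e⟩ hE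
      obtain ⟨s, hs, e'⟩ : ∃ s, P.gen s ∧ y'.1.1 = y.1.1 ∆ proj P.τ s := by
        rcases hE with hE | hE
        · exact E_move hE
        · exact E_move hE.symm
      refine ⟨u ∆ s, ⟨u, s, hu, hs, rfl⟩, ?_⟩
      rw [proj_symmDiff, e, e', symmDiff_right_comm])
    (by
      rintro r ⟨y, a⟩ ⟨y', b⟩ ⟨u, hu, e⟩ hE
      obtain ⟨s, hs, e'⟩ : ∃ s, P.gen s ∧ (φ y').1.1 = (φ y).1.1 ∆ proj P.τ s := by
        rcases hE with hE | hE
        · exact E_move hE
        · exact E_move hE.symm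
      refine ⟨u ∆ s, ⟨u, s, hu, hs, rfl⟩, ?_⟩
      have e'' : y'.1.1 = y.1.1 ∆ proj P.τ s := e'
      rw [proj_symmDiff, e, e'', symmDiff_right_comm])
    (by
      have tr : ∀ y y' : Yt P.N, (∃ u, Bl P.gen d u ∧ proj P.τ u = y.1.1 ∆ y₀.1.1) →
          (∃ u, Bl P.gen d u ∧ proj P.τ u = y'.1.1 ∆ y₀.1.1) → ∀ a b,
          (DE P true y a y' b ↔ DE P false (φ y) a (φ y') b) := by
        rintro y y' ⟨u, hu, e⟩ ⟨u', hu', e'⟩
        apply DE_transfer hφ.injective.eq_iff.symm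
        intro s hs
        rw [Prod.ext_iff, Prod.ext_iff]
        refine and_congr_right fun h1 => ?_
        have h2 : y'.1.1 = y.1.1 ∆ proj P.τ s.1 := congrArg Subtype.val h1
        have h3 := huniq u u' s.1 hu hu' hs (by
          rw [proj_symmDiff, e, e', h2, symmDiff_right_comm])
        simp only [φ, step, hh _ _ hu e, hh _ _ hu' e', h3, mem_symmDiff]
        cases y.2 <;> cases y'.2 <;> by_cases a1 : 0 ∈ u <;> by_cases a2 : 0 ∈ s.1 <;>
          simp [a1, a2]
      rintro ⟨y, a⟩ ⟨y', b⟩ h1 h2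
      exact or_congr (tr y y' h1 h2 a b) (tr y' y h2 h1 b a))
    (by
      rintro i ⟨y, a⟩
      change col P i.1 y a ↔ col P i.1 (φ y) a
      unfold col
      split <;> rfl)
  rw [hfix] at main
  exact main

end Pool.Agent.Work.MP_6f75b7_lc
end

-- merged part: Pool.Agent.Work.MP_6f75b7_lc.Params
section
/-! Existence of suitable parameters. -/

namespace Pool.Agent.Work.MP_6f75b7_lc

open Finset
open scoped symmDiff

section enc
variable (k : ℕ)

/-- Matrices as sets of coordinates. -/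
def enc (f : Fin k × Fin k → ZMod 2) : Finset ℕ :=
  (univ.filter (fun p => f p = 1)).image (fun p => (finProdFinEquiv p : ℕ))

/-- Sets of coordinates as matrices. -/
def dec (u : Finset ℕ) : Fin k × Fin k → ZMod 2 :=
  fun p => if (finProdFinEquiv p : ℕ) ∈ u then 1 else 0

variable {k}

theorem enc_sub (f : Fin k × Fin k → ZMod 2) : enc k f ⊆ range (k * k) := by
  intro i hi
  obtain ⟨p, -, rfl⟩ := mem_image.1 hi
  exact mem_range.2 (finProdFinEquiv p).2

theorem mem_enc (f : Fin k × Fin k → ZMod 2) (p : Fin k × Fin k) :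
    (finProdFinEquiv p : ℕ) ∈ enc k f ↔ f p = 1 := by
  unfold enc
  simp only [mem_image, mem_filter, mem_univ, true_and]
  constructor
  · rintro ⟨q, hq, e⟩
    have := finProdFinEquiv.injective (Fin.ext e)
    rwa [← this]
  · intro h
    exact ⟨p, h, rfl⟩

theorem dec_inj {u v : Finset ℕ} (hu : u ⊆ range (k * k)) (hv : v ⊆ range (k * k))
    (h : dec k u = dec k v) : u = v := by
  refine (ext_range hu hv).1 fun j hj => ?_
  have := congrFun h (finProdFinEquiv.symm ⟨j, hj⟩)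
  simp only [dec, Equiv.apply_symm_apply] at this
  by_cases a : j ∈ u <;> by_cases b : j ∈ v <;> simp_all

theorem dec_symmDiff_enc (u : Finset ℕ) (f : Fin k × Fin k → ZMod 2) :
    dec k (u ∆ enc k f) = dec k u + f := by
  funext p
  simp only [dec, Pi.add_apply, mem_symmDiff, mem_enc]
  have : f p = 0 ∨ f p = 1 := by
    generalize f p = a
    revert a
    decide
  generalize (finProdFinEquiv p : ℕ) = n
  by_cases a : n ∈ u <;> rcases this with b | b <;> simp [a, b]
  rfl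

end enc

/-- The basic generators. -/
noncomputable def S0 (k T : ℕ) : Finset (Finset ℕ) :=
  univ.image (fun θ : (Fin T → Fin k → ZMod 2) × (Fin T × Fin k → ZMod 2) =>
    enc k (lowRank T θ)) ∪
  (range (k * k) ×ˢ range (k * k)).image (fun p => {p.1, p.2})

/-- All generators: the initial parts of basic generators. -/
noncomputable def GenF (k T : ℕ) : Finset (Finset ℕ) :=
  (S0 k T ×ˢ range (k * k + 1)).image (fun p => p.1 ∩ range p.2)

theorem mem_GenF {k T : ℕ} {u : Finset ℕ} :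
    u ∈ GenF k T ↔ ∃ s ∈ S0 k T, ∃ m ≤ k * k, s ∩ range m = u := by
  unfold GenF
  simp only [mem_image, mem_product, mem_range, Prod.exists]
  constructor
  · rintro ⟨s, m, ⟨a, b⟩, c⟩
    exact ⟨s, a, m, by omega, c⟩
  · rintro ⟨s, a, m, b, c⟩
    exact ⟨s, m, ⟨a, by omega⟩, c⟩

theorem mem_GenF_of {k T : ℕ} {s : Finset ℕ} (h : s ∈ S0 k T) (hs : s ⊆ range (k * k)) :
    s ∈ GenF k T := mem_GenF.2 ⟨s, h, _, le_rfl, inter_eq_left.2 hs⟩

theorem card_GenF (k T : ℕ) :
    (GenF k T).card ≤ (2 ^ (2 * k * T) + (k * k) ^ 2) * (k * k + 1) := by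
  unfold GenF
  refine card_image_le.trans ?_
  rw [card_product, card_range]
  gcongr
  unfold S0
  refine (card_union_le _ _).trans (Nat.add_le_add (card_image_le.trans ?_)
    (card_image_le.trans ?_))
  · simp only [card_univ, Fintype.card_prod, Fintype.card_fun, Fintype.card_fin, ZMod.card]
    rw [← pow_mul, ← pow_add]
    apply le_of_eq
    congr 1
    ring
  · rw [card_product, card_range, sq]

theorem mixIneq (k T : ℕ) : MixIneq (k * k) (fun s => s ∈ GenF k T) (4 ^ T) := by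
  intro I J hI hJ h
  have := mixing (lowRank (κ := Fin k) T) (2 ^ T) (fun A hA => bias T A hA)
    (I.image (dec k)) (J.image (dec k)) (by
      intro a ha θ hb
      obtain ⟨u, hu, rfl⟩ := mem_image.1 ha
      obtain ⟨v, hv, e⟩ := mem_image.1 hb
      rw [← dec_symmDiff_enc] at e
      have hu' := mem_powerset.1 (hI hu)
      have := dec_inj (mem_powerset.1 (hJ hv)) (symmDiff_sub hu' (enc_sub _)) e
      refine h u hu _ (enc_sub (lowRank T θ)) (mem_GenF_of ?_ (enc_sub _)) (this ▸ hv)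
      exact mem_union_left _ (mem_image_of_mem _ (mem_univ θ)))
  rw [card_image_of_injOn (fun a ha b hb e =>
      dec_inj (mem_powerset.1 (hI ha)) (mem_powerset.1 (hI hb)) e),
    card_image_of_injOn (fun a ha b hb e =>
      dec_inj (mem_powerset.1 (hJ ha)) (mem_powerset.1 (hJ hb)) e)] at this
  simp only [Fintype.card_fun, Fintype.card_prod, Fintype.card_fin, ZMod.card] at this
  rw [← pow_mul, mul_comm T 2, pow_mul] at this
  exact this

theorem card_Bl (S : Finset (Finset ℕ)) (r : ℕ) :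
    ∃ B : Finset (Finset ℕ), B.card ≤ S.card ^ r ∧ ∀ u, Bl (fun s => s ∈ S) r u → u ∈ B := by
  induction r with
  | zero => exact ⟨{∅}, by simp, fun u hu => mem_singleton.2 hu⟩
  | succ r ih =>
    obtain ⟨B, h1, h2⟩ := ih
    refine ⟨(B ×ˢ S).image (fun p => p.1 ∆ p.2), ?_, ?_⟩
    · refine card_image_le.trans ?_
      rw [card_product, pow_succ]
      gcongr
    · rintro u ⟨v, s, hv, hs, rfl⟩
      exact mem_image.2 ⟨(v, s), mem_product.2 ⟨h2 v hv, hs⟩, rfl⟩

theorem eight_mul_le (n : ℕ) (h : 6 ≤ n) : 8 * n ≤ 2 ^ n := by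
  induction n, h using Nat.le_induction with
  | base => norm_num
  | succ n hn ih => rw [pow_succ]; omega

theorem exists_par (d : ℕ) : ∃ P : Par, ¬ Bl P.gen (2 * d + 1) P.τ := by
  obtain ⟨D, hD⟩ : ∃ D, D = 2 * d + 2 := ⟨_, rfl⟩
  obtain ⟨m, hm⟩ : ∃ m, m = 36 * D := ⟨_, rfl⟩
  obtain ⟨T, hT⟩ : ∃ T, T = 4 * m := ⟨_, rfl⟩
  obtain ⟨k, hk⟩ : ∃ k, k = D * (2 * T + 3) + 1 := ⟨_, rfl⟩
  have hD1 : 2 ≤ D := by omega
  have hm1 : 72 ≤ m := by omega
  have hk1 : 6 ≤ k := by nlinarith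
  have hN : 6 ≤ k * k := by nlinarith
  have n1 : 32 * (k * k) ^ 2 < 4 ^ T := by
    have a : 3 * k ≤ m * m := by nlinarith
    have b : m * m ≤ 4 ^ m := by
      have := Nat.lt_two_pow_self (n := m)
      calc m * m ≤ 2 ^ m * 2 ^ m := Nat.mul_le_mul this.le this.le
        _ = 4 ^ m := by rw [← mul_pow]; rfl
    have c : 0 < (k * k) ^ 2 := by positivity
    calc 32 * (k * k) ^ 2 < 81 * (k * k) ^ 2 := by omega
      _ = (3 * k) ^ 4 := by ring
      _ ≤ (4 ^ m) ^ 4 := Nat.pow_le_pow_left (a.trans b) 4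
      _ = 4 ^ T := by rw [← pow_mul, hT, mul_comm]
  have n3 : (GenF k T).card ^ D < 2 ^ (k * k) := by
    have a : k * k < 2 ^ (2 * k) := by
      have := Nat.lt_two_pow_self (n := k)
      calc k * k < 2 ^ k * 2 ^ k := Nat.mul_lt_mul'' this this
        _ = _ := by rw [← pow_add, two_mul]
    have b : (k * k) ^ 2 ≤ 2 ^ (2 * k * T) := by
      calc (k * k) ^ 2 ≤ (2 ^ (2 * k)) ^ 2 := Nat.pow_le_pow_left a.le 2
        _ = 2 ^ (2 * k * 2) := by rw [← pow_mul]
        _ ≤ _ := Nat.pow_le_pow_right (by norm_num) (Nat.mul_le_mul_left _ (by omega))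
    have c : (GenF k T).card ≤ 2 ^ (k * (2 * T + 3)) := by
      calc (GenF k T).card ≤ _ := card_GenF k T
        _ ≤ (2 ^ (2 * k * T) + 2 ^ (2 * k * T)) * 2 ^ (2 * k) := by gcongr; omega
        _ = 2 ^ (2 * k * T + 1 + 2 * k) := by ring
        _ ≤ _ := Nat.pow_le_pow_right (by norm_num) (by nlinarith)
    calc (GenF k T).card ^ D ≤ (2 ^ (k * (2 * T + 3))) ^ D := Nat.pow_le_pow_left c D
      _ = 2 ^ (k * (D * (2 * T + 3))) := by rw [← pow_mul]; congr 1; ring
      _ < _ := Nat.pow_lt_pow_right (by norm_num) (by nlinarith)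
  have gpair : ∀ i < k * k, ∀ j < k * k, ({i, j} : Finset ℕ) ∈ GenF k T := by
    intro i hi j hj
    refine mem_GenF_of (mem_union_right _ (mem_image.2 ⟨(i, j), ?_, rfl⟩)) (Coord.pair_sub hi hj)
    simp [hi, hj]
  have gempty : (∅ : Finset ℕ) ∈ GenF k T := by
    obtain ⟨s, hs, -⟩ := mem_GenF.1 (gpair 0 (by omega) 0 (by omega))
    exact mem_GenF.2 ⟨s, hs, 0, Nat.zero_le _, by simp⟩
  obtain ⟨τ, h1, h2, h3⟩ : ∃ τ ⊆ range (k * k), 0 ∈ τ ∧
      ¬ Bl (fun s => s ∈ GenF k T) (2 * d + 1) τ := by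
    by_contra hc
    push Not at hc
    obtain ⟨B, hB1, hB2⟩ := card_Bl (GenF k T) D
    have : (range (k * k)).powerset ⊆ B := by
      intro u hu
      rw [mem_powerset] at hu
      apply hB2
      rw [hD]
      by_cases h0 : 0 ∈ u
      · exact ⟨u, ∅, hc u hu h0, gempty, (symmDiff_bot u).symm⟩
      · refine ⟨u ∆ {0}, {0}, hc _ (symmDiff_sub hu (single_sub (by omega))) ?_, ?_,
          (symmDiff_symmDiff_cancel_right _ _).symm⟩
        · simp [mem_symmDiff, h0]
        · simpa using gpair 0 (by omega) 0 (by omega)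
    have := card_le_card this
    rw [card_powerset, card_range] at this
    omega
  have hQ : 16 < 4 ^ T := by
    have c : 0 < (k * k) ^ 2 := by positivity
    omega
  refine ⟨⟨k * k, fun s => s ∈ GenF k T, τ, by omega, h1, h2, gempty, gpair, ?_,
    am1_of_mix (by omega) h2 h1 (mixIneq k T) n1 (eight_mul_le _ hN),
    am2_of_mix (by omega) h2 (mixIneq k T) hQ⟩, h3⟩
  intro s _ hg hne
  obtain ⟨t, ht, n, hn, rfl⟩ := mem_GenF.1 hg
  refine ⟨_, max'_mem _ hne, mem_GenF.2 ⟨t, ht, (t ∩ range n).max' hne, ?_, ?_⟩⟩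
  · have := mem_range.1 (mem_inter.1 (max'_mem _ hne)).2
    omega
  · ext i
    have hmax := mem_range.1 (mem_inter.1 (max'_mem _ hne)).2
    simp only [mem_inter, mem_range, mem_erase]
    constructor
    · rintro ⟨a, b⟩
      exact ⟨b.ne, a, b.trans hmax⟩
    · rintro ⟨a, b, c⟩
      exact ⟨b, lt_of_le_of_ne (le_max' _ _ (mem_inter.2 ⟨b, mem_range.2 c⟩)) a⟩

end Pool.Agent.Work.MP_6f75b7_lc
end
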