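import Mathlib

/-! Definitions used in the statement: finite coloured graphs, order-invariant first-order
sentences, and Hanf equivalence. -/

namespace Pool.Agent.Work.MP_6f75b7_lc

open FirstOrder FirstOrder.Language

/-- A finite vertex-coloured graph with `c` colour predicates and a binary edge relation. -/
structure CGraph (c : ℕ) where
  V : Type
  fin : Finite V
  E : V → V → Prop
  C : Fin c → V → Prop

/-- The relation symbols of the graph vocabulary: `c` unary symbols and one binary symbol. -/
inductive GRel (c : ℕ) : ℕ → Type
  | col : Fin c → GRel c 1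
  | edge : GRel c 2

/-- The graph vocabulary (no function symbols). -/
def graphLang (c : ℕ) : Language := ⟨fun _ => Empty, GRel c⟩

/-- A coloured graph as a structure for the graph vocabulary. -/
@[reducible] def CGraph.str {c : ℕ} (G : CGraph c) : (graphLang c).Structure G.V where
  funMap f := f.elim
  RelMap {_} r x := match r with
    | GRel.col i => G.C i (x 0)
    | GRel.edge => G.E (x 0) (x 1)

/-- The ordered graph `(G, o)` satisfies the sentence `φ` over the graph vocabulary
extended by the order symbol. -/
def Holds {c : ℕ} (φ : ((graphLang c).sum Language.order).Sentence) (G : CGraph c)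
    (o : LinearOrder G.V) : Prop :=
  @Sentence.Realize ((graphLang c).sum Language.order) G.V
    (@sumStructure (graphLang c) Language.order G.V G.str (@orderStructure G.V o.toLE)) φ

/-- `φ` is order-invariant on all finite coloured graphs. -/
def OrderInvariant {c : ℕ} (φ : ((graphLang c).sum Language.order).Sentence) : Prop :=
  ∀ (G : CGraph c) (o₁ o₂ : LinearOrder G.V), Holds φ G o₁ ↔ Holds φ G o₂

/-- The property of unordered graphs defined by an order-invariant sentence. -/
def Sat {c : ℕ} (φ : ((graphLang c).sum Language.order).Sentence) (G : CGraph c) : Prop :=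
  ∃ o : LinearOrder G.V, Holds φ G o

/-- The vertices at distance at most `d` from `v` in the Gaifman graph of `G`. -/
def ball {c : ℕ} (G : CGraph c) (d : ℕ) (v : G.V) : Set G.V :=
  {u | (SimpleGraph.fromRel G.E).edist v u ≤ d}

/-- The induced substructures on the `d`-balls around `v` in `G` and around `w` in `H` are
isomorphic by an isomorphism sending `v` to `w`. -/
def NbhdIso {c : ℕ} (d : ℕ) (G H : CGraph c) (v : G.V) (w : H.V) : Prop :=
  ∃ g : ball G d v ≃ ball H d w,
    (∀ a : ball G d v, (a : G.V) = v → (g a : H.V) = w) ∧
    (∀ a b : ball G d v, G.E a b ↔ H.E (g a) (g b)) ∧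
    (∀ (i : Fin c) (a : ball G d v), G.C i a ↔ H.C i (g a))

/-- There is a bijection between the vertex sets preserving pointed `d`-neighbourhoods. -/
def HanfEquiv {c : ℕ} (d : ℕ) (G H : CGraph c) : Prop :=
  ∃ f : G.V ≃ H.V, ∀ v : G.V, NbhdIso d G H v (f v)

/-- The edge relation is symmetric and irreflexive. -/
def IsSimple {c : ℕ} (G : CGraph c) : Prop :=
  (∀ a b, G.E a b → G.E b a) ∧ ∀ a, ¬ G.E a a

end Pool.Agent.Work.MP_6f75b7_lc
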